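import Pool.Agent.Q296.ApCount

/-!
# Rounding fractional colourings, and a fractional colouring beating the random rate
-/

namespace Pool.Agent.Q296.ApBeat

open Finset Pool.Agent.Q296.ApCount

variable {r : ℕ}

/-- number of monochromatic `(q+2)`-term progressions in `[n]` -/
def M (q n : ℕ) (χ : ℕ → Fin r) : ℕ :=
  ((P q n).filter (fun x : ℕ × ℕ => ∀ i < q + 2, χ (x.1 + i * x.2) = χ x.1)).card

/-- fractional version of `M` -/
noncomputable def E (q n : ℕ) (w : ℕ → Fin r → ℝ) : ℝ :=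
  ∑ x ∈ P q n, ∑ c, ∏ i ∈ range (q + 2), w (x.1 + i * x.2) c

noncomputable def upd (w : ℕ → Fin r → ℝ) (x : ℕ) (c' : Fin r) : ℕ → Fin r → ℝ :=
  fun y c => if y = x then (if c = c' then 1 else 0) else w y c

lemma prod_upd {w : ℕ → Fin r → ℝ} (hw1 : ∀ y, ∑ c, w y c = 1) (x : ℕ) {a d q : ℕ}
    (hd : 1 ≤ d) (c : Fin r) :
    ∏ i ∈ range (q + 2), w (a + i * d) c =
      ∑ c', w x c' * ∏ i ∈ range (q + 2), upd w x c' (a + i * d) c := by
  by_cases hx : ∃ i0 ∈ range (q + 2), a + i0 * d = x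
  · obtain ⟨i0, hi0, hx⟩ := hx
    have h1 : ∀ c', ∏ i ∈ range (q + 2), upd w x c' (a + i * d) c =
        (if c = c' then 1 else 0) * ∏ i ∈ (range (q + 2)).erase i0, w (a + i * d) c := by
      intro c'
      rw [← mul_prod_erase _ _ hi0]
      congr 1
      · simp [upd, hx]
      · apply prod_congr rfl
        intro i hi
        have : a + i * d ≠ x := by
          rw [← hx]
          intro h
          apply (mem_erase.mp hi).1
          have : i * d = i0 * d := by omega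
          exact Nat.eq_of_mul_eq_mul_right hd this
        simp [upd, this]
    simp_rw [h1]
    rw [← mul_prod_erase _ _ hi0, hx]
    simp
  · push Not at hx
    have h1 : ∀ c', ∏ i ∈ range (q + 2), upd w x c' (a + i * d) c =
        ∏ i ∈ range (q + 2), w (a + i * d) c := by
      intro c'
      apply prod_congr rfl
      intro i hi
      simp [upd, hx i hi]
    simp_rw [h1, ← sum_mul, hw1, one_mul]

lemma E_upd {w : ℕ → Fin r → ℝ} (hw1 : ∀ y, ∑ c, w y c = 1) (x q n : ℕ) :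
    E q n w = ∑ c', w x c' * E q n (upd w x c') := by
  unfold E
  have h1 : ∀ y ∈ P q n, ∑ c, ∏ i ∈ range (q + 2), w (y.1 + i * y.2) c =
      ∑ c', w x c' * ∑ c, ∏ i ∈ range (q + 2), upd w x c' (y.1 + i * y.2) c := by
    rintro ⟨a, d⟩ hy
    have hd := (mem_P.mp hy).2.1
    simp_rw [mul_sum]
    rw [sum_comm]
    apply sum_congr rfl
    intro c _
    exact prod_upd hw1 x hd c
  rw [sum_congr rfl h1, sum_comm]
  apply sum_congr rfl
  intro c' _
  rw [mul_sum]

lemma exists_upd_le [NeZero r] {w : ℕ → Fin r → ℝ} (hw0 : ∀ y c, 0 ≤ w y c)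
    (hw1 : ∀ y, ∑ c, w y c = 1)
    (x q n : ℕ) : ∃ c', E q n (upd w x c') ≤ E q n w := by
  obtain ⟨c', _, hc'⟩ := exists_min_image (univ : Finset (Fin r))
    (fun c' => E q n (upd w x c')) ⟨0, mem_univ _⟩
  refine ⟨c', ?_⟩
  rw [E_upd hw1 x q n]
  calc E q n (upd w x c') = ∑ c, w x c * E q n (upd w x c') := by
        rw [← sum_mul, hw1, one_mul]
    _ ≤ _ := sum_le_sum (fun c _ => mul_le_mul_of_nonneg_left (hc' c (mem_univ _)) (hw0 x c))

/-- `χ` below `t`, `w` from `t` on -/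
noncomputable def mix (w : ℕ → Fin r → ℝ) (χ : ℕ → Fin r) (t : ℕ) : ℕ → Fin r → ℝ :=
  fun y c => if y < t then (if c = χ y then 1 else 0) else w y c

lemma mix_nonneg {w : ℕ → Fin r → ℝ} (hw0 : ∀ y c, 0 ≤ w y c) (χ : ℕ → Fin r) (t : ℕ) :
    ∀ y c, 0 ≤ mix w χ t y c := by
  intro y c
  unfold mix
  split_ifs <;> first | exact hw0 _ _ | norm_num

lemma mix_sum {w : ℕ → Fin r → ℝ} (hw1 : ∀ y, ∑ c, w y c = 1) (χ : ℕ → Fin r) (t : ℕ) :
    ∀ y, ∑ c, mix w χ t y c = 1 := by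
  intro y
  unfold mix
  split_ifs
  · simp
  · exact hw1 y

lemma exists_mix_le [NeZero r] {w : ℕ → Fin r → ℝ} (hw0 : ∀ y c, 0 ≤ w y c)
    (hw1 : ∀ y, ∑ c, w y c = 1) (q n t : ℕ) :
    ∃ χ : ℕ → Fin r, E q n (mix w χ t) ≤ E q n w := by
  induction t with
  | zero =>
    refine ⟨fun _ => 0, le_of_eq ?_⟩
    congr 1
  | succ t ih =>
    obtain ⟨χ, hχ⟩ := ih
    obtain ⟨c', hc'⟩ := exists_upd_le (mix_nonneg hw0 χ t) (mix_sum hw1 χ t) t q n
    refine ⟨Function.update χ t c', le_trans (le_of_eq ?_) (hc'.trans hχ)⟩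
    congr 1
    funext y c
    unfold mix upd
    rcases lt_trichotomy y t with h | h | h
    · have h1 : y < t + 1 := by omega
      have h2 : y ≠ t := by omega
      simp [h, h1, h2]
    · subst h
      simp
    · have h1 : ¬ y < t + 1 := by omega
      have h2 : y ≠ t := by omega
      have h3 : ¬ y < t := by omega
      simp [h1, h2, h3]

lemma E_mix_eq {w : ℕ → Fin r → ℝ} (χ : ℕ → Fin r) (q n : ℕ) :
    E q n (mix w χ (n + 1)) = M q n χ := by
  unfold E M
  rw [card_filter]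
  push_cast
  apply sum_congr rfl
  rintro ⟨a, d⟩ hx
  obtain ⟨h1, h2, h3⟩ := mem_P.mp hx
  have hlt : ∀ i ∈ range (q + 2), a + i * d < n + 1 := by
    intro i hi
    have : i * d ≤ (q + 1) * d := Nat.mul_le_mul_right _ (by have := mem_range.mp hi; omega)
    omega
  have hprod : ∀ c, ∏ i ∈ range (q + 2), mix w χ (n + 1) (a + i * d) c =
      ∏ i ∈ range (q + 2), (if c = χ (a + i * d) then (1 : ℝ) else 0) := by
    intro c
    apply prod_congr rfl
    intro i hi
    simp [mix, hlt i hi]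
  simp only [hprod]
  simp_rw [prod_boole]
  by_cases hm : ∀ i < q + 2, χ (a + i * d) = χ a
  · rw [if_pos hm]
    rw [sum_eq_single (χ a)]
    · rw [if_pos]
      intro i hi
      exact (hm i (mem_range.mp hi)).symm
    · intro c _ hc
      rw [if_neg]
      intro h
      apply hc
      have := h 0 (by simp)
      simpa using this
    · simp
  · rw [if_neg hm]
    apply sum_eq_zero
    intro c _
    rw [if_neg]
    intro h
    apply hm
    intro i hi
    have h0 := h 0 (by simp)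
    rw [← h i (mem_range.mpr hi), h0]
    simp

/-- rounding -/
lemma exists_round [NeZero r] {w : ℕ → Fin r → ℝ} (hw0 : ∀ y c, 0 ≤ w y c)
    (hw1 : ∀ y, ∑ c, w y c = 1) (q n : ℕ) :
    ∃ χ : ℕ → Fin r, (M q n χ : ℝ) ≤ E q n w := by
  obtain ⟨χ, hχ⟩ := exists_mix_le hw0 hw1 q n (n + 1)
  exact ⟨χ, by rw [← E_mix_eq (w := w)]; exact hχ⟩

/-- second order expansion of `∏ (1 + h i) + ∏ (1 - h i)` -/
lemma expand (h : ℕ → ℝ) {η : ℝ} (hη0 : 0 ≤ η) (hη1 : η ≤ 1) (hh : ∀ i, |h i| ≤ η) (k : ℕ) :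
    |(∏ i ∈ range k, (1 + h i)) + (∏ i ∈ range k, (1 - h i)) - 2| ≤ 2 * (2 ^ k - 1) * η ^ 2 ∧
    |(∏ i ∈ range k, (1 + h i)) - (∏ i ∈ range k, (1 - h i))| ≤ 2 * (2 ^ k - 1) * η ∧
    |(∏ i ∈ range k, (1 + h i)) - (∏ i ∈ range k, (1 - h i)) - 2 * ∑ i ∈ range k, h i| ≤
      4 ^ k * η ^ 3 ∧
    |(∏ i ∈ range k, (1 + h i)) + (∏ i ∈ range k, (1 - h i)) - 2 -
      2 * ∑ j ∈ range k, ∑ i ∈ range j, h i * h j| ≤ 4 ^ k * η ^ 4 := by
  induction k with
  | zero =>
    simp only [range_zero, prod_empty, sum_empty, pow_zero]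
    norm_num
    exact ⟨by positivity, by positivity⟩
  | succ k ih =>
    obtain ⟨i1, i2, i3, i4⟩ := ih
    rw [prod_range_succ, prod_range_succ, sum_range_succ, sum_range_succ]
    have hsum : ∑ i ∈ range k, h i * h k = (∑ i ∈ range k, h i) * h k := by rw [sum_mul]
    rw [hsum]
    generalize (∏ i ∈ range k, (1 + h i)) = A at *
    generalize (∏ i ∈ range k, (1 - h i)) = D at *
    generalize (∑ i ∈ range k, h i) = e1 at *
    generalize (∑ j ∈ range k, ∑ i ∈ range j, h i * h j) = e2 at *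
    have hk := hh k
    generalize h k = g at *
    have h2k : (1 : ℝ) ≤ 2 ^ k := one_le_pow₀ (by norm_num)
    have h4k : (4 : ℝ) ^ k = 2 ^ k * 2 ^ k := by rw [← mul_pow]; norm_num
    have hη2 : η ^ 2 ≤ 1 := pow_le_one₀ hη0 hη1
    have p2 : (2 : ℝ) ^ (k + 1) = 2 * 2 ^ k := by ring
    have p4 : (4 : ℝ) ^ (k + 1) = 4 * 4 ^ k := by ring
    rw [p2, p4]
    generalize (2 : ℝ) ^ k = T at *
    refine ⟨?_, ?_, ?_, ?_⟩
    · calc |A * (1 + g) + D * (1 - g) - 2| = |(A + D - 2) + g * (A - D)| := by ring_nf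
        _ ≤ |A + D - 2| + |g| * |A - D| := by
          rw [← abs_mul]; exact abs_add_le _ _
        _ ≤ 2 * (T - 1) * η ^ 2 + η * (2 * (T - 1) * η) := by
          gcongr
        _ ≤ 2 * (2 * T - 1) * η ^ 2 := by nlinarith [sq_nonneg η]
    · calc |A * (1 + g) - D * (1 - g)| = |(A - D) + (2 * g + g * (A + D - 2))| := by ring_nf
        _ ≤ |A - D| + |2 * g + g * (A + D - 2)| := abs_add_le _ _
        _ ≤ |A - D| + (|2 * g| + |g * (A + D - 2)|) := by gcongr; exact abs_add_le _ _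
        _ = |A - D| + (2 * |g| + |g| * |A + D - 2|) := by
          rw [abs_mul, abs_mul]; norm_num
        _ ≤ 2 * (T - 1) * η + (2 * η + η * (2 * (T - 1) * η ^ 2)) := by gcongr
        _ ≤ 2 * (T - 1) * η + (2 * η + η * (2 * (T - 1) * 1)) := by
          have : 0 ≤ 2 * (T - 1) := by linarith
          gcongr
        _ = 2 * (2 * T - 1) * η := by ring
    · calc |A * (1 + g) - D * (1 - g) - 2 * (e1 + g)| =
          |(A - D - 2 * e1) + g * (A + D - 2)| := by ring_nf
        _ ≤ |A - D - 2 * e1| + |g| * |A + D - 2| := by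
          rw [← abs_mul]; exact abs_add_le _ _
        _ ≤ 4 ^ k * η ^ 3 + η * (2 * (T - 1) * η ^ 2) := by
          gcongr
        _ ≤ 4 * 4 ^ k * η ^ 3 := by
          rw [h4k]
          have h3 : 0 ≤ η ^ 3 := by positivity
          have h5 : 0 ≤ 3 * (T * T) - 2 * (T - 1) := by nlinarith
          nlinarith [mul_nonneg h5 h3]
    · calc |A * (1 + g) + D * (1 - g) - 2 - 2 * (e2 + e1 * g)| =
          |(A + D - 2 - 2 * e2) + g * (A - D - 2 * e1)| := by ring_nf
        _ ≤ |A + D - 2 - 2 * e2| + |g| * |A - D - 2 * e1| := by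
          rw [← abs_mul]; exact abs_add_le _ _
        _ ≤ 4 ^ k * η ^ 4 + η * (4 ^ k * η ^ 3) := by
          gcongr
        _ ≤ 4 * 4 ^ k * η ^ 4 := by
          have : 0 ≤ (4 : ℝ) ^ k * η ^ 4 := by positivity
          nlinarith

/-- the perturbation direction -/
noncomputable def g0 (q s m : ℕ) (B : ℝ) (x : ℕ) : ℝ :=
  -(if x ∈ X s then 1 else 0) + B * (if x ∈ Y q m s then 1 else 0) -
    B * (if x ∈ Z q m s then 1 else 0)

lemma abs_g0_le (q s m : ℕ) {B : ℝ} (hB : 0 ≤ B) (x : ℕ) : |g0 q s m B x| ≤ 1 + B := by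
  unfold g0
  rw [abs_le]
  split_ifs <;> constructor <;> linarith

lemma ind_sum (q n : ℕ) (U V : Finset ℕ) (i j : ℕ) :
    ∑ x ∈ P q n, (if x.1 + i * x.2 ∈ U then (1 : ℝ) else 0) *
      (if x.1 + j * x.2 ∈ V then 1 else 0) = N q n U V i j := by
  unfold N
  rw [card_filter]
  push_cast
  apply sum_congr rfl
  intro x _
  by_cases h1 : x.1 + i * x.2 ∈ U <;> by_cases h2 : x.1 + j * x.2 ∈ V <;> simp [h1, h2]

variable {q n s m ρ : ℕ}

lemma pair_eq (q n s m : ℕ) (B : ℝ) (i j : ℕ) :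
    ∑ x ∈ P q n, g0 q s m B (x.1 + i * x.2) * g0 q s m B (x.1 + j * x.2) =
      N q n (X s) (X s) i j
      - B * (N q n (X s) (Y q m s) i j - N q n (X s) (Z q m s) i j
        + N q n (Y q m s) (X s) i j - N q n (Z q m s) (X s) i j)
      + B ^ 2 * (N q n (Y q m s) (Y q m s) i j + N q n (Z q m s) (Z q m s) i j
        - N q n (Y q m s) (Z q m s) i j - N q n (Z q m s) (Y q m s) i j) := by
  simp only [← ind_sum]
  simp only [← sum_add_distrib, ← sum_sub_distrib, mul_sum]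
  apply sum_congr rfl
  intro x _
  unfold g0
  ring

lemma pair_le (h : Good q n s m ρ) {B : ℝ} (hB : 0 ≤ B) {w : ℕ} (hw : s = q * w)
    (hdiv : ∀ D, 1 ≤ D → D ≤ q + 1 → D ∣ 2 * s) {i j : ℕ} (hij : i < j) (hj : j ≤ q + 1) :
    ∑ x ∈ P q n, g0 q s m B (x.1 + i * x.2) * g0 q s m B (x.1 + j * x.2) ≤
      (s : ℝ) * s - (if i = 0 ∧ j = q then B * (s * w) else 0) := by
  rw [pair_eq, N_YX h hij, N_ZX h hij, N_ZY h hij]
  have h1 : (N q n (X s) (X s) i j : ℝ) ≤ s * s := by exact_mod_cast N_XX_le hij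
  have h2 : (N q n (Y q m s) (Y q m s) i j : ℝ) + N q n (Z q m s) (Z q m s) i j ≤
      N q n (Y q m s) (Z q m s) i j := by
    exact_mod_cast N_YZ h hij hj (hdiv _ (by omega) (by omega))
  have h3 : B ^ 2 * ((N q n (Y q m s) (Y q m s) i j : ℝ) + N q n (Z q m s) (Z q m s) i j
        - N q n (Y q m s) (Z q m s) i j - (0 : ℕ)) ≤ 0 := by
    apply mul_nonpos_of_nonneg_of_nonpos (by positivity)
    push_cast
    linarith
  have h4 : (if i = 0 ∧ j = q then B * ((s : ℝ) * w) else 0) ≤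
      B * ((N q n (X s) (Y q m s) i j : ℝ) - N q n (X s) (Z q m s) i j + (0 : ℕ) - (0 : ℕ)) := by
    by_cases hc : 1 ≤ i ∨ j ≤ q
    · rw [N_XZ_zero h hij hj hc]
      split_ifs with hc2
      · obtain ⟨rfl, rfl⟩ := hc2
        apply mul_le_mul_of_nonneg_left _ hB
        have := N_XY_ge h hw
        have : ((s * w : ℕ) : ℝ) ≤ N j n (X s) (Y j m s) 0 j := by exact_mod_cast this
        push_cast at this ⊢
        linarith
      · apply mul_nonneg hB
        push_cast
        have : (0 : ℝ) ≤ N q n (X s) (Y q m s) i j := Nat.cast_nonneg _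
        linarith
    · push Not at hc
      have hi : i = 0 := by omega
      have hj : j = q + 1 := by omega
      subst hi hj
      rw [if_neg (by omega)]
      apply mul_nonneg hB
      have := N_XZ_le h (hdiv (q + 1) (by omega) (by omega))
      have : (N q n (X s) (Z q m s) 0 (q + 1) : ℝ) ≤ N q n (X s) (Y q m s) 0 (q + 1) := by
        exact_mod_cast this
      push_cast
      linarith
  linarith

lemma total_le (h : Good q n s m ρ) {B : ℝ} (hB : 0 ≤ B) {w : ℕ} (hw : s = q * w)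
    (hdiv : ∀ D, 1 ≤ D → D ≤ q + 1 → D ∣ 2 * s) :
    ∑ x ∈ P q n, ∑ j ∈ range (q + 2), ∑ i ∈ range j,
      g0 q s m B (x.1 + i * x.2) * g0 q s m B (x.1 + j * x.2) ≤
      ((q : ℝ) + 2) ^ 2 * ((s : ℝ) * s) - B * (s * w) := by
  have hq := h.hq
  rw [sum_comm]
  have h1 : ∀ j ∈ range (q + 2), ∑ x ∈ P q n, ∑ i ∈ range j,
      g0 q s m B (x.1 + i * x.2) * g0 q s m B (x.1 + j * x.2) ≤
      (∑ i ∈ range j, (s : ℝ) * s) -
        ∑ i ∈ range j, (if i = 0 ∧ j = q then B * ((s : ℝ) * w) else 0) := by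
    intro j hj
    rw [sum_comm, ← sum_sub_distrib]
    apply sum_le_sum
    intro i hi
    exact pair_le h hB hw hdiv (mem_range.mp hi) (by have := mem_range.mp hj; omega)
  refine (sum_le_sum h1).trans ?_
  rw [sum_sub_distrib]
  have h2 : ∑ j ∈ range (q + 2), ∑ i ∈ range j, (s : ℝ) * s ≤
      ((q : ℝ) + 2) ^ 2 * ((s : ℝ) * s) := by
    calc _ ≤ ∑ j ∈ range (q + 2), ((q : ℝ) + 2) * ((s : ℝ) * s) := by
          apply sum_le_sum
          intro j hj
          rw [sum_const, card_range, nsmul_eq_mul]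
          have : (j : ℝ) ≤ (q : ℝ) + 2 := by
            have := mem_range.mp hj
            exact_mod_cast this.le
          gcongr
      _ = _ := by
          rw [sum_const, card_range, nsmul_eq_mul]
          push_cast
          ring
  have h3 : B * ((s : ℝ) * w) ≤ ∑ j ∈ range (q + 2),
      ∑ i ∈ range j, (if i = 0 ∧ j = q then B * ((s : ℝ) * w) else 0) := by
    have hnn : 0 ≤ B * ((s : ℝ) * w) := by positivity
    have hi0 : ∀ j, ∀ i ∈ range j, 0 ≤ (if i = 0 ∧ j = q then B * ((s : ℝ) * w) else 0) := by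
      intro j i _
      split_ifs
      · exact hnn
      · exact le_rfl
    calc B * ((s : ℝ) * w) = (if 0 = 0 ∧ q = q then B * ((s : ℝ) * w) else 0) := by simp
      _ ≤ ∑ i ∈ range q, (if i = 0 ∧ q = q then B * ((s : ℝ) * w) else 0) :=
        single_le_sum (f := fun i => if i = 0 ∧ q = q then B * ((s : ℝ) * w) else 0)
          (hi0 q) (mem_range.mpr hq)
      _ ≤ _ := single_le_sum (f := fun j => ∑ i ∈ range j,
          (if i = 0 ∧ j = q then B * ((s : ℝ) * w) else 0))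
          (fun j _ => sum_nonneg (hi0 j)) (mem_range.mpr (by omega))
  linarith

/-- signs of the colours -/
noncomputable def σ (p : ℕ) : Fin (p + 2) → ℝ := Fin.cons 1 (Fin.cons (-1) (fun _ => 0))

/-- the fractional colouring -/
noncomputable def wt (p : ℕ) (h : ℕ → ℝ) : ℕ → Fin (p + 2) → ℝ :=
  fun y c => (1 + h y * σ p c) / (p + 2)

lemma wt_sum (p : ℕ) (h : ℕ → ℝ) (y : ℕ) : ∑ c, wt p h y c = 1 := by
  unfold wt σ
  rw [← sum_div, Fin.sum_univ_succ, Fin.sum_univ_succ]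
  simp only [Fin.cons_zero, Fin.cons_succ, mul_zero, add_zero, sum_const, card_univ,
    Fintype.card_fin, nsmul_eq_mul]
  have : (p : ℝ) + 2 ≠ 0 := by positivity
  field_simp
  ring

lemma wt_nonneg (p : ℕ) {h : ℕ → ℝ} (hh : ∀ y, |h y| ≤ 1) (y : ℕ) (c : Fin (p + 2)) :
    0 ≤ wt p h y c := by
  unfold wt σ
  apply div_nonneg _ (by positivity)
  have := abs_le.mp (hh y)
  refine Fin.cases ?_ (fun c => Fin.cases ?_ (fun c => ?_) c) c
  · simp only [Fin.cons_zero]; linarith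
  · simp only [Fin.cons_succ, Fin.cons_zero]; linarith
  · simp only [Fin.cons_succ]; linarith

lemma wt_prod (p : ℕ) (h : ℕ → ℝ) (k : ℕ) (f : ℕ → ℕ) :
    ∑ c, ∏ i ∈ range k, wt p h (f i) c =
      ((∏ i ∈ range k, (1 + h (f i))) + (∏ i ∈ range k, (1 - h (f i))) + p) /
        ((p : ℝ) + 2) ^ k := by
  unfold wt σ
  simp only [prod_div_distrib, prod_const, card_range]
  rw [← sum_div, Fin.sum_univ_succ, Fin.sum_univ_succ]
  simp only [Fin.cons_zero, Fin.cons_succ, mul_zero, add_zero, prod_const_one, sum_const,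
    card_univ, Fintype.card_fin, nsmul_eq_mul, mul_one, mul_neg]
  congr 1
  simp only [← sub_eq_add_neg]
  ring

lemma E_wt_le (p q n : ℕ) {h : ℕ → ℝ} {η : ℝ} (hη0 : 0 ≤ η) (hη1 : η ≤ 1)
    (hh : ∀ y, |h y| ≤ η) :
    E q n (wt p h) ≤ (((p : ℝ) + 2) * (P q n).card +
      2 * ∑ x ∈ P q n, ∑ j ∈ range (q + 2), ∑ i ∈ range j,
        h (x.1 + i * x.2) * h (x.1 + j * x.2) + 4 ^ (q + 2) * η ^ 4 * (P q n).card) /
        ((p : ℝ) + 2) ^ (q + 2) := by
  unfold E
  simp only [wt_prod]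
  rw [← sum_div]
  apply div_le_div_of_nonneg_right _ (by positivity)
  calc _ ≤ ∑ x ∈ P q n, (((p : ℝ) + 2) + 2 * (∑ j ∈ range (q + 2), ∑ i ∈ range j,
        h (x.1 + i * x.2) * h (x.1 + j * x.2)) + 4 ^ (q + 2) * η ^ 4) := by
        apply sum_le_sum
        intro x _
        have := (expand (fun i => h (x.1 + i * x.2)) hη0 hη1 (fun i => hh _) (q + 2)).2.2.2
        have := (abs_le.mp this).2
        linarith
    _ = _ := by
        rw [sum_add_distrib, sum_add_distrib, sum_const, sum_const, ← mul_sum]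
        simp only [nsmul_eq_mul]
        ring

end Pool.Agent.Q296.ApBeat
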