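import Mathlib

/-!
# Counting progressions with two marked terms in prescribed intervals
-/

namespace Pool.Agent.Q296.ApCount

open Finset

/-- pairs `(a, d)` giving `(q+2)`-term progressions in `[n]` -/
def P (q n : ℕ) : Finset (ℕ × ℕ) :=
  ((Icc 1 n) ×ˢ (Icc 1 n)).filter (fun x => x.1 + (q + 1) * x.2 ≤ n)

lemma mem_P {q n a d : ℕ} : (a, d) ∈ P q n ↔ 1 ≤ a ∧ 1 ≤ d ∧ a + (q + 1) * d ≤ n := by
  simp only [P, mem_filter, mem_product, mem_Icc]
  constructor
  · rintro ⟨⟨⟨h1, _⟩, h3, _⟩, h5⟩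
    exact ⟨h1, h3, h5⟩
  · rintro ⟨h1, h2, h3⟩
    have : d ≤ (q + 1) * d := Nat.le_mul_of_pos_left _ (by omega)
    exact ⟨⟨⟨h1, by omega⟩, h2, by omega⟩, h3⟩

/-- number of progressions with `i`-th term in `U` and `j`-th term in `V` -/
def N (q n : ℕ) (U V : Finset ℕ) (i j : ℕ) : ℕ :=
  ((P q n).filter (fun x => x.1 + i * x.2 ∈ U ∧ x.1 + j * x.2 ∈ V)).card

variable {q n s m ρ : ℕ}

/-- the three intervals -/
def X (s : ℕ) : Finset ℕ := Ico 1 (s + 1)
def Y (q m s : ℕ) : Finset ℕ := Ico (q * m - s) (q * m)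
def Z (q m s : ℕ) : Finset ℕ := Ico (q * m + s) (q * m + 2 * s)

lemma N_XX_le {i j : ℕ} (hij : i < j) : N q n (X s) (X s) i j ≤ s * s := by
  unfold N
  calc _ ≤ ((X s) ×ˢ (X s)).card := by
        apply card_le_card_of_injOn (fun x : ℕ × ℕ => (x.1 + i * x.2, x.1 + j * x.2))
        · rintro ⟨a, d⟩ h
          simp only [coe_filter, Set.mem_ofPred_eq] at h
          simp only [coe_product, Set.mem_prod, mem_coe]
          exact h.2
        · rintro ⟨a, d⟩ h ⟨a', d'⟩ h' heq
          simp only [Prod.mk.injEq] at heq ⊢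
          obtain ⟨h1, h2⟩ := heq
          obtain ⟨t, rfl⟩ : ∃ t, j = i + t := ⟨j - i, by omega⟩
          have h3 : t * d = t * d' := by nlinarith
          have h4 : d = d' := Nat.eq_of_mul_eq_mul_left (by omega) h3
          subst h4
          exact ⟨by omega, rfl⟩
    _ = s * s := by simp [X]

/-- standing assumptions: `n = (q+1) m + ρ`, `ρ ≤ q`, `q + 1 ≤ s`, `s` small -/
structure Good (q n s m ρ : ℕ) : Prop where
  hq : 1 ≤ q
  hn : n = (q + 1) * m + ρ
  hρ : ρ ≤ q
  hs : q + 1 ≤ s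
  hm : (4 * q + 12) * s ≤ m

lemma Good.m_le (h : Good q n s m ρ) : m ≤ q * m := Nat.le_mul_of_pos_left _ h.hq

lemma Good.n_eq (h : Good q n s m ρ) : n = q * m + m + ρ := by rw [h.hn]; ring

lemma Good.small (h : Good q n s m ρ) : 4 * (q * s) + 12 * s ≤ m := by
  have := h.hm
  calc 4 * (q * s) + 12 * s = (4 * q + 12) * s := by ring
    _ ≤ m := this

lemma d_le_m (h : Good q n s m ρ) {a d : ℕ} (hP : (a, d) ∈ P q n) : d ≤ m := by
  obtain ⟨h1, h2, h3⟩ := mem_P.mp hP
  by_contra hc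
  push Not at hc
  have h4 : (q + 1) * (m + 1) ≤ (q + 1) * d := Nat.mul_le_mul_left _ hc
  have h5 := h.hn
  have h6 := h.hρ
  have h7 : (q + 1) * (m + 1) = (q + 1) * m + (q + 1) := by ring
  omega

lemma N_YX (h : Good q n s m ρ) {i j : ℕ} (hij : i < j) : N q n (Y q m s) (X s) i j = 0 := by
  unfold N
  rw [card_eq_zero, filter_eq_empty_iff]
  rintro ⟨a, d⟩ hP ⟨h1, h2⟩
  simp only [Y, X, mem_Ico] at h1 h2
  have h3 : i * d ≤ j * d := Nat.mul_le_mul_right _ hij.le
  have := h.small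
  have := h.m_le
  omega

lemma N_ZX (h : Good q n s m ρ) {i j : ℕ} (hij : i < j) : N q n (Z q m s) (X s) i j = 0 := by
  unfold N
  rw [card_eq_zero, filter_eq_empty_iff]
  rintro ⟨a, d⟩ hP ⟨h1, h2⟩
  simp only [Z, X, mem_Ico] at h1 h2
  have h3 : i * d ≤ j * d := Nat.mul_le_mul_right _ hij.le
  have := h.small
  have := h.m_le
  omega

lemma N_ZY (h : Good q n s m ρ) {i j : ℕ} (hij : i < j) : N q n (Z q m s) (Y q m s) i j = 0 := by
  unfold N
  rw [card_eq_zero, filter_eq_empty_iff]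
  rintro ⟨a, d⟩ hP ⟨h1, h2⟩
  simp only [Z, Y, mem_Ico] at h1 h2
  have h3 : i * d ≤ j * d := Nat.mul_le_mul_right _ hij.le
  omega

/-- progressions starting in `X` rarely hit `Z` -/
lemma N_XZ_zero (h : Good q n s m ρ) {i j : ℕ} (hij : i < j) (hj : j ≤ q + 1)
    (hcase : 1 ≤ i ∨ j ≤ q) : N q n (X s) (Z q m s) i j = 0 := by
  unfold N
  rw [card_eq_zero, filter_eq_empty_iff]
  rintro ⟨a, d⟩ hP ⟨h1, h2⟩
  simp only [Z, X, mem_Ico] at h1 h2
  have hd := d_le_m h hP
  obtain ⟨hP1, hP2, hP3⟩ := mem_P.mp hP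
  have hsm := h.small
  have hml := h.m_le
  rcases hcase with hi | hj'
  · -- d ≤ s
    have h4 : d ≤ i * d := Nat.le_mul_of_pos_left _ hi
    have h5 : d ≤ s := by omega
    have h6 : j * d ≤ (q + 1) * s := Nat.mul_le_mul hj h5
    have h7 : (q + 1) * s = q * s + s := by ring
    omega
  · have h4 : j * d ≤ q * d := Nat.mul_le_mul_right _ hj'
    have h5 : q * d ≤ q * m := Nat.mul_le_mul_left _ hd
    have h6 : a = s ∧ q * d = q * m := by
      have : 0 ≤ i * d := Nat.zero_le _
      omega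
    have h7 : d = m := Nat.eq_of_mul_eq_mul_left (by have := h.hq; omega) h6.2
    subst h7
    have := h.hn
    have := h.hρ
    have := h.hs
    omega

/-- last term: `Z` is a translate of `Y` -/
lemma N_XZ_le (h : Good q n s m ρ) (hdiv : (q + 1) ∣ 2 * s) :
    N q n (X s) (Z q m s) 0 (q + 1) ≤ N q n (X s) (Y q m s) 0 (q + 1) := by
  obtain ⟨E, hE⟩ := hdiv
  unfold N
  apply card_le_card_of_injOn (fun x : ℕ × ℕ => (x.1, x.2 - E))
  · rintro ⟨a, d⟩ hx
    simp only [coe_filter, Set.mem_ofPred_eq, X, Y, Z, mem_Ico, zero_mul, add_zero] at hx ⊢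
    obtain ⟨hP, h1, h2⟩ := hx
    obtain ⟨hP1, hP2, hP3⟩ := mem_P.mp hP
    have hsm := h.small
    have hml := h.m_le
    have hdE : E < d := by
      by_contra hc
      push Not at hc
      have : (q + 1) * d ≤ (q + 1) * E := Nat.mul_le_mul_left _ hc
      omega
    obtain ⟨f, rfl⟩ : ∃ f, d = f + E := ⟨d - E, by omega⟩
    have h3 : (q + 1) * (f + E) = (q + 1) * f + 2 * s := by rw [hE]; ring
    rw [Nat.add_sub_cancel]
    refine ⟨mem_P.mpr ⟨hP1, by omega, by omega⟩, h1, by omega, by omega⟩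
  · rintro ⟨a, d⟩ hx ⟨a', d'⟩ hx' heq
    simp only [coe_filter, Set.mem_ofPred_eq, X, Y, Z, mem_Ico, zero_mul, add_zero] at hx hx'
    simp only [Prod.mk.injEq] at heq ⊢
    have key : ∀ a d : ℕ, q * m + s ≤ a + (q + 1) * d → a < s + 1 → E < d := by
      intro a d h1 h2
      by_contra hc
      push Not at hc
      have : (q + 1) * d ≤ (q + 1) * E := Nat.mul_le_mul_left _ hc
      have hsm := h.small
      have hml := h.m_le
      omega
    have k1 := key a d hx.2.2.1 hx.2.1.2
    have k2 := key a' d' hx'.2.2.1 hx'.2.1.2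
    omega

/-- many progressions start in `X` and have their last-but-one term in `Y` -/
lemma N_XY_ge (h : Good q n s m ρ) {w : ℕ} (hw : s = q * w) :
    s * w ≤ N q n (X s) (Y q m s) 0 q := by
  have hq := h.hq
  calc s * w = ((X s) ×ˢ (range w)).card := by simp [X]
    _ ≤ _ := by
      unfold N
      apply card_le_card_of_injOn (fun x : ℕ × ℕ => (x.1, m - 1 - x.1 / q - x.2))
      · rintro ⟨a, t⟩ hx
        simp only [coe_product, Set.mem_prod, mem_coe, X, mem_Ico, mem_range] at hx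
        obtain ⟨⟨h1, h2⟩, h3⟩ := hx
        have hsm := h.small
        have hml := h.m_le
        have hws : w ≤ s := by rw [hw]; exact Nat.le_mul_of_pos_left _ hq
        have hdiv1 : a / q ≤ a := Nat.div_le_self _ _
        obtain ⟨d, hd⟩ : ∃ d, m = d + 1 + a / q + t := ⟨m - 1 - a / q - t, by omega⟩
        have hd' : m - 1 - a / q - t = d := by omega
        have hmod := Nat.div_add_mod a q
        have hlt := Nat.mod_lt a hq
        have e1 : q * m = q * d + q + q * (a / q) + q * t := by rw [hd]; ring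
        have e2 : q * t + q ≤ s := by
          rw [hw]
          calc q * t + q = q * (t + 1) := by ring
            _ ≤ q * w := Nat.mul_le_mul_left _ h3
        have e3 := h.n_eq
        simp only [coe_filter, Set.mem_ofPred_eq, X, Y, mem_Ico, zero_mul, add_zero, hd']
        have e4 : (q + 1) * d = q * d + d := by ring
        have e5 : q * (a / q) ≤ a := Nat.mul_div_le a q
        generalize a / q = c at *
        generalize a % q = c' at *
        have e6 : q * c ≤ s := by omega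
        refine ⟨mem_P.mpr ⟨h1, by omega, by omega⟩, ⟨h1, h2⟩, by omega, by omega⟩
      · rintro ⟨a, t⟩ hx ⟨a', t'⟩ hx' heq
        simp only [coe_product, Set.mem_prod, mem_coe, X, mem_Ico, mem_range] at hx hx'
        simp only [Prod.mk.injEq] at heq ⊢
        obtain ⟨h1, h2⟩ := heq
        subst h1
        have hsm := h.small
        have hws : w ≤ s := by rw [hw]; exact Nat.le_mul_of_pos_left _ hq
        have hdiv1 : a / q ≤ a := Nat.div_le_self _ _
        omega

/-- pairs inside `Y` and inside `Z` are compensated by pairs in `Y × Z` -/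
lemma N_YZ (h : Good q n s m ρ) {i j : ℕ} (hij : i < j) (hj : j ≤ q + 1)
    (hdiv : (j - i) ∣ 2 * s) :
    N q n (Y q m s) (Y q m s) i j + N q n (Z q m s) (Z q m s) i j ≤
      N q n (Y q m s) (Z q m s) i j := by
  obtain ⟨E, hE⟩ := hdiv
  obtain ⟨D, rfl⟩ : ∃ D, j = i + D := ⟨j - i, by omega⟩
  rw [Nat.add_sub_cancel_left] at hE
  have hD : 1 ≤ D := by omega
  have hsm := h.small
  have hml := h.m_le
  have hneq := h.n_eq
  have hE2 : E ≤ 2 * s := by rw [hE]; exact Nat.le_mul_of_pos_left _ hD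
  have hiE : i * E ≤ (q + 1) * (2 * s) := Nat.mul_le_mul (by omega) hE2
  have hqs : (q + 1) * (2 * s) = 2 * (q * s) + 2 * s := by ring
  have hbound : ∀ d, d ≤ s → i * d ≤ q * s + s := by
    intro d hd
    calc i * d ≤ (q + 1) * s := Nat.mul_le_mul (by omega) hd
      _ = q * s + s := by ring
  have hqE : (q + 1) * E ≤ 2 * (q * s) + 2 * s := by
    rw [← hqs]; exact Nat.mul_le_mul_left _ hE2
  have hqd : ∀ d, d ≤ s → (q + 1) * d ≤ q * s + s := by
    intro d hd
    calc (q + 1) * d ≤ (q + 1) * s := Nat.mul_le_mul_left _ hd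
      _ = q * s + s := by ring
  have hdl : ∀ a d c : ℕ, c ≤ a + i * d → a + (i + D) * d < c + s → d ≤ s := by
    intro a d c h1 h2
    have h3 : (i + D) * d = i * d + D * d := by ring
    have h4 : d ≤ D * d := Nat.le_mul_of_pos_left _ hD
    omega
  -- two injections with disjoint images
  have himg1 : ((P q n).filter (fun x => x.1 + i * x.2 ∈ Y q m s ∧
      x.1 + (i + D) * x.2 ∈ Y q m s)).image (fun x : ℕ × ℕ => (x.1 - i * E, x.2 + E)) ⊆
      (P q n).filter (fun x => x.1 + i * x.2 ∈ Y q m s ∧ x.1 + (i + D) * x.2 ∈ Z q m s ∧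
        E < x.2) := by
    intro x hx
    rw [mem_image] at hx
    obtain ⟨⟨a, d⟩, hx, rfl⟩ := hx
    simp only [mem_filter, Y, Z, mem_Ico] at hx ⊢
    obtain ⟨hP, ⟨h1, h2⟩, h3, h4⟩ := hx
    obtain ⟨hP1, hP2, hP3⟩ := mem_P.mp hP
    have hds : d ≤ s := hdl a d (q * m - s) h1 (by omega)
    have b1 := hbound d hds
    have b2 := hqd d hds
    obtain ⟨a', ha'⟩ : ∃ a', a = a' + i * E := ⟨a - i * E, by omega⟩
    have e1 : a - i * E = a' := by omega
    rw [e1]
    have e2 : i * (d + E) = i * d + i * E := by ring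
    have e3 : (i + D) * (d + E) = (i + D) * d + i * E + 2 * s := by rw [hE]; ring
    have e4 : (q + 1) * (d + E) = (q + 1) * d + (q + 1) * E := by ring
    have e5 : (i + D) * d = i * d + D * d := by ring
    refine ⟨mem_P.mpr ⟨by omega, by omega, by omega⟩, ⟨by omega, by omega⟩,
      ⟨by omega, by omega⟩, by omega⟩
  have himg2 : ((P q n).filter (fun x => x.1 + i * x.2 ∈ Z q m s ∧
      x.1 + (i + D) * x.2 ∈ Z q m s)).image
        (fun x : ℕ × ℕ => (x.1 + (i + D) * x.2 - 2 * s - i * (E - x.2), E - x.2)) ⊆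
      (P q n).filter (fun x => x.1 + i * x.2 ∈ Y q m s ∧ x.1 + (i + D) * x.2 ∈ Z q m s ∧
        ¬ E < x.2) := by
    intro x hx
    rw [mem_image] at hx
    obtain ⟨⟨a, d⟩, hx, rfl⟩ := hx
    simp only [mem_filter, Y, Z, mem_Ico] at hx ⊢
    obtain ⟨hP, ⟨h1, h2⟩, h3, h4⟩ := hx
    obtain ⟨hP1, hP2, hP3⟩ := mem_P.mp hP
    have hds : d ≤ s := hdl a d (q * m + s) h1 (by omega)
    have hdE : d < E := by
      by_contra hc
      push Not at hc
      have h5 : D * E ≤ D * d := Nat.mul_le_mul_left _ hc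
      have h6 : (i + D) * d = i * d + D * d := by ring
      omega
    obtain ⟨f, hf⟩ : ∃ f, E = d + f := ⟨E - d, by omega⟩
    have e0 : E - d = f := by omega
    rw [e0]
    have hif : i * f ≤ 2 * (q * s) + 2 * s := by
      rw [← hqs]
      exact Nat.mul_le_mul (by omega) (by omega)
    have hqf : (q + 1) * f ≤ 2 * (q * s) + 2 * s := by
      rw [← hqs]
      exact Nat.mul_le_mul_left _ (by omega)
    obtain ⟨b, hb⟩ : ∃ b, a + (i + D) * d = b + 2 * s + i * f := ⟨a + (i + D) * d - 2 * s - i * f,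
      by omega⟩
    have e1 : a + (i + D) * d - 2 * s - i * f = b := by omega
    rw [e1]
    have e2 : D * f + D * d = 2 * s := by rw [hE, hf]; ring
    have e3 : (i + D) * f = i * f + D * f := by ring
    have e4 : (i + D) * d = i * d + D * d := by ring
    refine ⟨mem_P.mpr ⟨by omega, by omega, by omega⟩, ⟨by omega, by omega⟩,
      ⟨by omega, by omega⟩, by omega⟩
  have hinj1 : Set.InjOn (fun x : ℕ × ℕ => (x.1 - i * E, x.2 + E))
      (((P q n).filter (fun x => x.1 + i * x.2 ∈ Y q m s ∧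
      x.1 + (i + D) * x.2 ∈ Y q m s) : Finset (ℕ × ℕ)) : Set (ℕ × ℕ)) := by
    rintro ⟨a, d⟩ hx ⟨a', d'⟩ hx' heq
    simp only [coe_filter, Set.mem_ofPred_eq, Y, mem_Ico] at hx hx'
    simp only [Prod.mk.injEq] at heq ⊢
    have g1 : i * E ≤ a := by
      have hds : d ≤ s := hdl a d (q * m - s) hx.2.1.1 (by omega)
      have b1 := hbound d hds
      omega
    have g2 : i * E ≤ a' := by
      have hds : d' ≤ s := hdl a' d' (q * m - s) hx'.2.1.1 (by omega)
      have b1 := hbound d' hds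
      omega
    omega
  have hinj2 : Set.InjOn
      (fun x : ℕ × ℕ => (x.1 + (i + D) * x.2 - 2 * s - i * (E - x.2), E - x.2))
      (((P q n).filter (fun x => x.1 + i * x.2 ∈ Z q m s ∧
      x.1 + (i + D) * x.2 ∈ Z q m s) : Finset (ℕ × ℕ)) : Set (ℕ × ℕ)) := by
    rintro ⟨a, d⟩ hx ⟨a', d'⟩ hx' heq
    simp only [coe_filter, Set.mem_ofPred_eq, Z, mem_Ico] at hx hx'
    simp only [Prod.mk.injEq] at heq ⊢
    have key : ∀ a d : ℕ, q * m + s ≤ a + i * d → a + (i + D) * d < q * m + 2 * s → d < E := by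
      intro a d h1 h2
      by_contra hc
      push Not at hc
      have h5 : D * E ≤ D * d := Nat.mul_le_mul_left _ hc
      have h6 : (i + D) * d = i * d + D * d := by ring
      omega
    have k1 := key a d hx.2.1.1 hx.2.2.2
    have k2 := key a' d' hx'.2.1.1 hx'.2.2.2
    have h7 : d = d' := by omega
    subst h7
    have hif : i * (E - d) ≤ 2 * (q * s) + 2 * s := by
      rw [← hqs]
      exact Nat.mul_le_mul (by omega) (by omega)
    refine ⟨?_, rfl⟩
    have := heq.1
    omega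
  unfold N
  have c1 := card_le_card himg1
  have c2 := card_le_card himg2
  rw [card_image_of_injOn hinj1] at c1
  rw [card_image_of_injOn hinj2] at c2
  refine (Nat.add_le_add c1 c2).trans (le_of_eq ?_)
  rw [← card_filter_add_card_filter_not (s := (P q n).filter (fun x => x.1 + i * x.2 ∈ Y q m s ∧
    x.1 + (i + D) * x.2 ∈ Z q m s)) (fun x => E < x.2)]
  congr 2 <;>
  · ext x
    simp only [mem_filter]
    tauto

end Pool.Agent.Q296.ApCount
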