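import Mathlib

/-!
# Signed sums of vectors: a weighted average bound

For vectors `a i` and reals `c i`, the average of `(‖∑ ± a i‖² - θ) (∑ ± c i)²` over all signs is
computed, and a sign vector at which this is at most the average is found greedily.
-/

set_option autoImplicit false

open Finset

namespace Pool.Agent.Q296.Balance

/-- the sign of a Boolean -/
def sg (b : Bool) : ℝ := if b then 1 else -1

lemma sg_or (b : Bool) : sg b = 1 ∨ sg b = -1 := by cases b <;> simp [sg]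

variable {E : Type*} [NormedAddCommGroup E] [InnerProductSpace ℝ E]
variable {ι : Type*} [DecidableEq ι]

/-- The average over all signs on `s`. -/
noncomputable def avg (a : ι → E) (c : ι → ℝ) (θ : ℝ) (s : Finset ι) (u : E) (t : ℝ) : ℝ :=
  (‖u‖ ^ 2 + ∑ i ∈ s, ‖a i‖ ^ 2) * (t ^ 2 + ∑ i ∈ s, c i ^ 2)
    + 4 * t * inner ℝ u (∑ i ∈ s, c i • a i)
    + 2 * (‖∑ i ∈ s, c i • a i‖ ^ 2 - ∑ i ∈ s, c i ^ 2 * ‖a i‖ ^ 2)
    - θ * (t ^ 2 + ∑ i ∈ s, c i ^ 2)

lemma avg_insert (a : ι → E) (c : ι → ℝ) (θ : ℝ) (s : Finset ι) (b : ι) (hb : b ∉ s) (u : E)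
    (t : ℝ) :
    avg a c θ s (u + a b) (t + c b) + avg a c θ s (u - a b) (t - c b)
      = 2 * avg a c θ (insert b s) u t := by
  unfold avg
  rw [Finset.sum_insert hb, Finset.sum_insert hb, Finset.sum_insert hb, Finset.sum_insert hb]
  set S := ∑ i ∈ s, c i • a i with hS
  rw [norm_add_sq_real u (a b), norm_sub_sq_real u (a b), norm_add_sq_real (c b • a b) S,
    inner_add_left, inner_sub_left, inner_add_right, inner_smul_right, inner_smul_left, norm_smul,
    mul_pow, Real.norm_eq_abs, sq_abs]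
  simp only [conj_trivial]
  ring

lemma core (a : ι → E) (c : ι → ℝ) (θ : ℝ) (s : Finset ι) : ∀ (u : E) (t : ℝ), ∃ e : ι → Bool,
    (‖u + ∑ i ∈ s, sg (e i) • a i‖ ^ 2 - θ) * (t + ∑ i ∈ s, sg (e i) * c i) ^ 2
      ≤ avg a c θ s u t := by
  induction s using Finset.induction_on with
  | empty =>
    intro u t
    refine ⟨fun _ => true, ?_⟩
    unfold avg
    simp
    nlinarith
  | insert b s hb ih =>
    intro u t
    have hid := avg_insert a c θ s b hb u t
    obtain ⟨e1, h1⟩ := ih (u + a b) (t + c b)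
    obtain ⟨e2, h2⟩ := ih (u - a b) (t - c b)
    have hupd : ∀ (e : ι → Bool) (β : Bool),
        (∑ i ∈ insert b s, sg (Function.update e b β i) • a i
          = sg β • a b + ∑ i ∈ s, sg (e i) • a i) ∧
        (∑ i ∈ insert b s, sg (Function.update e b β i) * c i
          = sg β * c b + ∑ i ∈ s, sg (e i) * c i) := by
      intro e β
      constructor
      · rw [Finset.sum_insert hb, Function.update_self]
        congr 1
        refine Finset.sum_congr rfl (fun i hi => ?_)
        rw [Function.update_of_ne (show i ≠ b from fun h => hb (h ▸ hi))]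
      · rw [Finset.sum_insert hb, Function.update_self]
        congr 1
        refine Finset.sum_congr rfl (fun i hi => ?_)
        rw [Function.update_of_ne (show i ≠ b from fun h => hb (h ▸ hi))]
    rcases le_total (avg a c θ s (u + a b) (t + c b)) (avg a c θ s (u - a b) (t - c b)) with h | h
    · refine ⟨Function.update e1 b true, ?_⟩
      rw [(hupd e1 true).1, (hupd e1 true).2]
      have e : sg true = 1 := by simp [sg]
      rw [e, one_smul, one_mul, ← add_assoc, ← add_assoc]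
      linarith
    · refine ⟨Function.update e2 b false, ?_⟩
      rw [(hupd e2 false).1, (hupd e2 false).2]
      have e : sg false = -1 := by simp [sg]
      rw [e, neg_one_smul, neg_one_mul, ← add_assoc, ← add_assoc, ← sub_eq_add_neg,
        ← sub_eq_add_neg]
      linarith

/-- The main bound for arbitrary vectors and weights. -/
theorem exists_signs [Fintype ι] (a : ι → E) (c : ι → ℝ) (hc : c ≠ 0) :
    ∃ e : ι → Bool, ‖∑ i, sg (e i) • a i‖ ^ 2 ≤
      ∑ i, ‖a i‖ ^ 2 + 2 * (‖∑ i, c i • a i‖ ^ 2 - ∑ i, c i ^ 2 * ‖a i‖ ^ 2) / ∑ i, c i ^ 2 := by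
  have hpos : 0 < ∑ i, c i ^ 2 := by
    obtain ⟨j, hj⟩ : ∃ j, c j ≠ 0 := by
      by_contra h
      push Not at h
      exact hc (funext h)
    exact Finset.sum_pos' (fun i _ => sq_nonneg _) ⟨j, Finset.mem_univ j, by positivity⟩
  obtain ⟨e0, he0⟩ := Finite.exists_min (fun e : ι → Bool => ‖∑ i, sg (e i) • a i‖ ^ 2)
  refine ⟨e0, ?_⟩
  by_contra hlt
  push Not at hlt
  set m := ‖∑ i, sg (e0 i) • a i‖ ^ 2 with hm
  obtain ⟨e, he⟩ := core a c m Finset.univ 0 0
  have h1 : avg a c m Finset.univ 0 0 < 0 := by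
    unfold avg
    have h2 : 2 * (‖∑ i, c i • a i‖ ^ 2 - ∑ i, c i ^ 2 * ‖a i‖ ^ 2)
        < (m - ∑ i, ‖a i‖ ^ 2) * ∑ i, c i ^ 2 := by
      have : 2 * (‖∑ i, c i • a i‖ ^ 2 - ∑ i, c i ^ 2 * ‖a i‖ ^ 2) / ∑ i, c i ^ 2
        < m - ∑ i, ‖a i‖ ^ 2 := by linarith
      rwa [div_lt_iff₀ hpos] at this
    simp only [norm_zero, inner_zero_left]
    nlinarith
  have h3 := he0 e
  simp only [zero_add] at he
  have h4 : 0 ≤ (‖∑ i, sg (e i) • a i‖ ^ 2 - m) * (∑ i, sg (e i) * c i) ^ 2 :=
    mul_nonneg (by simpa [hm] using h3) (sq_nonneg _)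
  linarith

/-- Arbitrary vectors of norm one. -/
theorem exists_signs_unit {n : ℕ} (v : Fin n → E) (hv : ∀ i, ‖v i‖ = 1) (c : Fin n → ℝ)
    (hc : c ≠ 0) :
    ∃ η : Fin n → ℝ, (∀ i, η i = 1 ∨ η i = -1) ∧
      ‖∑ i, η i • v i‖ ^ 2 ≤ (n : ℝ) - 2 + 2 * ‖∑ i, c i • v i‖ ^ 2 / ∑ i, c i ^ 2 := by
  obtain ⟨e, he⟩ := exists_signs v c hc
  refine ⟨fun i => sg (e i), fun i => sg_or _, ?_⟩
  have hpos : 0 < ∑ i, c i ^ 2 := by
    obtain ⟨j, hj⟩ : ∃ j, c j ≠ 0 := by
      by_contra h
      push Not at h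
      exact hc (funext h)
    exact Finset.sum_pos' (fun i _ => sq_nonneg _) ⟨j, Finset.mem_univ j, by positivity⟩
  simp only [hv, one_pow, mul_one, Finset.sum_const, Finset.card_univ, Fintype.card_fin,
    nsmul_eq_mul] at he
  have h2 : 2 * (‖∑ i, c i • v i‖ ^ 2 - ∑ i, c i ^ 2) / ∑ i, c i ^ 2
      = 2 * ‖∑ i, c i • v i‖ ^ 2 / ∑ i, c i ^ 2 - 2 := by
    field_simp
  rw [h2] at he
  linarith

lemma sum_ite_compl {M : Type*} [AddCommMonoid M] {n : ℕ} (S : Finset (Fin n)) (g : Fin n → M) :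
    ∑ j, (if j ∈ S then 0 else g j) = ∑ j ∈ Sᶜ, g j := by
  classical
  rw [← Finset.sum_add_sum_compl S]
  have h1 : ∑ j ∈ S, (if j ∈ S then 0 else g j) = 0 :=
    Finset.sum_eq_zero (fun j hj => by simp [hj])
  have h2 : ∑ j ∈ Sᶜ, (if j ∈ S then 0 else g j) = ∑ j ∈ Sᶜ, g j :=
    Finset.sum_congr rfl (fun j hj => by
      rw [Finset.mem_compl] at hj
      simp [hj])
  rw [h1, h2, zero_add]

/-- The version with a fixed part. -/
theorem exists_signs_offset {n : ℕ} (v : Fin n → E) (hv : ∀ i, ‖v i‖ = 1) (S : Finset (Fin n))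
    (ε : Fin n → ℝ) (x : Fin n → ℝ) (hε : ∀ i, ε i = 1 ∨ ε i = -1)
    (hw : ∑ i ∈ S, ε i • v i = -∑ j ∈ Sᶜ, x j • v j) :
    ∃ η : Fin n → ℝ, (∀ i, η i = 1 ∨ η i = -1) ∧ (∀ i ∈ S, η i = ε i) ∧
      ‖∑ i, η i • v i‖ ^ 2 ≤ (Sᶜ.card : ℝ) - 1 +
        (1 - ‖∑ i ∈ S, ε i • v i‖ ^ 2) * (1 - ∑ j ∈ Sᶜ, x j ^ 2) / (1 + ∑ j ∈ Sᶜ, x j ^ 2) := by
  classical
  set w := ∑ i ∈ S, ε i • v i with hwdef
  set X := ∑ j ∈ Sᶜ, x j ^ 2 with hX
  have hX0 : 0 ≤ X := Finset.sum_nonneg (fun i _ => sq_nonneg _)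
  let a : Option (Fin n) → E := fun o => o.elim w (fun j => if j ∈ S then 0 else v j)
  let c : Option (Fin n) → ℝ := fun o => o.elim 1 (fun j => if j ∈ S then 0 else x j)
  have hc : c ≠ 0 := by
    intro h
    have := congrFun h none
    simp [c] at this
  obtain ⟨e, he⟩ := exists_signs a c hc
  have hA : ∑ o, ‖a o‖ ^ 2 = ‖w‖ ^ 2 + (Sᶜ.card : ℝ) := by
    rw [Fintype.sum_option]
    have h1 : ∑ j, ‖a (some j)‖ ^ 2 = ∑ j, (if j ∈ S then (0 : ℝ) else 1) := by
      refine Finset.sum_congr rfl (fun j _ => ?_)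
      by_cases hj : j ∈ S <;> simp [a, hj, hv]
    rw [h1, sum_ite_compl S (fun _ => (1 : ℝ))]
    simp [a]
  have hC : ∑ o, c o ^ 2 = 1 + X := by
    rw [Fintype.sum_option]
    have h1 : ∑ j, c (some j) ^ 2 = ∑ j, (if j ∈ S then (0 : ℝ) else x j ^ 2) := by
      refine Finset.sum_congr rfl (fun j _ => ?_)
      by_cases hj : j ∈ S <;> simp [c, hj]
    rw [h1, sum_ite_compl S (fun j => x j ^ 2)]
    simp [c, hX]
  have hR : ∑ o, c o ^ 2 * ‖a o‖ ^ 2 = ‖w‖ ^ 2 + X := by
    rw [Fintype.sum_option]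
    have h1 : ∑ j, c (some j) ^ 2 * ‖a (some j)‖ ^ 2 = ∑ j, (if j ∈ S then (0 : ℝ) else x j ^ 2) := by
      refine Finset.sum_congr rfl (fun j _ => ?_)
      by_cases hj : j ∈ S <;> simp [c, a, hj, hv]
    rw [h1, sum_ite_compl S (fun j => x j ^ 2)]
    simp [c, a, hX]
  have h0 : ∑ o, c o • a o = 0 := by
    rw [Fintype.sum_option]
    have h1 : ∑ j, c (some j) • a (some j) = ∑ j, (if j ∈ S then (0 : E) else x j • v j) := by
      refine Finset.sum_congr rfl (fun j _ => ?_)
      by_cases hj : j ∈ S <;> simp [c, a, hj]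
    rw [h1, sum_ite_compl S (fun j => x j • v j)]
    simp only [c, a, Option.elim_none, one_smul]
    rw [hw]
    simp
  rw [hA, hC, hR, h0, norm_zero] at he
  set σ := sg (e none) with hσ
  have hσ2 : σ * σ = 1 := by rcases sg_or (e none) with h | h <;> rw [hσ, h] <;> norm_num
  refine ⟨fun i => if i ∈ S then ε i else σ * sg (e (some i)), ?_, ?_, ?_⟩
  · intro i
    by_cases hi : i ∈ S
    · simp only [hi, if_true]; exact hε i
    · simp only [hi, if_false]
      rcases sg_or (e none) with h | h <;> rcases sg_or (e (some i)) with h' | h' <;>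
        rw [hσ, h, h'] <;> norm_num
  · intro i hi
    simp [hi]
  · have h1 : ∑ i, (if i ∈ S then ε i else σ * sg (e (some i))) • v i
        = σ • ∑ o, sg (e o) • a o := by
      rw [Fintype.sum_option, smul_add, Finset.smul_sum]
      have h2 : σ • sg (e none) • a none = w := by
        rw [smul_smul, ← hσ, hσ2, one_smul]
        simp [a]
      rw [h2, ← Finset.sum_add_sum_compl S]
      congr 1
      · rw [hwdef]
        exact Finset.sum_congr rfl (fun i hi => by simp [hi])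
      · have h3 : ∑ i, σ • sg (e (some i)) • a (some i)
            = ∑ i, (if i ∈ S then (0 : E) else (σ * sg (e (some i))) • v i) := by
          refine Finset.sum_congr rfl (fun i _ => ?_)
          by_cases hi : i ∈ S <;> simp [a, hi, smul_smul]
        rw [h3, sum_ite_compl S (fun i => (σ * sg (e (some i))) • v i)]
        refine Finset.sum_congr rfl (fun i hi => ?_)
        rw [Finset.mem_compl] at hi
        simp [hi]
    rw [h1, norm_smul, mul_pow, Real.norm_eq_abs, sq_abs, sq, hσ2, one_mul]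
    refine he.trans (le_of_eq ?_)
    have : (1 + X) ≠ 0 := by positivity
    field_simp
    ring

/-- A set has signs with sum `0` (even size) or `1` (odd size). -/
lemma exists_small_sum {κ : Type*} [DecidableEq κ] (s : Finset κ) :
    ∃ ε : κ → ℝ, (∀ i, ε i = 1 ∨ ε i = -1) ∧ ∑ i ∈ s, ε i = if Odd s.card then 1 else 0 := by
  induction s using Finset.induction_on with
  | empty => exact ⟨fun _ => 1, fun _ => Or.inl rfl, by simp⟩
  | insert b s hb ih =>
    obtain ⟨ε, h1, h2⟩ := ih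
    have hsum : ∀ β : ℝ, ∑ i ∈ insert b s, Function.update ε b β i = β + ∑ i ∈ s, ε i := by
      intro β
      rw [Finset.sum_insert hb, Function.update_self]
      congr 1
      refine Finset.sum_congr rfl (fun i hi => ?_)
      rw [Function.update_of_ne (show i ≠ b from fun h => hb (h ▸ hi))]
    have hval : ∀ β : ℝ, (β = 1 ∨ β = -1) → ∀ i, Function.update ε b β i = 1 ∨
        Function.update ε b β i = -1 := by
      intro β hβ i
      by_cases hi : i = b
      · subst hi; rw [Function.update_self]; exact hβ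
      · rw [Function.update_of_ne hi]; exact h1 i
    rw [Finset.card_insert_of_notMem hb]
    by_cases ho : Odd s.card
    · refine ⟨Function.update ε b (-1), hval _ (Or.inr rfl), ?_⟩
      rw [hsum, h2, if_pos ho, if_neg (by
        rw [Nat.not_odd_iff_even]; exact ho.add_one)]
      norm_num
    · refine ⟨Function.update ε b 1, hval _ (Or.inl rfl), ?_⟩
      rw [hsum, h2, if_neg ho, if_pos (by
        rw [Nat.not_odd_iff_even] at ho; exact ho.add_one)]
      norm_num

end Pool.Agent.Q296.Balance
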