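import Mathlib

/-!
# The two exponentiations of ultrafilters on the positive integers
-/

namespace Pool.Agent.Q296

/-- `E_1(p,q) = {A : {n : {m : n^m ∈ A} ∈ q} ∈ p}`. -/
def E1 (p q : Ultrafilter ℕ+) : Ultrafilter ℕ+ :=
  p.bind (fun n => q.map (fun m => n ^ (m : ℕ)))

/-- `E_2(p,q) = {A : {n : {m : m^n ∈ A} ∈ q} ∈ p}`. -/
def E2 (p q : Ultrafilter ℕ+) : Ultrafilter ℕ+ :=
  p.bind (fun n => q.map (fun m => m ^ (n : ℕ)))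

/-- An ultrafilter is nonprincipal if it is not the principal ultrafilter at any point. -/
def Nonprincipal (p : Ultrafilter ℕ+) : Prop := ∀ n : ℕ+, p ≠ pure n

lemma mem_E1 {p q : Ultrafilter ℕ+} {A : Set ℕ+} :
    A ∈ E1 p q ↔ ∀ᶠ n : ℕ+ in (p : Filter ℕ+), ∀ᶠ m : ℕ+ in (q : Filter ℕ+), n ^ (m : ℕ) ∈ A := Iff.rfl

lemma mem_E2 {p q : Ultrafilter ℕ+} {A : Set ℕ+} :
    A ∈ E2 p q ↔ ∀ᶠ n : ℕ+ in (p : Filter ℕ+), ∀ᶠ m : ℕ+ in (q : Filter ℕ+), m ^ (n : ℕ) ∈ A := Iff.rfl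

lemma Nonprincipal.eventually_ge {p : Ultrafilter ℕ+} (hp : Nonprincipal p) (N : ℕ) :
    ∀ᶠ n : ℕ+ in (p : Filter ℕ+), N ≤ (n : ℕ) := by
  by_contra hcon
  have h1 : ∀ᶠ n : ℕ+ in (p : Filter ℕ+), ¬ N ≤ (n : ℕ) := Ultrafilter.eventually_not.mpr hcon
  have hfin : {n : ℕ+ | ¬ N ≤ (n : ℕ)}.Finite := by
    apply Set.Finite.subset (Set.finite_Iic (⟨N + 1, by omega⟩ : ℕ+))
    intro n hn
    have hn' : ¬ N ≤ (n : ℕ) := hn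
    have h2 : (n : ℕ) ≤ ((⟨N + 1, by omega⟩ : ℕ+) : ℕ) := by
      show (n : ℕ) ≤ N + 1
      omega
    exact h2
  obtain ⟨n, _, hn⟩ := p.eq_pure_of_finite_mem hfin h1
  exact hp n hn

end Pool.Agent.Q296
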