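import Mathlib
import Pool.Agent.Q296.UltraExp

/-!
# No nonprincipal idempotents for the second ultrafilter exponentiation: arithmetic part
-/

namespace Pool.Agent.Q296.E2Idem

open Filter

/-- the part of `n` prime to `l` -/
def u (l n : ℕ) : ℕ := n / l ^ n.factorization l

lemma u_one (l : ℕ) : u l 1 = 1 := by simp [u]

lemma u_mul (l a b : ℕ) : u l (a * b) = u l a * u l b := Nat.ordCompl_mul a b l

lemma u_pow (l a n : ℕ) : u l (a ^ n) = u l a ^ n := by
  induction n with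
  | zero => simp [u_one]
  | succ n ih => rw [pow_succ, u_mul, ih, pow_succ]

lemma pow_mul_u (l n : ℕ) : l ^ n.factorization l * u l n = n := Nat.ordProj_mul_ordCompl_eq_self n l

lemma u_pow_mul {l : ℕ} (hl : l.Prime) (k m : ℕ) (hm : ¬ l ∣ m) : u l (l ^ k * m) = m :=
  Nat.ordCompl_pow_mul_of_not_dvd k hl hm

lemma not_dvd_u {l n : ℕ} (hl : l.Prime) (hn : n ≠ 0) : ¬ l ∣ u l n := Nat.not_dvd_ordCompl hl hn

lemma u_pos {l n : ℕ} (hn : n ≠ 0) : 0 < u l n := Nat.ordCompl_pos l hn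

lemma u_of_not_dvd {l n : ℕ} (hl : l.Prime) (h : ¬ l ∣ n) : u l n = n := by
  simpa using u_pow_mul hl 0 n h

lemma pow_one_add (z n : ℕ) : ∃ s, (1 + z) ^ n = 1 + z * (n + z * s) := by
  induction n with
  | zero => exact ⟨0, by simp⟩
  | succ n ih =>
    obtain ⟨s, hs⟩ := ih
    refine ⟨s + n + z * s, ?_⟩
    rw [pow_succ, hs]
    ring

/-- unit part and valuation of `(1+z)^n - 1` for `z` highly divisible by `l`. -/
lemma pow_sub_one {l : ℕ} (hl : l.Prime) (z n K : ℕ) (hz : z ≠ 0) (hn : n ≠ 0) (hK : 1 ≤ K)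
    (h : l ^ (n.factorization l + K) ∣ z) :
    ∃ s, (1 + z) ^ n - 1 = l ^ (z.factorization l + n.factorization l) *
      (u l z * (u l n + l ^ K * s)) ∧ ¬ l ∣ u l z * (u l n + l ^ K * s) := by
  obtain ⟨s, hs⟩ := pow_one_add z n
  obtain ⟨t, ht⟩ := h
  refine ⟨t * s, ?_, ?_⟩
  · rw [hs, Nat.add_sub_cancel_left]
    have h1 := pow_mul_u l z
    have h2 := pow_mul_u l n
    have h3 : n + z * s = l ^ n.factorization l * (u l n + l ^ K * (t * s)) := by
      calc n + z * s = l ^ n.factorization l * u l n + (l ^ (n.factorization l + K) * t) * s := by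
            rw [h2, ← ht]
        _ = _ := by rw [pow_add]; ring
    rw [h3]
    calc z * (l ^ n.factorization l * (u l n + l ^ K * (t * s)))
        = (l ^ z.factorization l * u l z) *
          (l ^ n.factorization l * (u l n + l ^ K * (t * s))) := by rw [h1]
      _ = _ := by rw [pow_add]; ring
  · rw [hl.dvd_mul, not_or]
    refine ⟨not_dvd_u hl hz, ?_⟩
    rw [Nat.dvd_add_left]
    · exact not_dvd_u hl hn
    · exact Dvd.dvd.mul_right (dvd_pow_self l (by omega)) _

/-- If `l^(v(n)+K)` divides `z` then the unit part of `(1+z)^n - 1` is `u z * u n` mod `l^K`. -/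
lemma u_pow_sub_one {l : ℕ} (hl : l.Prime) (z n K : ℕ) (hz : z ≠ 0) (hn : n ≠ 0) (hK : 1 ≤ K)
    (h : l ^ (n.factorization l + K) ∣ z) :
    ((u l ((1 + z) ^ n - 1) : ℕ) : ZMod (l ^ K)) = (u l z : ℕ) * (u l n : ℕ) := by
  obtain ⟨s, hs, hnd⟩ := pow_sub_one hl z n K hz hn hK h
  rw [hs, u_pow_mul hl _ _ hnd]
  have : ((l ^ K : ℕ) : ZMod (l ^ K)) = 0 := ZMod.natCast_self _
  push_cast at this ⊢
  rw [this]
  ring

variable {p : Ultrafilter ℕ+}

/-- A function to a finite type is constant along an ultrafilter. -/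
lemma exists_const {α : Type*} [Finite α] (p : Ultrafilter ℕ+) (f : ℕ+ → α) :
    ∃ r, ∀ᶠ m in (p : Filter ℕ+), f m = r := by
  obtain ⟨r, hr⟩ := Ultrafilter.eq_pure_of_finite (p.map f)
  refine ⟨r, ?_⟩
  have h : ({r} : Set α) ∈ p.map f := by rw [hr]; exact Set.mem_singleton r
  exact h

lemma idem_iff (hE : E2 p p = p) (P : ℕ+ → Prop) :
    (∀ᶠ x in (p : Filter ℕ+), P x) ↔
      ∀ᶠ n : ℕ+ in (p : Filter ℕ+), ∀ᶠ m : ℕ+ in (p : Filter ℕ+), P (m ^ (n : ℕ)) := by
  have h := mem_E2 (p := p) (q := p) (A := {x | P x})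
  rw [hE] at h
  exact h

lemma mul_cancel_unit {l K a : ℕ} (hl : l.Prime) (ha : ¬ l ∣ a) {x y : ZMod (l ^ K)}
    (h : (a : ZMod (l ^ K)) * x = a * y) : x = y := by
  have hu : IsUnit (a : ZMod (l ^ K)) := by
    rw [ZMod.isUnit_iff_coprime]
    exact Nat.Coprime.pow_right K ((Nat.Prime.coprime_iff_not_dvd hl).mpr ha).symm
  exact hu.mul_left_cancel h

/-- lifting the exponent in the two cases needed -/
lemma lte {l : ℕ} (hl : l = 2 ∨ l = 3) (a j k K : ℕ) (h1 : (l : ℤ) ^ 2 ∣ (a : ℤ) - 1 ∨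
    (l = 3 ∧ (l : ℤ) ∣ (a : ℤ) - 1))
    (hk : ¬ (l : ℤ) ^ k ∣ (a : ℤ) - 1) (hK : (l : ℤ) ^ (k + K) ∣ (a : ℤ) ^ j - 1) :
    (l ^ K : ℕ) ∣ j := by
  have hlp : l.Prime := by rcases hl with rfl | rfl <;> norm_num
  have hla : ¬ (l : ℤ) ∣ (a : ℤ) := by
    intro h
    have h2 : (l : ℤ) ∣ (a : ℤ) - 1 := by
      rcases h1 with h1 | h1
      · exact (dvd_pow_self _ (by norm_num)).trans h1
      · exact h1.2
    have h3 : (l : ℤ) ∣ 1 := by
      have := dvd_sub h h2
      simpa using this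
    have h4 := Int.natCast_dvd_natCast.mp (by simpa using h3 : (l : ℤ) ∣ ((1 : ℕ) : ℤ))
    exact hlp.one_lt.ne' (Nat.dvd_one.mp h4)
  have key : emultiplicity (l : ℤ) ((a : ℤ) ^ j - 1) =
      emultiplicity (l : ℤ) ((a : ℤ) - 1) + emultiplicity l j := by
    rcases hl with rfl | rfl
    · have h4 : (4 : ℤ) ∣ (a : ℤ) - 1 := by
        rcases h1 with h1 | h1
        · norm_num at h1; exact h1
        · omega
      have := Int.two_pow_sub_pow' (x := a) (y := 1) j h4 (by exact_mod_cast hla)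
      rw [one_pow] at this
      rw [Nat.cast_two]
      rw [this]
      congr 1
      have := Int.natCast_emultiplicity 2 j
      exact_mod_cast this
    · have h3 : ((3 : ℕ) : ℤ) ∣ (a : ℤ) - 1 := by
        rcases h1 with h1 | h1
        · exact (dvd_pow_self _ (by norm_num)).trans h1
        · exact h1.2
      have := Int.emultiplicity_pow_sub_pow Nat.prime_three (by decide) h3 hla j
      rw [one_pow] at this
      exact this
  rw [pow_dvd_iff_le_emultiplicity] at hK hk ⊢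
  rw [key] at hK
  rw [not_le] at hk
  by_contra hc
  rw [not_le] at hc
  have h5 : emultiplicity (l : ℤ) ((a : ℤ) - 1) + emultiplicity l j < ((k + K : ℕ) : ℕ∞) := by
    push_cast
    exact ENat.add_lt_add hk hc
  exact absurd hK (not_le.mpr h5)

end Pool.Agent.Q296.E2Idem
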