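import Mathlib
import Pool.Agent.Q296.E2Idem

/-!
# The chain function on the `l`-adic integers
-/

namespace Pool.Agent.Q296.E2Idem

open Filter

variable {l : ℕ} [hlF : Fact l.Prime]

lemma isUnit_iff_not_dvd (w : ℤ_[l]) : IsUnit w ↔ ¬ (l : ℤ_[l]) ∣ w := by
  rw [← PadicInt.norm_lt_one_iff_dvd, ← PadicInt.not_isUnit_iff, not_not]

/-- the valuation of `y - 1` -/
noncomputable def c (y : ℤ_[l]) : ℕ := (y - 1).valuation

open Classical in
/-- the unit part of `y - 1` times `t` -/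
noncomputable def F (t y : ℤ_[l]) : ℤ_[l] :=
  if h : y - 1 = 0 then 0 else (PadicInt.unitCoeff h : ℤ_[l]) * t

lemma dec {t y w : ℤ_[l]} {e : ℕ} (h : y - 1 = (l : ℤ_[l]) ^ e * w) (hw : IsUnit w) :
    y ≠ 1 ∧ c y = e ∧ F t y = w * t := by
  have hw0 : w ≠ 0 := hw.ne_zero
  have hl0 : (l : ℤ_[l]) ≠ 0 := NeZero.ne _
  have hy : y - 1 ≠ 0 := by
    rw [h]
    exact mul_ne_zero (pow_ne_zero _ hl0) hw0
  have hval : w.valuation = 0 := by
    by_contra hv
    have : (l : ℤ_[l]) ∣ w := by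
      have h2 := (PadicInt.mem_span_pow_iff_le_valuation w hw0 1).mpr (by omega)
      rw [Ideal.mem_span_singleton, pow_one] at h2
      exact h2
    exact (isUnit_iff_not_dvd w).mp hw this
  have hc : c y = e := by
    unfold c
    rw [h, PadicInt.valuation_p_pow_mul _ _ hw0, hval, add_zero]
  refine ⟨fun h1 => hy (by rw [h1, sub_self]), hc, ?_⟩
  unfold F
  rw [dif_neg hy]
  congr 1
  have h3 := PadicInt.unitCoeff_spec hy
  have h4 : (y - 1).valuation = e := hc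
  rw [h4] at h3
  have h5 : (l : ℤ_[l]) ^ e * w = (l : ℤ_[l]) ^ e * (PadicInt.unitCoeff hy : ℤ_[l]) := by
    rw [← h, mul_comm]
    exact h3
  exact (mul_left_cancel₀ (pow_ne_zero _ hl0) h5).symm

lemma exists_dec {y : ℤ_[l]} (hy : y ≠ 1) : ∃ w, IsUnit w ∧ y - 1 = (l : ℤ_[l]) ^ c y * w := by
  have hy' : y - 1 ≠ 0 := sub_ne_zero.mpr hy
  refine ⟨PadicInt.unitCoeff hy', Units.isUnit _, ?_⟩
  rw [mul_comm]
  exact PadicInt.unitCoeff_spec hy'

lemma dvd_iff {y : ℤ_[l]} (hy : y ≠ 1) (n : ℕ) : (l : ℤ_[l]) ^ n ∣ y - 1 ↔ n ≤ c y := by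
  rw [← Ideal.mem_span_singleton]
  exact PadicInt.mem_span_pow_iff_le_valuation _ (sub_ne_zero.mpr hy) n

open Classical in
/-- length of the descending chain -/
noncomputable def J (t y : ℤ_[l]) : ℕ :=
  if h : y = 1 ∨ (l : ℤ_[l]) ^ c y ∣ F t y - 1 then 0 else 1 + J t (F t y)
termination_by c y
decreasing_by
  push Not at h
  by_contra hcon
  apply h.2
  by_cases h1 : F t y = 1
  · rw [h1, sub_self]; exact dvd_zero _
  · rw [dvd_iff h1]; omega

lemma J_stop {t y : ℤ_[l]} (h : (l : ℤ_[l]) ^ c y ∣ F t y - 1) : J t y = 0 := by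
  rw [J, dif_pos (Or.inr h)]

lemma J_step {t y : ℤ_[l]} (hy : y ≠ 1) (h : ¬ (l : ℤ_[l]) ^ c y ∣ F t y - 1) :
    J t y = 1 + J t (F t y) := by
  rw [J, dif_neg]
  push Not
  exact ⟨hy, h⟩

lemma close {t y y' : ℤ_[l]} {K : ℕ} (hy : y ≠ 1) (hK : 1 ≤ K)
    (h : (l : ℤ_[l]) ^ (c y + K) ∣ y' - y) :
    y' ≠ 1 ∧ c y' = c y ∧ (l : ℤ_[l]) ^ K ∣ F t y' - F t y := by
  obtain ⟨w, hw, hyw⟩ := exists_dec hy
  obtain ⟨s, hs⟩ := h
  have h1 : y' - 1 = (l : ℤ_[l]) ^ c y * (w + (l : ℤ_[l]) ^ K * s) := by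
    calc y' - 1 = (y' - y) + (y - 1) := by ring
      _ = (l : ℤ_[l]) ^ (c y + K) * s + (l : ℤ_[l]) ^ c y * w := by rw [← hs, ← hyw]
      _ = _ := by rw [pow_add]; ring
  have hw' : IsUnit (w + (l : ℤ_[l]) ^ K * s) := by
    rw [isUnit_iff_not_dvd] at hw ⊢
    intro hd
    apply hw
    have h2 : (l : ℤ_[l]) ∣ (l : ℤ_[l]) ^ K * s :=
      Dvd.dvd.mul_right (dvd_pow_self _ (by omega)) _
    have := dvd_sub hd h2
    simpa using this
  obtain ⟨h3, h4, h5⟩ := dec (t := t) h1 hw'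
  obtain ⟨_, _, h6⟩ := dec (t := t) hyw hw
  refine ⟨h3, h4, ?_⟩
  rw [h5, h6]
  exact ⟨s * t, by ring⟩

/-- `J` is locally constant away from `1`. -/
lemma J_locConst (t : ℤ_[l]) : ∀ n : ℕ, ∀ y : ℤ_[l], y ≠ 1 → c y = n →
    ∃ K, ∀ y' : ℤ_[l], (l : ℤ_[l]) ^ K ∣ y' - y → y' ≠ 1 ∧ c y' = c y ∧ J t y' = J t y := by
  intro n
  induction n using Nat.strong_induction_on with
  | _ n ih =>
    intro y hy hcy
    by_cases hstop : (l : ℤ_[l]) ^ c y ∣ F t y - 1
    · refine ⟨c y + (c y + 1), fun y' h => ?_⟩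
      obtain ⟨h1, h2, h3⟩ := close (t := t) hy (by omega) h
      refine ⟨h1, h2, ?_⟩
      rw [J_stop hstop, J_stop]
      rw [h2]
      have h4 : (l : ℤ_[l]) ^ c y ∣ F t y' - F t y := (pow_dvd_pow _ (by omega)).trans h3
      have := dvd_add h4 hstop
      simpa using this
    · have hF1 : F t y ≠ 1 := by
        intro h1
        apply hstop
        rw [h1, sub_self]; exact dvd_zero _
      have hF2 : c (F t y) < n := by
        by_contra hc
        apply hstop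
        rw [dvd_iff hF1]; omega
      obtain ⟨K', hK'⟩ := ih _ hF2 (F t y) hF1 rfl
      refine ⟨c y + (K' + c y + 1), fun y' h => ?_⟩
      obtain ⟨h1, h2, h3⟩ := close (t := t) hy (by omega) h
      refine ⟨h1, h2, ?_⟩
      obtain ⟨h4, h5, h6⟩ := hK' (F t y') ((pow_dvd_pow _ (by omega)).trans h3)
      have hns : ¬ (l : ℤ_[l]) ^ c y' ∣ F t y' - 1 := by
        rw [h2]
        intro hd
        apply hstop
        have h7 : (l : ℤ_[l]) ^ c y ∣ F t y' - F t y := (pow_dvd_pow _ (by omega)).trans h3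
        have := dvd_sub hd h7
        simpa using this
      rw [J_step hy hstop, J_step h1 hns, h6]

end Pool.Agent.Q296.E2Idem
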