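import Pool.Agent.Q296.Nibble4

/-!
# Selections of lines, one of each slope, covering almost all points of a few columns
-/

set_option linter.unusedSectionVars false
set_option linter.unusedVariables false

namespace Pool.Agent.Q296.Net

open Finset

section l2

variable {p : ℕ} [Fact p.Prime] {M : ℕ}

/-- degree of the point `(l, y)` -/
noncomputable def deg (W : ZMod p → ZMod p → ℝ) (l y : ZMod p) : ℝ := ∑ i, W i (y - i * l)

lemma sum_deg (W : ZMod p → ZMod p → ℝ) (l : ZMod p) :
    ∑ y, deg W l y = ∑ i, ∑ v, W i v := by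
  unfold deg
  rw [sum_comm]
  apply sum_congr rfl
  intro i _
  exact Equiv.sum_comp (Equiv.subRight (i * l)) (fun v => W i v)

lemma pair_sum {l l' : ZMod p} (h : l ≠ l') (F G : ZMod p → ℝ) :
    ∑ i, ∑ v, F (v + i * l) * G (v + i * l') = (∑ y, F y) * ∑ y, G y := by
  rw [sum_mul_sum, ← sum_product', ← sum_product']
  have hbij : Function.Bijective (fun x : ZMod p × ZMod p => (x.2 + x.1 * l, x.2 + x.1 * l')) := by
    rw [← Finite.injective_iff_bijective]
    rintro ⟨i, v⟩ ⟨i', v'⟩ heq
    simp only [Prod.mk.injEq] at heq ⊢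
    obtain ⟨h1, h2⟩ := heq
    have h3 : (i - i') * (l - l') = 0 := by linear_combination h1 - h2
    rcases mul_eq_zero.mp h3 with h4 | h4
    · have h5 : i = i' := sub_eq_zero.mp h4
      subst h5
      exact ⟨rfl, by linear_combination h1⟩
    · exact absurd (sub_eq_zero.mp h4) h
  exact hbij.sum_comp (fun x : ZMod p × ZMod p => F x.1 * G x.2)

lemma col_sum (l : ZMod p) (F : ZMod p → ℝ) :
    ∑ i : ZMod p, ∑ v, F (v + i * l) = p * ∑ y, F y := by
  have h1 : ∀ i ∈ (univ : Finset (ZMod p)), ∑ v, F (v + i * l) = ∑ y, F y := by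
    intro i _
    exact Equiv.sum_comp (Equiv.addRight (i * l)) F
  rw [sum_congr rfl h1, sum_const, card_univ, ZMod.card, nsmul_eq_mul]

/-- the `L²` deviation of the degrees is small -/
lemma l2_bound (c : Fin M → ZMod p) (hc : Function.Injective c) (W : ZMod p → ZMod p → ℝ)
    (hW0 : ∀ i v, 0 ≤ W i v) (hW2 : ∀ i v, W i v ≤ 2) :
    ∑ l : Fin M, ∑ y, (deg W (c l) y - (∑ i, ∑ v, W i v) / p) ^ 2 ≤ 4 * (p : ℝ) ^ 3 := by
  have hp : (0 : ℝ) < p := by exact_mod_cast (Fact.out : p.Prime).pos
  set T : ℝ := ∑ i, ∑ v, W i v with hT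
  set a : Fin M → ZMod p → ℝ := fun l y => deg W (c l) y - T / p with ha
  have hcol : ∀ l, ∑ y, a l y = 0 := by
    intro l
    simp only [ha]
    rw [sum_sub_distrib, sum_deg, sum_const, card_univ, ZMod.card, nsmul_eq_mul]
    field_simp
    ring
  set Q : ℝ := ∑ l : Fin M, ∑ y, a l y ^ 2 with hQ
  have hQ0 : 0 ≤ Q := sum_nonneg fun l _ => sum_nonneg fun y _ => sq_nonneg _
  -- `Q` as a sum over lines
  have h1 : Q = ∑ h : ZMod p × ZMod p, W h.1 h.2 * ∑ l : Fin M, a l (h.2 + h.1 * c l) := by
    have e1 : Q = ∑ l : Fin M, ∑ y, a l y * deg W (c l) y := by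
      rw [hQ]
      apply sum_congr rfl
      intro l _
      have : ∑ y, a l y * deg W (c l) y = ∑ y, (a l y ^ 2 + (T / p) * a l y) := by
        apply sum_congr rfl
        intro y _
        simp only [ha]
        ring
      rw [this, sum_add_distrib, ← mul_sum, hcol l, mul_zero, add_zero]
    rw [e1]
    simp only [mul_sum]
    conv_rhs => rw [sum_comm]
    apply sum_congr rfl
    intro l _
    rw [Fintype.sum_prod_type]
    unfold deg
    simp only [mul_sum]
    rw [sum_comm]
    apply sum_congr rfl
    intro i _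
    rw [← Equiv.sum_comp (Equiv.addRight (i * c l))]
    apply sum_congr rfl
    intro v _
    simp only [Equiv.coe_addRight, add_sub_cancel_right]
    ring
  have h2 : ∑ h : ZMod p × ZMod p, (∑ l : Fin M, a l (h.2 + h.1 * c l)) ^ 2 = p * Q := by
    have e1 : ∀ h : ZMod p × ZMod p, (∑ l : Fin M, a l (h.2 + h.1 * c l)) ^ 2 =
        ∑ l : Fin M, ∑ l' : Fin M, a l (h.2 + h.1 * c l) * a l' (h.2 + h.1 * c l') := by
      intro h
      rw [sq, sum_mul_sum]
    simp only [e1]
    rw [sum_comm, hQ, mul_sum]
    apply sum_congr rfl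
    intro l _
    rw [sum_comm]
    rw [sum_eq_single l]
    · rw [Fintype.sum_prod_type]
      have := col_sum (c l) (fun y => a l y ^ 2)
      rw [← this]
      apply sum_congr rfl
      intro i _
      apply sum_congr rfl
      intro v _
      ring
    · intro l' _ hne
      rw [Fintype.sum_prod_type]
      have := pair_sum (hc.ne hne.symm) (a l) (a l')
      rw [this, hcol l, zero_mul]
    · simp
  have h3 : ∑ h : ZMod p × ZMod p, W h.1 h.2 ^ 2 ≤ 4 * (p : ℝ) ^ 2 := by
    calc _ ≤ ∑ h : ZMod p × ZMod p, (4 : ℝ) := by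
          apply sum_le_sum
          intro h _
          nlinarith [hW0 h.1 h.2, hW2 h.1 h.2]
      _ = 4 * (p : ℝ) ^ 2 := by
          rw [sum_const, card_univ, Fintype.card_prod, ZMod.card, nsmul_eq_mul]
          push_cast
          ring
  have h4 : Q ^ 2 ≤ (4 * (p : ℝ) ^ 2) * (p * Q) := by
    conv_lhs => rw [h1]
    calc _ ≤ (∑ h : ZMod p × ZMod p, W h.1 h.2 ^ 2) *
          ∑ h : ZMod p × ZMod p, (∑ l : Fin M, a l (h.2 + h.1 * c l)) ^ 2 :=
          sum_mul_sq_le_sq_mul_sq _ _ _
      _ ≤ _ := by
          rw [h2]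
          exact mul_le_mul_of_nonneg_right h3 (by positivity)
  rcases hQ0.eq_or_lt with h5 | h5
  · rw [← h5]; positivity
  · have : Q * Q ≤ (4 * (p : ℝ) ^ 3) * Q := by nlinarith
    exact le_of_mul_le_mul_right this h5

end l2

section cover

variable {p : ℕ} [Fact p.Prime] {M : ℕ}

/-- positions: slopes, each in two copies -/
abbrev Pos (p : ℕ) := ZMod p × Fin 2

/-- points of the columns -/
abbrev Pt (M p : ℕ) := Fin M × ZMod p

/-- the intercept of the line of position `i` through the point `x` -/
def cell (c : Fin M → ZMod p) (i : Pos p) (x : Pt M p) : ZMod p := x.2 - i.1 * c x.1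

variable (c : Fin M → ZMod p) (S : Finset (Pos p × ZMod p)) (cred : Pt M p → Finset (Pos p))

/-- credited points of a line -/
def pts (a : Pos p × ZMod p) : Finset (Pt M p) :=
  univ.filter (fun x => cell c a.1 x = a.2 ∧ a.1 ∈ cred x)

/-- the set system -/
def es : (Pos p × ZMod p) ⊕ ((Pos p ⊕ Pt M p) × ZMod p) → Finset (Pos p ⊕ Pt M p)
  | Sum.inl a => insert (Sum.inl a.1) ((pts c cred a).map ⟨Sum.inr, Sum.inr_injective⟩)
  | Sum.inr x => {x.1}

lemma inl_mem {i : Pos p} {a : Pos p × ZMod p} : Sum.inl i ∈ es c cred (Sum.inl a) ↔ i = a.1 := by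
  simp [es]

lemma inr_mem {x : Pt M p} {a : Pos p × ZMod p} :
    Sum.inr x ∈ es c cred (Sum.inl a) ↔ cell c a.1 x = a.2 ∧ a.1 ∈ cred x := by
  simp [es, pts]

/-- weight of a line -/
noncomputable def w1 (w0 : ℝ) (a : Pos p × ZMod p) : ℝ := if a ∈ S then 0 else w0

/-- load from lines -/
noncomputable def load (w0 : ℝ) (x : Pos p ⊕ Pt M p) : ℝ :=
  ∑ a, if x ∈ es c cred (Sum.inl a) then w1 S w0 a else 0

/-- weights, with dummy singletons filling the loads up to one -/
noncomputable def ws (w0 : ℝ) : (Pos p × ZMod p) ⊕ ((Pos p ⊕ Pt M p) × ZMod p) → ℝ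
  | Sum.inl a => w1 S w0 a
  | Sum.inr x => (1 - load c S cred w0 x.1) / p

lemma load_inl (w0 : ℝ) (i : Pos p) :
    load c S cred w0 (Sum.inl i) = ∑ v, w1 S w0 (i, v) := by
  unfold load
  simp only [inl_mem]
  rw [Fintype.sum_prod_type, sum_eq_single i]
  · simp
  · intro j _ hj
    apply sum_eq_zero
    intro v _
    rw [if_neg (fun h => hj h.symm)]
  · simp

lemma load_inr (hcred : ∀ x, ∀ i ∈ cred x, (i, cell c i x) ∉ S) (w0 : ℝ) (x : Pt M p) :
    load c S cred w0 (Sum.inr x) = w0 * (cred x).card := by
  unfold load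
  simp only [inr_mem]
  rw [Fintype.sum_prod_type]
  have h1 : ∀ i : Pos p, ∑ v, (if cell c i x = v ∧ i ∈ cred x then w1 S w0 (i, v) else 0) =
      if i ∈ cred x then w0 else 0 := by
    intro i
    by_cases hi : i ∈ cred x
    · rw [if_pos hi, sum_eq_single (cell c i x)]
      · rw [if_pos ⟨rfl, hi⟩]
        unfold w1
        rw [if_neg (hcred x i hi)]
      · intro v _ hv
        rw [if_neg (fun h => hv h.1.symm)]
      · simp
    · rw [if_neg hi]
      apply sum_eq_zero
      intro v _
      rw [if_neg (fun h => hi h.2)]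
  simp only [h1]
  rw [sum_ite_mem, univ_inter, sum_const, nsmul_eq_mul, mul_comm]

open Pool.Agent.Q296.Nibble in
lemma sys (hcred : ∀ x, ∀ i ∈ cred x, (i, cell c i x) ∉ S) (hc : Function.Injective c)
    {w0 : ℝ} (hw00 : 0 ≤ w0)
    (hw0p : w0 * p ≤ 1) (hload : ∀ x, w0 * (cred x).card ≤ 1) :
    Sys (M + 1) (2 / p) (es c cred) (ws c S cred w0) := by
  have hp : (0 : ℝ) < p := by exact_mod_cast (Fact.out : p.Prime).pos
  have hw1 : ∀ a, 0 ≤ w1 S w0 a := by
    intro a; unfold w1; split_ifs <;> linarith
  have hw1' : ∀ a, w1 S w0 a ≤ 1 / p := by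
    intro a
    have : w0 ≤ 1 / p := by rw [le_div_iff₀ hp]; exact hw0p
    unfold w1; split_ifs
    · positivity
    · exact this
  have hl0 : ∀ x, 0 ≤ load c S cred w0 x := by
    intro x
    apply sum_nonneg
    intro a _
    split_ifs
    · exact hw1 a
    · exact le_rfl
  have hl1 : ∀ x, load c S cred w0 x ≤ 1 := by
    rintro (i | x)
    · rw [load_inl]
      calc ∑ v, w1 S w0 (i, v) ≤ ∑ v : ZMod p, w0 := by
            apply sum_le_sum
            intro v _
            unfold w1; split_ifs <;> linarith
        _ = w0 * p := by rw [sum_const, card_univ, ZMod.card, nsmul_eq_mul, mul_comm]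
        _ ≤ 1 := hw0p
    · rw [load_inr c S cred hcred]
      exact hload x
  refine ⟨?_, ?_, ?_, ?_, ?_, ?_⟩
  · rintro (a | x)
    · exact hw1 a
    · exact div_nonneg (by linarith [hl1 x.1]) hp.le
  · rintro (a | x)
    · refine (hw1' a).trans ?_
      gcongr
      norm_num
    · change (1 - load c S cred w0 x.1) / p ≤ 2 / p
      gcongr
      linarith [hl0 x.1]
  · rintro (a | x)
    · refine (card_insert_le _ _).trans ?_
      rw [card_map]
      apply Nat.succ_le_succ
      calc (pts c cred a).card ≤ (univ : Finset (Fin M)).card := by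
            apply card_le_card_of_injOn (fun x => x.1) (fun _ _ => by simp)
            rintro ⟨l, y⟩ hx ⟨l', y'⟩ hx' heq
            rw [mem_coe, pts, mem_filter] at hx hx'
            simp only at heq
            subst heq
            simp only [Prod.mk.injEq, true_and]
            have g1 : y - a.1.1 * c l = a.2 := hx.2.1
            have g2 : y' - a.1.1 * c l = a.2 := hx'.2.1
            linear_combination g1 - g2
        _ = M := by simp
    · change ({x.1} : Finset _).card ≤ M + 1
      rw [card_singleton]; omega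
  · rintro (a | x)
    · exact ⟨_, mem_insert_self _ _⟩
    · exact ⟨x.1, mem_singleton_self _⟩
  · intro x
    rw [sum_filter, Fintype.sum_sum_type]
    have h1 : ∑ z : (Pos p ⊕ Pt M p) × ZMod p, (if x ∈ es c cred (Sum.inr z) then
        ws c S cred w0 (Sum.inr z) else 0) = 1 - load c S cred w0 x := by
      rw [Fintype.sum_prod_type, sum_eq_single x]
      · simp only [es, mem_singleton, if_true, ws]
        rw [sum_const, card_univ, ZMod.card, nsmul_eq_mul]
        field_simp
      · intro y _ hy
        apply sum_eq_zero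
        intro k _
        simp only [es, mem_singleton]
        rw [if_neg (fun h => hy h.symm)]
      · simp
    rw [h1]
    have h2 : ∑ a : Pos p × ZMod p, (if x ∈ es c cred (Sum.inl a) then
        ws c S cred w0 (Sum.inl a) else 0) = load c S cred w0 x := rfl
    rw [h2]
    ring
  · intro x y hxy
    rw [sum_filter, Fintype.sum_sum_type]
    have h1 : ∑ z : (Pos p ⊕ Pt M p) × ZMod p, (if x ∈ es c cred (Sum.inr z) ∧
        y ∈ es c cred (Sum.inr z) then ws c S cred w0 (Sum.inr z) else 0) = 0 := by
      apply sum_eq_zero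
      intro z _
      rw [if_neg]
      simp only [es, mem_singleton]
      rintro ⟨h1, h2⟩
      exact hxy (h1.trans h2.symm)
    rw [h1, add_zero, ← sum_filter]
    have hcard : ((univ : Finset (Pos p × ZMod p)).filter (fun a => x ∈ es c cred (Sum.inl a) ∧
        y ∈ es c cred (Sum.inl a))).card ≤ 2 := by
      calc _ ≤ (univ : Finset (Fin 2)).card := by
            apply card_le_card_of_injOn (fun a => a.1.2) (fun _ _ => by simp)
            rintro ⟨⟨s, k⟩, v⟩ ha ⟨⟨s', k'⟩, v'⟩ ha' heq
            simp only [coe_filter, mem_univ, true_and, Set.mem_ofPred_eq] at ha ha'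
            simp only at heq
            subst heq
            obtain ⟨g1, g2⟩ := ha
            obtain ⟨g1', g2'⟩ := ha'
            rcases x with i | x <;> rcases y with i' | y
            · rw [inl_mem] at g1 g2
              exact absurd (by rw [g1, g2]) hxy
            · rw [inl_mem] at g1 g1'
              rw [inr_mem] at g2 g2'
              simp only at g1 g1' g2 g2'
              have e1 : (s, k) = (s', k) := g1.symm.trans g1'
              have e2 : s = s' := (Prod.mk.inj e1).1
              subst e2
              rw [← g2.1, ← g2'.1]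
            · rw [inl_mem] at g2 g2'
              rw [inr_mem] at g1 g1'
              simp only at g1 g1' g2 g2'
              have e1 : (s, k) = (s', k) := g2.symm.trans g2'
              have e2 : s = s' := (Prod.mk.inj e1).1
              subst e2
              rw [← g1.1, ← g1'.1]
            · rw [inr_mem] at g1 g1' g2 g2'
              simp only [cell] at g1 g1' g2 g2'
              have e1 : (s - s') * (c x.1 - c y.1) = 0 := by
                linear_combination g2.1 - g1.1 - g2'.1 + g1'.1
              rcases mul_eq_zero.mp e1 with e2 | e2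
              · have e3 : s = s' := sub_eq_zero.mp e2
                subst e3
                rw [← g1.1, ← g1'.1]
              · exfalso
                have e3 : x.1 = y.1 := hc (sub_eq_zero.mp e2)
                have e4 : x.2 = y.2 := by
                  have := g1.1
                  have := g2.1
                  rw [e3] at g1
                  linear_combination g1.1 - g2.1
                exact hxy (by rw [Prod.ext e3 e4])
        _ = 2 := by simp
    calc _ ≤ ∑ a ∈ (univ : Finset (Pos p × ZMod p)).filter (fun a => x ∈ es c cred (Sum.inl a) ∧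
          y ∈ es c cred (Sum.inl a)), (1 : ℝ) / p := sum_le_sum fun a _ => hw1' a
      _ = (((univ : Finset (Pos p × ZMod p)).filter (fun a => x ∈ es c cred (Sum.inl a) ∧
          y ∈ es c cred (Sum.inl a))).card : ℝ) * (1 / p) := by
          rw [sum_const, nsmul_eq_mul]
      _ ≤ 2 * (1 / p) := by
          apply mul_le_mul_of_nonneg_right _ (by positivity)
          exact_mod_cast hcard
      _ = 2 / p := by ring

end cover

end Pool.Agent.Q296.Net
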