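import Pool.Agent.Q296.Net

/-!
# The covering theorem for nets with deleted lines
-/

set_option linter.unusedSectionVars false
set_option linter.unusedVariables false

namespace Pool.Agent.Q296.Net

open Finset Pool.Agent.Q296.Nibble

section

variable {p : ℕ} [Fact p.Prime] {M : ℕ}

/-- number of copies of the line `(i, v)` that are not deleted -/
noncomputable def mult (S : Finset (Pos p × ZMod p)) (i v : ZMod p) : ℝ :=
  ∑ k : Fin 2, if ((i, k), v) ∈ S then 0 else 1

/-- surviving positions at a point -/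
def alive (c : Fin M → ZMod p) (S : Finset (Pos p × ZMod p)) (x : Pt M p) : Finset (Pos p) :=
  univ.filter (fun i => (i, cell c i x) ∉ S)

lemma card_alive (c : Fin M → ZMod p) (S : Finset (Pos p × ZMod p)) (x : Pt M p) :
    ((alive c S x).card : ℝ) = deg (mult S) (c x.1) x.2 := by
  unfold alive deg mult
  rw [card_filter]
  push_cast
  rw [Fintype.sum_prod_type]
  apply sum_congr rfl
  intro i _
  apply sum_congr rfl
  intro k _
  simp only [cell]
  split_ifs <;> simp_all

lemma sum_mult (S : Finset (Pos p × ZMod p)) :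
    ∑ i, ∑ v, mult S i v = ((univ \ S).card : ℝ) := by
  have h1 : ((univ \ S).card : ℝ) = ∑ a : Pos p × ZMod p, if a ∈ S then (0 : ℝ) else 1 := by
    have : univ \ S = univ.filter (fun a => a ∉ S) := by ext a; simp
    rw [this, card_filter]
    push_cast
    apply sum_congr rfl
    intro a _
    split_ifs <;> simp_all
  rw [h1, Fintype.sum_prod_type, Fintype.sum_prod_type]
  apply sum_congr rfl
  intro i _
  unfold mult
  rw [sum_comm]

/-- values: number of credited points -/
noncomputable def vs (c : Fin M → ZMod p) (cred : Pt M p → Finset (Pos p)) :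
    (Pos p × ZMod p) ⊕ ((Pos p ⊕ Pt M p) × ZMod p) → ℝ
  | Sum.inl a => (pts c cred a).card
  | Sum.inr _ => 0

lemma sum_w_val (c : Fin M → ZMod p) (S : Finset (Pos p × ZMod p))
    (cred : Pt M p → Finset (Pos p))
    (hcred : ∀ x, ∀ i ∈ cred x, (i, cell c i x) ∉ S) (w0 : ℝ) :
    ∑ j, ws c S cred w0 j * vs c cred j = w0 * ∑ x, ((cred x).card : ℝ) := by
  rw [Fintype.sum_sum_type]
  have h1 : ∑ z : (Pos p ⊕ Pt M p) × ZMod p, ws c S cred w0 (Sum.inr z) *
      vs c cred (Sum.inr z) = 0 := by
    apply sum_eq_zero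
    intro z _
    simp [vs]
  rw [h1, add_zero, mul_sum]
  have h2 : ∀ x : Pt M p, w0 * ((cred x).card : ℝ) = ∑ a,
      if x ∈ pts c cred a then w1 S w0 a else 0 := by
    intro x
    rw [← load_inr c S cred hcred]
    unfold load
    apply sum_congr rfl
    intro a _
    have : (Sum.inr x ∈ es c cred (Sum.inl a)) ↔ x ∈ pts c cred a := by
      rw [inr_mem]; simp [pts]
    simp only [this]
  simp only [h2]
  rw [sum_comm]
  apply sum_congr rfl
  intro a _
  rw [sum_ite_mem, univ_inter, sum_const, nsmul_eq_mul, mul_comm]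
  rfl

/-- `f` covers the point `x` -/
def Covers (c : Fin M → ZMod p) (f : Pos p → Option (ZMod p)) (x : Pt M p) : Prop :=
  ∃ i, f i = some (cell c i x)

open Classical in
/-- from a matching to a selection -/
lemma exists_selection (c : Fin M → ZMod p) (S : Finset (Pos p × ZMod p))
    (cred : Pt M p → Finset (Pos p))
    (hcred : ∀ x, ∀ i ∈ cred x, (i, cell c i x) ∉ S)
    (M0 : Finset ((Pos p × ZMod p) ⊕ ((Pos p ⊕ Pt M p) × ZMod p)))
    (hM : ∀ j ∈ M0, ∀ j' ∈ M0, j ≠ j' → Disjoint (es c cred j) (es c cred j')) :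
    ∃ f : Pos p → Option (ZMod p), (∀ i v, f i = some v → (i, v) ∉ S) ∧
      ∑ j ∈ M0, vs c cred j ≤ ((univ.filter (fun x => Covers c f x)).card : ℝ) := by
  let f : Pos p → Option (ZMod p) := fun i =>
    if h : ∃ v, Sum.inl (i, v) ∈ M0 ∧ (i, v) ∉ S then some h.choose else none
  have hf1 : ∀ i v, f i = some v → Sum.inl (i, v) ∈ M0 ∧ (i, v) ∉ S := by
    intro i v h
    simp only [f] at h
    split_ifs at h with hex
    have := hex.choose_spec
    rw [Option.some.injEq] at h
    rw [h] at this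
    exact this
  have hf2 : ∀ i v, Sum.inl (i, v) ∈ M0 → (i, v) ∉ S → f i = some v := by
    intro i v h1 h2
    have hex : ∃ v, Sum.inl (i, v) ∈ M0 ∧ (i, v) ∉ S := ⟨v, h1, h2⟩
    simp only [f]
    rw [dif_pos hex]
    congr 1
    by_contra hne
    have hd := hM _ hex.choose_spec.1 _ h1 (by
      intro h
      apply hne
      have := Sum.inl.inj h
      exact (Prod.mk.inj this).2)
    rw [disjoint_left] at hd
    exact hd ((inl_mem c cred).mpr rfl) ((inl_mem c cred).mpr rfl)
  refine ⟨f, fun i v h => (hf1 i v h).2, ?_⟩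
  set R : Finset (Pos p × ZMod p) := univ.filter (fun a => Sum.inl a ∈ M0 ∧ a ∉ S) with hR
  have hsum : ∑ j ∈ M0, vs c cred j = ∑ a ∈ R, ((pts c cred a).card : ℝ) := by
    have h1 : ∑ j ∈ M0, vs c cred j = ∑ j, if j ∈ M0 then vs c cred j else 0 := by
      rw [sum_ite_mem, univ_inter]
    rw [h1, Fintype.sum_sum_type]
    have h2 : ∑ z : (Pos p ⊕ Pt M p) × ZMod p,
        (if Sum.inr z ∈ M0 then vs c cred (Sum.inr z) else 0) = 0 := by
      apply sum_eq_zero
      intro z _
      simp [vs]
    rw [h2, add_zero, hR, sum_filter]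
    apply sum_congr rfl
    intro a _
    by_cases ha : Sum.inl a ∈ M0
    · by_cases haS : a ∈ S
      · rw [if_pos ha, if_neg (fun h => h.2 haS)]
        simp only [vs, Nat.cast_eq_zero, card_eq_zero]
        rw [pts, filter_eq_empty_iff]
        rintro x _ ⟨h3, h4⟩
        apply hcred x a.1 h4
        rw [h3]
        exact haS
      · rw [if_pos ha, if_pos ⟨ha, haS⟩]
        rfl
    · rw [if_neg ha, if_neg (fun h => ha h.1)]
  rw [hsum]
  have hdisj : ∀ a ∈ R, ∀ a' ∈ R, a ≠ a' → Disjoint (pts c cred a) (pts c cred a') := by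
    intro a ha a' ha' hne
    have hd := hM _ (mem_filter.mp ha).2.1 _ (mem_filter.mp ha').2.1
      (fun h => hne (Sum.inl.inj h))
    rw [disjoint_left] at hd ⊢
    intro x hx hx'
    apply hd (a := Sum.inr x)
    · rw [inr_mem]; simpa [pts] using hx
    · rw [inr_mem]; simpa [pts] using hx'
  have hcardR : ((R.biUnion (pts c cred)).card : ℝ) = ∑ a ∈ R, ((pts c cred a).card : ℝ) := by
    rw [card_biUnion hdisj]
    push_cast
    rfl
  rw [← hcardR]
  have : (R.biUnion (pts c cred)).card ≤ (univ.filter (fun x => Covers c f x)).card := by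
    apply card_le_card
    intro x hx
    rw [mem_biUnion] at hx
    obtain ⟨a, ha, hxa⟩ := hx
    rw [mem_filter]
    refine ⟨mem_univ _, a.1, ?_⟩
    obtain ⟨h1, h2⟩ := (mem_filter.mp ha).2
    rw [hf2 a.1 a.2 h1 h2]
    congr 1
    simp only [pts, mem_filter] at hxa
    exact hxa.2.1.symm
  exact_mod_cast this

lemma sum_cred_ge (c : Fin M → ZMod p) (hc : Function.Injective c)
    (S : Finset (Pos p × ZMod p))
    (cred : Pt M p → Finset (Pos p))
    (hcard : ∀ x, (cred x).card = min (alive c S x).card ((univ \ S).card / p)) :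
    (M * p : ℝ) * (((univ \ S).card : ℝ) / p) - 2 * Real.sqrt M * p ^ 2 - M * p ≤
      ∑ x, ((cred x).card : ℝ) := by
  have hp : (0 : ℝ) < p := by exact_mod_cast (Fact.out : p.Prime).pos
  have hpn : 0 < p := (Fact.out : p.Prime).pos
  set NA := (univ \ S).card with hNA
  set nb : ℝ := (NA : ℝ) / p with hnb
  have h1 : ∀ x : Pt M p, nb - |((alive c S x).card : ℝ) - nb| - 1 ≤ ((cred x).card : ℝ) := by
    intro x
    rw [hcard x]
    push_cast
    apply le_min
    · have := neg_abs_le (((alive c S x).card : ℝ) - nb)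
      linarith
    · have h2 : nb < ((NA / p : ℕ) : ℝ) + 1 := by
        rw [hnb, div_lt_iff₀ hp]
        have : NA < p * (NA / p + 1) := Nat.lt_mul_div_succ NA hpn
        have h3 : (NA : ℝ) < p * (((NA / p : ℕ) : ℝ) + 1) := by exact_mod_cast this
        linarith
      have := abs_nonneg (((alive c S x).card : ℝ) - nb)
      linarith
  have h2 : ∑ x : Pt M p, (((alive c S x).card : ℝ) - nb) ^ 2 ≤ 4 * (p : ℝ) ^ 3 := by
    have := l2_bound c hc (mult S) (fun i v => sum_nonneg fun k _ => by split_ifs <;> norm_num)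
      (fun i v => by
        calc mult S i v ≤ ∑ k : Fin 2, (1 : ℝ) := sum_le_sum fun k _ => by split_ifs <;> norm_num
          _ = 2 := by simp)
    rw [sum_mult] at this
    rw [Fintype.sum_prod_type]
    refine le_trans (le_of_eq ?_) this
    apply sum_congr rfl
    intro l _
    apply sum_congr rfl
    intro y _
    rw [card_alive]
  have h3 : ∑ x : Pt M p, |((alive c S x).card : ℝ) - nb| ≤ 2 * Real.sqrt M * p ^ 2 := by
    apply abs_le_of_sq_le_sq' _ (by positivity) |>.2
    have h4 := sq_sum_le_card_mul_sum_sq (s := (univ : Finset (Pt M p)))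
      (f := fun x => |((alive c S x).card : ℝ) - nb|)
    simp only [sq_abs] at h4
    refine h4.trans ?_
    rw [card_univ, Fintype.card_prod, Fintype.card_fin, ZMod.card]
    push_cast
    calc (M * p : ℝ) * ∑ x : Pt M p, (((alive c S x).card : ℝ) - nb) ^ 2
        ≤ (M * p : ℝ) * (4 * (p : ℝ) ^ 3) := mul_le_mul_of_nonneg_left h2 (by positivity)
      _ = 4 * (Real.sqrt M) ^ 2 * p ^ 4 := by
          rw [Real.sq_sqrt (Nat.cast_nonneg M)]; ring
      _ = _ := by ring
  calc (M * p : ℝ) * nb - 2 * Real.sqrt M * p ^ 2 - M * p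
      ≤ (M * p : ℝ) * nb - ∑ x : Pt M p, |((alive c S x).card : ℝ) - nb| - M * p := by linarith
    _ = ∑ x : Pt M p, (nb - |((alive c S x).card : ℝ) - nb| - 1) := by
        rw [sum_sub_distrib, sum_sub_distrib, sum_const, sum_const, card_univ,
          Fintype.card_prod, Fintype.card_fin, ZMod.card, nsmul_eq_mul, nsmul_eq_mul]
        push_cast
        ring
    _ ≤ _ := sum_le_sum fun x _ => h1 x

end

open Classical in
/-- **Covering theorem.** For every `δ > 0` there is a number `M` of columns such that for all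
large primes `p`, after deleting any `p²` of the `2p²` lines, one can select at most one
surviving line for each position so that at most a fraction `δ` of the points of the `M` columns
are not covered. -/
theorem net_cover {δ : ℝ} (hδ : 0 < δ) : ∃ M : ℕ, 1 ≤ M ∧ ∃ p0 : ℕ, ∀ (p : ℕ) [Fact p.Prime],
    p0 ≤ p → ∀ c : Fin M → ZMod p, Function.Injective c →
    ∀ S : Finset (Pos p × ZMod p), S.card ≤ p ^ 2 →
    ∃ f : Pos p → Option (ZMod p), (∀ i v, f i = some v → (i, v) ∉ S) ∧
      (1 - δ) * (M * p) ≤ ((univ.filter (fun x : Pt M p => Covers c f x)).card : ℝ) := by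
  wlog hδ1 : δ ≤ 1 with H
  · push Not at hδ1
    obtain ⟨M, hM, p0, h⟩ := H one_pos le_rfl
    refine ⟨M, hM, p0, ?_⟩
    intro p _ hp c hc S hS
    obtain ⟨f, h1, h2⟩ := h p hp c hc S hS
    refine ⟨f, h1, le_trans ?_ h2⟩
    apply mul_le_mul_of_nonneg_right (by linarith) (by positivity)
  obtain ⟨M', hM'⟩ := exists_nat_ge (64 / δ ^ 2)
  set M := M' + 1 with hMdef
  have hM1 : 1 ≤ M := by omega
  have hM2 : 64 / δ ^ 2 ≤ M := by rw [hMdef]; push_cast; linarith
  have hsqrt : 8 / δ ≤ Real.sqrt M := by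
    apply Real.le_sqrt_of_sq_le
    rw [div_pow]; norm_num; exact hM2
  obtain ⟨b0, hb0, hnib⟩ := nibble (M + 1) (η := δ / 4) (by positivity)
  obtain ⟨p1, hp1⟩ := exists_nat_ge (2 / b0)
  obtain ⟨p2, hp2⟩ := exists_nat_ge (4 / δ)
  refine ⟨M, hM1, max p1 p2, ?_⟩
  intro p _ hpp c hc S hS
  have hp : (0 : ℝ) < p := by exact_mod_cast (Fact.out : p.Prime).pos
  have hpn : 0 < p := (Fact.out : p.Prime).pos
  have hpb : 2 / (p : ℝ) ≤ b0 := by
    have : 2 / b0 ≤ p := hp1.trans (by exact_mod_cast (le_max_left _ _).trans hpp)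
    rw [div_le_iff₀ hb0] at this
    rw [div_le_iff₀ hp]; linarith
  have hpδ : 1 / (p : ℝ) ≤ δ / 4 := by
    have : 4 / δ ≤ p := hp2.trans (by exact_mod_cast (le_max_right _ _).trans hpp)
    rw [div_le_iff₀ hδ] at this
    rw [div_le_iff₀ hp]; linarith
  set NA := (univ \ S).card with hNA
  have hNAge : p ^ 2 ≤ NA := by
    have h1 : NA = 2 * p ^ 2 - S.card := by
      rw [hNA, card_sdiff_of_subset (subset_univ _), card_univ, Fintype.card_prod,
        Fintype.card_prod, ZMod.card, Fintype.card_fin]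
      congr 1
      ring
    omega
  have hNApos : (0 : ℝ) < NA := by
    have : 0 < NA := lt_of_lt_of_le (by positivity) hNAge
    exact_mod_cast this
  have hNAge' : (p : ℝ) ^ 2 ≤ NA := by exact_mod_cast hNAge
  set w0 : ℝ := (p : ℝ) / NA with hw0
  have hw00 : 0 ≤ w0 := by positivity
  have hw0p : w0 * p ≤ 1 := by
    rw [hw0, div_mul_eq_mul_div, div_le_one hNApos]; nlinarith
  have hchoose : ∀ x : Pt M p, ∃ t ⊆ alive c S x, t.card = min (alive c S x).card (NA / p) :=
    fun x => exists_subset_card_eq (min_le_left _ _)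
  choose cred hcsub hccard using hchoose
  have hcred : ∀ x, ∀ i ∈ cred x, (i, cell c i x) ∉ S := by
    intro x i hi
    have := hcsub x hi
    exact (mem_filter.mp this).2
  have hload : ∀ x, w0 * (cred x).card ≤ 1 := by
    intro x
    have h1 : ((cred x).card : ℝ) ≤ (NA : ℝ) / p := by
      calc ((cred x).card : ℝ) ≤ ((NA / p : ℕ) : ℝ) := by
            rw [hccard x]; exact_mod_cast min_le_right _ _
        _ ≤ (NA : ℝ) / p := Nat.cast_div_le
    calc w0 * (cred x).card ≤ w0 * ((NA : ℝ) / p) := mul_le_mul_of_nonneg_left h1 hw00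
      _ = 1 := by rw [hw0]; field_simp
  have hsys := sys c S cred hcred hc hw00 hw0p hload
  obtain ⟨M0, hM01, hM02⟩ := hnib _ _ (es c cred) (ws c S cred w0) (2 / p) (by positivity) hpb
    hsys (vs c cred) (by rintro (a | z) <;> simp [vs])
  obtain ⟨f, hf1, hf2⟩ := exists_selection c S cred hcred M0 hM01
  refine ⟨f, hf1, le_trans ?_ (hM02.trans hf2)⟩
  rw [sum_w_val c S cred hcred]
  have hge := sum_cred_ge c hc S cred hccard
  have h5 : (M * p : ℝ) * (1 - δ / 2) ≤ w0 * ∑ x, ((cred x).card : ℝ) := by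
    have hMr : (0 : ℝ) < M := by exact_mod_cast hM1
    have hs := Real.sq_sqrt (Nat.cast_nonneg (α := ℝ) M)
    have hs0 : 0 < Real.sqrt M := Real.sqrt_pos.mpr hMr
    calc (M * p : ℝ) * (1 - δ / 2) ≤ M * p - (2 * Real.sqrt M * p + M) := by
          -- 2 √M ≤ (δ/4) M and 1 ≤ (δ/4) p
          have g1 : 2 * Real.sqrt M ≤ δ / 4 * M := by
            have : 8 ≤ δ * Real.sqrt M := by
              rw [div_le_iff₀ hδ] at hsqrt; linarith
            nlinarith
          have g2 : 1 ≤ δ / 4 * p := by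
            rw [div_le_iff₀ hp] at hpδ; linarith
          nlinarith
      _ ≤ w0 * ((M * p : ℝ) * ((NA : ℝ) / p) - 2 * Real.sqrt M * p ^ 2 - M * p) := by
          have g3 : w0 * ((M * p : ℝ) * ((NA : ℝ) / p)) = M * p := by
            rw [hw0]; field_simp
          have g4 : w0 * (2 * Real.sqrt M * p ^ 2 + M * p) ≤ 2 * Real.sqrt M * p + M := by
            have : w0 * (2 * Real.sqrt M * p ^ 2 + M * p) =
              (w0 * p) * (2 * Real.sqrt M * p + M) := by ring
            rw [this]
            have g5 : 0 ≤ 2 * Real.sqrt M * p + M := by positivity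
            nlinarith
          have g6 : w0 * ((M * p : ℝ) * ((NA : ℝ) / p) - 2 * Real.sqrt M * p ^ 2 - M * p) =
            w0 * ((M * p : ℝ) * ((NA : ℝ) / p)) - w0 * (2 * Real.sqrt M * p ^ 2 + M * p) := by
            ring
          rw [g6, g3]
          linarith
      _ ≤ _ := mul_le_mul_of_nonneg_left hge hw00
  have hMp : (0 : ℝ) ≤ M * p := by positivity
  calc (1 - δ) * (M * p) ≤ (1 - δ / 4) * ((M * p : ℝ) * (1 - δ / 2)) := by nlinarith
    _ ≤ (1 - δ / 4) * (w0 * ∑ x, ((cred x).card : ℝ)) :=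
        mul_le_mul_of_nonneg_left h5 (by linarith)

end Pool.Agent.Q296.Net
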