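import Mathlib

/-!
# Weighted nibble for set systems with small codegrees

A wasteful random greedy process run for `T` rounds, written with explicit finite averages.
-/

set_option linter.unusedSectionVars false
set_option linter.unusedVariables false

namespace Pool.Agent.Q296.Nibble

open Finset

section process

variable {V ι : Type} [Fintype V] [DecidableEq V] [Fintype ι] [DecidableEq ι]

/-- members of the system contained in `U` -/
def avail (e : ι → Finset V) (U : Finset V) : Finset ι := univ.filter (fun j => e j ⊆ U)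

lemma mem_avail {e : ι → Finset V} {U : Finset V} {j : ι} : j ∈ avail e U ↔ e j ⊆ U := by
  simp [avail]

/-- probability that the chosen subset of `S` is exactly `A` -/
noncomputable def prob (p : ι → ℝ) (S A : Finset ι) : ℝ :=
  (∏ j ∈ A, p j) * ∏ j ∈ S \ A, (1 - p j)

lemma prob_nonneg {p : ι → ℝ} (hp0 : ∀ j, 0 ≤ p j) (hp1 : ∀ j, p j ≤ 1) (S A : Finset ι) :
    0 ≤ prob p S A :=
  mul_nonneg (prod_nonneg fun j _ => hp0 j) (prod_nonneg fun j _ => by linarith [hp1 j])

lemma sum_prob_prod (p α β : ι → ℝ) (S : Finset ι) :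
    ∑ A ∈ S.powerset, prob p S A * ((∏ j ∈ A, α j) * ∏ j ∈ S \ A, β j) =
      ∏ j ∈ S, (p j * α j + (1 - p j) * β j) := by
  rw [prod_add]
  apply sum_congr rfl
  intro A _
  unfold prob
  rw [prod_mul_distrib, prod_mul_distrib]
  ring

lemma sum_prob (p : ι → ℝ) (S : Finset ι) : ∑ A ∈ S.powerset, prob p S A = 1 := by
  have := sum_prob_prod p (fun _ => 1) (fun _ => 1) S
  simp only [prod_const_one, mul_one] at this
  rw [this]
  apply prod_eq_one
  intro j _
  ring

/-- one round: choose a random subset `A` of the available members and delete everything they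
touch -/
noncomputable def B (p : ι → ℝ) (e : ι → Finset V) (F : Finset V → ℝ) (U : Finset V) : ℝ :=
  ∑ A ∈ (avail e U).powerset, prob p (avail e U) A * F (U \ A.biUnion e)

lemma B_add (p : ι → ℝ) (e : ι → Finset V) (F G : Finset V → ℝ) :
    B p e (fun U => F U + G U) = fun U => B p e F U + B p e G U := by
  funext U
  simp [B, mul_add, sum_add_distrib]

lemma B_smul (p : ι → ℝ) (e : ι → Finset V) (c : ℝ) (F : Finset V → ℝ) :
    B p e (fun U => c * F U) = fun U => c * B p e F U := by
  funext U
  simp only [B, mul_sum]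
  apply sum_congr rfl
  intro A _
  ring

lemma B_mono {p : ι → ℝ} (hp0 : ∀ j, 0 ≤ p j) (hp1 : ∀ j, p j ≤ 1) (e : ι → Finset V)
    {F G : Finset V → ℝ} (h : ∀ U, F U ≤ G U) (U : Finset V) : B p e F U ≤ B p e G U :=
  sum_le_sum fun A _ => mul_le_mul_of_nonneg_left (h _) (prob_nonneg hp0 hp1 _ _)

lemma B_const (p : ι → ℝ) (e : ι → Finset V) (c : ℝ) : B p e (fun _ => c) = fun _ => c := by
  funext U
  simp only [B]
  rw [← sum_mul, sum_prob, one_mul]

/-- expectation after `t` rounds -/
noncomputable def E (p : ℕ → ι → ℝ) (e : ι → Finset V) : ℕ → (Finset V → ℝ) → ℝ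
  | 0, F => F univ
  | t + 1, F => E p e t (B (p t) e F)

variable (p : ℕ → ι → ℝ) (e : ι → Finset V)

lemma E_add (t : ℕ) (F G : Finset V → ℝ) :
    E p e t (fun U => F U + G U) = E p e t F + E p e t G := by
  induction t generalizing F G with
  | zero => rfl
  | succ t ih => simp only [E]; rw [B_add, ih]

lemma E_smul (t : ℕ) (c : ℝ) (F : Finset V → ℝ) :
    E p e t (fun U => c * F U) = c * E p e t F := by
  induction t generalizing F with
  | zero => rfl
  | succ t ih => simp only [E]; rw [B_smul, ih]

lemma E_const (t : ℕ) (c : ℝ) : E p e t (fun _ => c) = c := by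
  induction t with
  | zero => rfl
  | succ t ih => simp only [E]; rw [B_const, ih]

lemma E_sum {κ : Type*} (t : ℕ) (s : Finset κ) (F : κ → Finset V → ℝ) :
    E p e t (fun U => ∑ k ∈ s, F k U) = ∑ k ∈ s, E p e t (F k) := by
  classical
  induction s using Finset.induction_on with
  | empty => simp [E_const]
  | insert a s ha ih => simp only [sum_insert ha]; rw [E_add, ih]

variable {p e}

lemma E_mono {t : ℕ} (hp0 : ∀ s < t, ∀ j, 0 ≤ p s j) (hp1 : ∀ s < t, ∀ j, p s j ≤ 1)
    {F G : Finset V → ℝ} (h : ∀ U, F U ≤ G U) : E p e t F ≤ E p e t G := by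
  induction t generalizing F G with
  | zero => exact h _
  | succ t ih =>
    simp only [E]
    exact ih (fun s hs => hp0 s (by omega)) (fun s hs => hp1 s (by omega))
      (fun U => B_mono (hp0 t (by omega)) (hp1 t (by omega)) e h U)

/-- members of the system meeting `Y` -/
def hit (e : ι → Finset V) (Y : Finset V) : Finset ι := univ.filter (fun j => ¬ Disjoint (e j) Y)

lemma mem_hit {Y : Finset V} {j : ι} : j ∈ hit e Y ↔ ¬ Disjoint (e j) Y := by simp [hit]

/-- indicator of `Y ⊆ U` -/
noncomputable def ind (Y U : Finset V) : ℝ := if Y ⊆ U then 1 else 0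

lemma ind_nonneg (Y U : Finset V) : 0 ≤ ind Y U := by unfold ind; split_ifs <;> norm_num

lemma ind_le (Y U : Finset V) : ind Y U ≤ 1 := by unfold ind; split_ifs <;> norm_num

lemma ind_union (Y Z U : Finset V) : ind (Y ∪ Z) U = ind Y U * ind Z U := by
  unfold ind
  by_cases h1 : Y ⊆ U <;> by_cases h2 : Z ⊆ U <;> simp [h1, h2, union_subset_iff]

lemma B_ind (q : ι → ℝ) (e : ι → Finset V) (Y U : Finset V) :
    B q e (ind Y) U = ind Y U * ∏ j ∈ avail e U ∩ hit e Y, (1 - q j) := by
  unfold B
  have h1 : ∀ A ∈ (avail e U).powerset, prob q (avail e U) A * ind Y (U \ A.biUnion e) =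
      ind Y U * (prob q (avail e U) A * ((∏ j ∈ A, if Disjoint (e j) Y then (1 : ℝ) else 0) *
        ∏ j ∈ avail e U \ A, (1 : ℝ))) := by
    intro A _
    have : ind Y (U \ A.biUnion e) = ind Y U * ∏ j ∈ A, if Disjoint (e j) Y then (1 : ℝ) else 0 := by
      rw [prod_boole]
      unfold ind
      by_cases h : Y ⊆ U
      · by_cases h2 : ∀ j ∈ A, Disjoint (e j) Y
        · rw [if_pos, if_pos h, if_pos h2, mul_one]
          rw [subset_sdiff]
          refine ⟨h, ?_⟩
          rw [disjoint_biUnion_right]
          intro j hj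
          exact (h2 j hj).symm
        · rw [if_neg, if_pos h, if_neg h2, mul_zero]
          intro h3
          apply h2
          rw [subset_sdiff, disjoint_biUnion_right] at h3
          intro j hj
          exact (h3.2 j hj).symm
      · rw [if_neg, if_neg h, zero_mul]
        intro h3
        exact h (h3.trans sdiff_subset)
    rw [this, prod_const_one, mul_one]
    ring
  rw [sum_congr rfl h1, ← mul_sum, sum_prob_prod]
  congr 1
  rw [← prod_filter_mul_prod_filter_not (avail e U) (fun j => ¬ Disjoint (e j) Y)]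
  have h2 : ∏ j ∈ (avail e U).filter (fun j => ¬ ¬ Disjoint (e j) Y),
      (q j * (if Disjoint (e j) Y then (1 : ℝ) else 0) + (1 - q j) * 1) = 1 := by
    apply prod_eq_one
    intro j hj
    have := (mem_filter.mp hj).2
    rw [not_not] at this
    rw [if_pos this]
    ring
  rw [h2, mul_one]
  have h3 : avail e U ∩ hit e Y = (avail e U).filter (fun j => ¬ Disjoint (e j) Y) := by
    ext j
    simp [mem_hit]
  rw [h3]
  apply prod_congr rfl
  intro j hj
  have := (mem_filter.mp hj).2
  rw [if_neg this]
  ring

/-- survival probability of `Y` after `t` rounds -/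
noncomputable def P (p : ℕ → ι → ℝ) (e : ι → Finset V) (t : ℕ) (Y : Finset V) : ℝ :=
  E p e t (ind Y)

lemma P_succ (t : ℕ) (Y : Finset V) : P p e (t + 1) Y =
    E p e t (fun U => ind Y U * ∏ j ∈ avail e U ∩ hit e Y, (1 - p t j)) := by
  unfold P
  simp only [E]
  congr 1
  funext U
  exact B_ind _ _ _ _

/-- conflict-free part of a chosen set -/
def free (e : ι → Finset V) (A : Finset ι) : Finset ι :=
  A.filter (fun j => ∀ j' ∈ A, j' ≠ j → Disjoint (e j) (e j'))

/-- expected gain of one round -/
noncomputable def gain (q : ι → ℝ) (e : ι → Finset V) (val : ι → ℝ) (U : Finset V) : ℝ :=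
  ∑ A ∈ (avail e U).powerset, prob q (avail e U) A * ∑ j ∈ free e A, val j

lemma gain_ge {q : ι → ℝ} (hq0 : ∀ j, 0 ≤ q j) (hq1 : ∀ j, q j ≤ 1) (e : ι → Finset V)
    (hne : ∀ j, (e j).Nonempty) {val : ι → ℝ} (hval : ∀ j, 0 ≤ val j) (U : Finset V) :
    ∑ j, val j * q j * B q e (ind (e j)) U ≤ gain q e val U := by
  unfold gain
  -- rewrite the gain as a sum over members
  have h1 : ∀ A ∈ (avail e U).powerset, prob q (avail e U) A * ∑ j ∈ free e A, val j =
      ∑ j, val j * (if j ∈ avail e U then prob q (avail e U) A *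
        ((∏ i ∈ A, if i = j then (1 : ℝ) else if Disjoint (e j) (e i) then 1 else 0) *
          ∏ i ∈ avail e U \ A, if i = j then (0 : ℝ) else 1) else 0) := by
    intro A hA
    rw [mem_powerset] at hA
    have h2 : ∑ j ∈ free e A, val j = ∑ j, val j * if j ∈ free e A then 1 else 0 := by
      simp [Finset.sum_ite_mem, mul_ite]
    rw [h2, mul_sum]
    apply sum_congr rfl
    intro j _
    by_cases hj : j ∈ avail e U
    · rw [if_pos hj]
      have h3 : (if j ∈ free e A then (1 : ℝ) else 0) =
          (∏ i ∈ A, if i = j then (1 : ℝ) else if Disjoint (e j) (e i) then 1 else 0) *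
          ∏ i ∈ avail e U \ A, if i = j then (0 : ℝ) else 1 := by
        by_cases hjA : j ∈ A
        · have h4 : ∏ i ∈ avail e U \ A, (if i = j then (0 : ℝ) else 1) = 1 := by
            apply prod_eq_one
            intro i hi
            rw [if_neg]
            rintro rfl
            exact (mem_sdiff.mp hi).2 hjA
          rw [h4, mul_one]
          by_cases hfree : j ∈ free e A
          · rw [if_pos hfree]
            symm
            apply prod_eq_one
            intro i hi
            by_cases hij : i = j
            · rw [if_pos hij]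
            · rw [if_neg hij, if_pos]
              exact (mem_filter.mp hfree).2 i hi hij
          · rw [if_neg hfree]
            have : ∃ i ∈ A, i ≠ j ∧ ¬ Disjoint (e j) (e i) := by
              by_contra hcon
              push Not at hcon
              exact hfree (mem_filter.mpr ⟨hjA, hcon⟩)
            obtain ⟨i, hi, hij, hd⟩ := this
            symm
            apply prod_eq_zero hi
            rw [if_neg hij, if_neg hd]
        · have h4 : ∏ i ∈ avail e U \ A, (if i = j then (0 : ℝ) else 1) = 0 := by
            apply prod_eq_zero (mem_sdiff.mpr ⟨hj, hjA⟩)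
            rw [if_pos rfl]
          rw [h4, mul_zero, if_neg]
          intro h5
          exact hjA (mem_filter.mp h5).1
      rw [h3]
      ring
    · rw [if_neg hj, if_neg]
      · ring
      · intro h5
        exact hj (hA (mem_filter.mp h5).1)
  rw [sum_congr rfl h1, sum_comm]
  apply sum_le_sum
  intro j _
  rw [← mul_sum, mul_assoc]
  apply mul_le_mul_of_nonneg_left _ (hval j)
  rw [B_ind]
  by_cases hj : j ∈ avail e U
  · simp only [if_pos hj]
    rw [sum_prob_prod, ← mul_prod_erase _ _ hj]
    simp only [if_true, mul_one, mul_zero, add_zero]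
    apply mul_le_mul_of_nonneg_left _ (hq0 j)
    have h6 : ind (e j) U = 1 := by
      unfold ind
      rw [if_pos (mem_avail.mp hj)]
    rw [h6, one_mul]
    have hjhit : j ∈ avail e U ∩ hit e (e j) := by
      rw [mem_inter, mem_hit]
      refine ⟨hj, ?_⟩
      rw [disjoint_self_iff_empty]
      exact (hne j).ne_empty
    rw [← mul_prod_erase _ _ hjhit]
    have h7 : ∏ i ∈ (avail e U ∩ hit e (e j)).erase j, (1 - q i) =
        ∏ i ∈ (avail e U).erase j, (q i * (if i = j then (1 : ℝ) else
          if Disjoint (e j) (e i) then 1 else 0) + (1 - q i) * if i = j then (0 : ℝ) else 1) := by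
      rw [← prod_filter_mul_prod_filter_not ((avail e U).erase j) (fun i => ¬ Disjoint (e j) (e i))]
      have h8 : ∏ i ∈ ((avail e U).erase j).filter (fun i => ¬ ¬ Disjoint (e j) (e i)),
          (q i * (if i = j then (1 : ℝ) else
          if Disjoint (e j) (e i) then 1 else 0) + (1 - q i) * if i = j then (0 : ℝ) else 1) = 1 := by
        apply prod_eq_one
        intro i hi
        obtain ⟨hi1, hi2⟩ := mem_filter.mp hi
        rw [not_not] at hi2
        rw [if_neg (mem_erase.mp hi1).1, if_pos hi2, if_neg (mem_erase.mp hi1).1]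
        ring
      rw [h8, mul_one]
      have h9 : (avail e U ∩ hit e (e j)).erase j =
          ((avail e U).erase j).filter (fun i => ¬ Disjoint (e j) (e i)) := by
        ext i
        simp only [mem_erase, mem_inter, mem_hit, mem_filter, disjoint_comm (a := e j)]
        tauto
      rw [h9]
      apply prod_congr rfl
      intro i hi
      obtain ⟨hi1, hi2⟩ := mem_filter.mp hi
      rw [if_neg (mem_erase.mp hi1).1, if_neg hi2, if_neg (mem_erase.mp hi1).1]
      ring
    rw [← h7]
    have h10 : 0 ≤ ∏ i ∈ (avail e U ∩ hit e (e j)).erase j, (1 - q i) :=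
      prod_nonneg fun i _ => by linarith [hq1 i]
    nlinarith [hq0 j]
  · simp only [if_neg hj, sum_const_zero]
    have h6 : ind (e j) U = 0 := by
      unfold ind
      rw [if_neg (fun h => hj (mem_avail.mpr h))]
    rw [h6]
    simp

/-- expected total gain of `n` rounds starting with round `s` -/
noncomputable def G (p : ℕ → ι → ℝ) (e : ι → Finset V) (val : ι → ℝ) :
    ℕ → ℕ → Finset V → ℝ
  | 0, _, _ => 0
  | n + 1, s, U => gain (p s) e val U + B (p s) e (G p e val n (s + 1)) U

lemma E_G (val : ι → ℝ) (n s : ℕ) : E p e s (G p e val n s) =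
    ∑ i ∈ range n, E p e (s + i) (gain (p (s + i)) e val) := by
  induction n generalizing s with
  | zero =>
    have : G p e val 0 s = fun _ => (0 : ℝ) := by funext U; rfl
    rw [this, E_const]
    simp
  | succ n ih =>
    have : G p e val (n + 1) s = fun U => gain (p s) e val U +
      B (p s) e (G p e val n (s + 1)) U := by funext U; rfl
    rw [this, E_add, sum_range_succ']
    have h2 : E p e s (fun U => B (p s) e (G p e val n (s + 1)) U) =
      E p e (s + 1) (G p e val n (s + 1)) := rfl
    rw [h2, ih, add_comm]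
    congr 1
    apply sum_congr rfl
    intro i _
    have : s + 1 + i = s + (i + 1) := by omega
    rw [this]

lemma exists_ge_avg {q : ι → ℝ} (hq0 : ∀ j, 0 ≤ q j) (hq1 : ∀ j, q j ≤ 1) (S : Finset ι)
    (F : Finset ι → ℝ) : ∃ A, A ⊆ S ∧ ∑ A ∈ S.powerset, prob q S A * F A ≤ F A := by
  obtain ⟨A, hA, hmax⟩ := exists_max_image S.powerset F ⟨∅, by simp⟩
  refine ⟨A, mem_powerset.mp hA, ?_⟩
  calc ∑ A' ∈ S.powerset, prob q S A' * F A' ≤ ∑ A' ∈ S.powerset, prob q S A' * F A :=
        sum_le_sum fun A' hA' => mul_le_mul_of_nonneg_left (hmax A' hA') (prob_nonneg hq0 hq1 _ _)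
    _ = F A := by rw [← sum_mul, sum_prob, one_mul]

lemma exists_matching (hne : ∀ j, (e j).Nonempty) {val : ι → ℝ} (n s : ℕ)
    (hp0 : ∀ t < s + n, ∀ j, 0 ≤ p t j)
    (hp1 : ∀ t < s + n, ∀ j, p t j ≤ 1) (U : Finset V) :
    ∃ M : Finset ι, (∀ j ∈ M, e j ⊆ U) ∧ (∀ j ∈ M, ∀ j' ∈ M, j ≠ j' → Disjoint (e j) (e j')) ∧
      G p e val n s U ≤ ∑ j ∈ M, val j := by
  induction n generalizing s U with
  | zero => exact ⟨∅, by simp, by simp, by simp [G]⟩
  | succ n ih =>
    have hG : G p e val (n + 1) s U = ∑ A ∈ (avail e U).powerset, prob (p s) (avail e U) A *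
        (∑ j ∈ free e A, val j + G p e val n (s + 1) (U \ A.biUnion e)) := by
      simp only [G, gain, B, mul_add, sum_add_distrib]
    obtain ⟨A, hA, hle⟩ := exists_ge_avg (hp0 s (by omega)) (hp1 s (by omega)) (avail e U)
      (fun A => ∑ j ∈ free e A, val j + G p e val n (s + 1) (U \ A.biUnion e))
    obtain ⟨M, hM1, hM2, hM3⟩ := ih (s + 1) (fun t ht => hp0 t (by omega))
      (fun t ht => hp1 t (by omega)) (U \ A.biUnion e)
    have hcross : ∀ j ∈ free e A, ∀ j' ∈ M, Disjoint (e j) (e j') := by
      intro j hj j' hj'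
      have h1 := hM1 j' hj'
      rw [subset_sdiff] at h1
      have h2 := h1.2
      rw [disjoint_biUnion_right] at h2
      exact (h2 j (mem_filter.mp hj).1).symm
    have hdisj : Disjoint (free e A) M := by
      rw [disjoint_left]
      intro j hj hj'
      have := hcross j hj j hj'
      rw [disjoint_self_iff_empty] at this
      exact (hne j).ne_empty this
    refine ⟨free e A ∪ M, ?_, ?_, ?_⟩
    · intro j hj
      rcases mem_union.mp hj with h | h
      · exact mem_avail.mp (hA (mem_filter.mp h).1)
      · exact (hM1 j h).trans sdiff_subset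
    · intro j hj j' hj' hne
      rcases mem_union.mp hj with h | h <;> rcases mem_union.mp hj' with h' | h'
      · exact (mem_filter.mp h).2 j' (mem_filter.mp h').1 hne.symm
      · exact hcross j h j' h'
      · exact (hcross j' h' j h).symm
      · exact hM2 j h j' h' hne
    · rw [sum_union hdisj, hG]
      exact hle.trans (by linarith)

end process

end Pool.Agent.Q296.Nibble
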