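import Pool.Agent.Q296.Nibble

/-!
# Weighted nibble: survival probabilities
-/

set_option linter.unusedSectionVars false
set_option linter.unusedVariables false

namespace Pool.Agent.Q296.Nibble

open Finset

section sys

variable {V ι : Type} [Fintype V] [DecidableEq V] [Fintype ι] [DecidableEq ι]

/-- a weighted system with all loads one, small weights and small codegrees -/
structure Sys (K : ℕ) (b : ℝ) (e : ι → Finset V) (w : ι → ℝ) : Prop where
  nonneg : ∀ j, 0 ≤ w j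
  le_b : ∀ j, w j ≤ b
  card_le : ∀ j, (e j).card ≤ K
  nonempty : ∀ j, (e j).Nonempty
  load : ∀ x, ∑ j with x ∈ e j, w j = 1
  codeg : ∀ x y, x ≠ y → ∑ j with (x ∈ e j ∧ y ∈ e j), w j ≤ b

variable {K : ℕ} {b : ℝ} {e : ι → Finset V} {w : ι → ℝ}

lemma sum_inter (h : Sys K b e w) (Y : Finset V) :
    ∑ j, w j * ((e j ∩ Y).card : ℝ) = Y.card := by
  have h1 : ∀ j, w j * ((e j ∩ Y).card : ℝ) = ∑ y ∈ Y, if y ∈ e j then w j else 0 := by
    intro j
    have h2 : Y.filter (fun y => y ∈ e j) = e j ∩ Y := by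
      ext y
      simp [and_comm]
    rw [← sum_filter, sum_const, nsmul_eq_mul, mul_comm, h2]
  simp only [h1]
  rw [sum_comm]
  have h2 : ∀ y ∈ Y, ∑ j, (if y ∈ e j then w j else 0) = 1 := by
    intro y _
    rw [← sum_filter]
    exact h.load y
  rw [sum_congr rfl h2]
  simp

lemma inter_pos {Y : Finset V} {j : ι} (hj : j ∈ hit e Y) : 1 ≤ (e j ∩ Y).card := by
  rw [mem_hit, not_disjoint_iff] at hj
  obtain ⟨x, h1, h2⟩ := hj
  exact card_pos.mpr ⟨x, mem_inter.mpr ⟨h1, h2⟩⟩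

lemma inter_zero {Y : Finset V} {j : ι} (hj : j ∉ hit e Y) : (e j ∩ Y).card = 0 := by
  rw [mem_hit, not_not, disjoint_iff_inter_eq_empty] at hj
  rw [hj, card_empty]

lemma sum_hit_inter (h : Sys K b e w) (Y : Finset V) :
    ∑ j ∈ hit e Y, w j * ((e j ∩ Y).card : ℝ) = Y.card := by
  rw [← sum_inter h Y]
  apply sum_subset (subset_univ _)
  intro j _ hj
  rw [inter_zero hj]
  simp

lemma sum_hit_le (h : Sys K b e w) (Y : Finset V) : ∑ j ∈ hit e Y, w j ≤ Y.card := by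
  rw [← sum_hit_inter h Y]
  apply sum_le_sum
  intro j hj
  have h1 : (1 : ℝ) ≤ (e j ∩ Y).card := by exact_mod_cast inter_pos hj
  nlinarith [h.nonneg j]

lemma sum_two_le (h : Sys K b e w) (Y : Finset V) :
    ∑ j ∈ hit e Y, w j * (if 2 ≤ (e j ∩ Y).card then 1 else 0) ≤ (Y.card : ℝ) ^ 2 * b := by
  have hb : 0 ≤ b ∨ IsEmpty ι := by
    by_cases hι : IsEmpty ι
    · right; exact hι
    · left
      rw [not_isEmpty_iff] at hι
      obtain ⟨j⟩ := hι
      exact (h.nonneg j).trans (h.le_b j)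
  rcases hb with hb | hι
  swap
  · have : Y = ∅ := by
      by_contra hY
      obtain ⟨y, _⟩ := nonempty_iff_ne_empty.mpr hY
      have := h.load y
      simp at this
    subst this
    simp
  have h1 : ∀ j ∈ hit e Y, w j * (if 2 ≤ (e j ∩ Y).card then 1 else 0) ≤
      ∑ z ∈ Y.offDiag, if z.1 ∈ e j ∧ z.2 ∈ e j then w j else 0 := by
    intro j _
    split_ifs with h2
    · obtain ⟨x, hx, y, hy, hxy⟩ := one_lt_card.mp h2
      rw [mul_one]
      have hmem : (x, y) ∈ Y.offDiag :=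
        mem_offDiag.mpr ⟨(mem_inter.mp hx).2, (mem_inter.mp hy).2, hxy⟩
      calc w j = if x ∈ e j ∧ y ∈ e j then w j else 0 := by
            rw [if_pos ⟨(mem_inter.mp hx).1, (mem_inter.mp hy).1⟩]
        _ ≤ _ := single_le_sum (f := fun z : V × V => if z.1 ∈ e j ∧ z.2 ∈ e j then w j else 0)
            (fun z _ => by split_ifs; exact h.nonneg j; exact le_rfl) hmem
    · rw [mul_zero]
      exact sum_nonneg fun z _ => by split_ifs; exact h.nonneg j; exact le_rfl
  calc _ ≤ ∑ j ∈ hit e Y, ∑ z ∈ Y.offDiag, (if z.1 ∈ e j ∧ z.2 ∈ e j then w j else 0) :=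
        sum_le_sum h1
    _ ≤ ∑ j, ∑ z ∈ Y.offDiag, (if z.1 ∈ e j ∧ z.2 ∈ e j then w j else 0) := by
        apply sum_le_sum_of_subset_of_nonneg (subset_univ _)
        intro j _ _
        exact sum_nonneg fun z _ => by split_ifs; exact h.nonneg j; exact le_rfl
    _ = ∑ z ∈ Y.offDiag, ∑ j, (if z.1 ∈ e j ∧ z.2 ∈ e j then w j else 0) := sum_comm
    _ ≤ ∑ z ∈ Y.offDiag, b := by
        apply sum_le_sum
        intro z hz
        rw [← sum_filter]
        exact h.codeg _ _ (mem_offDiag.mp hz).2.2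
    _ = (Y.offDiag.card : ℝ) * b := by rw [sum_const, nsmul_eq_mul]
    _ ≤ (Y.card : ℝ) ^ 2 * b := by
        apply mul_le_mul_of_nonneg_right _ hb
        rw [offDiag_card]
        have : Y.card * Y.card - Y.card ≤ Y.card ^ 2 := by rw [sq]; omega
        exact_mod_cast this

lemma sum_meet_le (h : Sys K b e w) (hb : 0 ≤ b) (Y : Finset V) (j : ι) :
    ∑ j' ∈ hit e Y, w j' * (if ¬ Disjoint (e j \ Y) (e j' \ Y) then 1 else 0) ≤
      (K : ℝ) * Y.card * b := by
  have h1 : ∀ j' ∈ hit e Y, w j' * (if ¬ Disjoint (e j \ Y) (e j' \ Y) then 1 else 0) ≤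
      ∑ z ∈ (e j \ Y) ×ˢ Y, if z.1 ∈ e j' ∧ z.2 ∈ e j' then w j' else 0 := by
    intro j' hj'
    split_ifs with h2
    · rw [mul_zero]
      exact sum_nonneg fun z _ => by split_ifs; exact h.nonneg j'; exact le_rfl
    · rw [not_disjoint_iff] at h2
      obtain ⟨x, hx, hx'⟩ := h2
      rw [mem_hit, not_disjoint_iff] at hj'
      obtain ⟨y, hy, hy'⟩ := hj'
      rw [mul_one]
      have hmem : (x, y) ∈ (e j \ Y) ×ˢ Y := mem_product.mpr ⟨hx, hy'⟩
      calc w j' = if x ∈ e j' ∧ y ∈ e j' then w j' else 0 := by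
            rw [if_pos ⟨(mem_sdiff.mp hx').1, hy⟩]
        _ ≤ _ := single_le_sum (f := fun z : V × V => if z.1 ∈ e j' ∧ z.2 ∈ e j' then w j' else 0)
            (fun z _ => by split_ifs; exact h.nonneg j'; exact le_rfl) hmem
  calc _ ≤ ∑ j' ∈ hit e Y, ∑ z ∈ (e j \ Y) ×ˢ Y, (if z.1 ∈ e j' ∧ z.2 ∈ e j' then w j' else 0) :=
        sum_le_sum h1
    _ ≤ ∑ j', ∑ z ∈ (e j \ Y) ×ˢ Y, (if z.1 ∈ e j' ∧ z.2 ∈ e j' then w j' else 0) := by
        apply sum_le_sum_of_subset_of_nonneg (subset_univ _)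
        intro j' _ _
        exact sum_nonneg fun z _ => by split_ifs; exact h.nonneg j'; exact le_rfl
    _ = ∑ z ∈ (e j \ Y) ×ˢ Y, ∑ j', (if z.1 ∈ e j' ∧ z.2 ∈ e j' then w j' else 0) := sum_comm
    _ ≤ ∑ z ∈ (e j \ Y) ×ˢ Y, b := by
        apply sum_le_sum
        intro z hz
        rw [← sum_filter]
        apply h.codeg
        rintro heq
        have h3 := mem_product.mp hz
        exact (mem_sdiff.mp h3.1).2 (heq ▸ h3.2)
    _ = (((e j \ Y) ×ˢ Y).card : ℝ) * b := by rw [sum_const, nsmul_eq_mul]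
    _ ≤ (K : ℝ) * Y.card * b := by
        apply mul_le_mul_of_nonneg_right _ hb
        rw [card_product]
        push_cast
        apply mul_le_mul_of_nonneg_right _ (Nat.cast_nonneg _)
        exact_mod_cast (card_le_card sdiff_subset).trans (h.card_le j)

/-- weights in round `t` -/
noncomputable def wt (γ : ℝ) (e : ι → Finset V) (w : ι → ℝ) (t : ℕ) (j : ι) : ℝ :=
  w j * Real.exp (γ * t * (((e j).card : ℝ) - 1))

/-- choice probabilities in round `t` -/
noncomputable def pr (γ : ℝ) (e : ι → Finset V) (w : ι → ℝ) (t : ℕ) (j : ι) : ℝ :=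
  γ * wt γ e w t j

lemma wt_nonneg (h : Sys K b e w) (γ : ℝ) (t : ℕ) (j : ι) : 0 ≤ wt γ e w t j :=
  mul_nonneg (h.nonneg j) (Real.exp_pos _).le

lemma wt_le (h : Sys K b e w) {γ : ℝ} (hγ : 0 ≤ γ) (t : ℕ) (j : ι) :
    wt γ e w t j ≤ w j * Real.exp (γ * t * K) := by
  apply mul_le_mul_of_nonneg_left _ (h.nonneg j)
  apply Real.exp_le_exp.mpr
  apply mul_le_mul_of_nonneg_left _ (by positivity)
  have : ((e j).card : ℝ) ≤ K := by exact_mod_cast h.card_le j
  linarith

lemma wt_le' (h : Sys K b e w) {γ : ℝ} (hγ : 0 ≤ γ) {s t : ℕ} (hst : s ≤ t) (j : ι) :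
    wt γ e w s j ≤ b * Real.exp (γ * t * K) := by
  refine (wt_le h hγ s j).trans ?_
  apply mul_le_mul (h.le_b j) _ (Real.exp_pos _).le ((h.nonneg j).trans (h.le_b j))
  apply Real.exp_le_exp.mpr
  have : (s : ℝ) ≤ t := by exact_mod_cast hst
  gcongr

lemma wt_mul_exp (γ : ℝ) (t : ℕ) (j : ι) (m : ℝ) :
    wt γ e w t j * Real.exp (-(γ * t * (m + (((e j).card : ℝ) - 1)))) =
      w j * Real.exp (-(γ * t * m)) := by
  unfold wt
  rw [mul_assoc, ← Real.exp_add]
  congr 2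
  ring

lemma abs_E_sub_le {p : ℕ → ι → ℝ} {t : ℕ} (hp0 : ∀ s < t, ∀ j, 0 ≤ p s j)
    (hp1 : ∀ s < t, ∀ j, p s j ≤ 1) {F G H : Finset V → ℝ} (h : ∀ U, |F U - G U| ≤ H U) :
    |E p e t F - E p e t G| ≤ E p e t H := by
  have h1 : E p e t F ≤ E p e t (fun U => G U + H U) :=
    E_mono hp0 hp1 fun U => by linarith [(abs_le.mp (h U)).2]
  have h2 : E p e t G ≤ E p e t (fun U => F U + H U) :=
    E_mono hp0 hp1 fun U => by linarith [(abs_le.mp (h U)).1]
  rw [E_add] at h1 h2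
  rw [abs_le]
  constructor <;> linarith

lemma P_nonneg {p : ℕ → ι → ℝ} {t : ℕ} (hp0 : ∀ s < t, ∀ j, 0 ≤ p s j)
    (hp1 : ∀ s < t, ∀ j, p s j ≤ 1) (Y : Finset V) : 0 ≤ P p e t Y := by
  have := E_mono (e := e) hp0 hp1 (F := fun _ => 0) (G := ind Y) (fun U => ind_nonneg Y U)
  rwa [E_const] at this

lemma P_le_one {p : ℕ → ι → ℝ} {t : ℕ} (hp0 : ∀ s < t, ∀ j, 0 ≤ p s j)
    (hp1 : ∀ s < t, ∀ j, p s j ≤ 1) (Y : Finset V) : P p e t Y ≤ 1 := by
  have := E_mono (e := e) hp0 hp1 (F := ind Y) (G := fun _ => 1) (fun U => ind_le Y U)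
  rwa [E_const] at this

/-- first-order terms -/
lemma term_one (h : Sys K b e w) {γ : ℝ} (hγ : 0 ≤ γ) {t m : ℕ} {ε : ℝ} (hε : 0 ≤ ε)
    {Pt : Finset V → ℝ} (hP0 : ∀ Z, 0 ≤ Pt Z) (hP1 : ∀ Z, Pt Z ≤ 1)
    (hPt : ∀ Z, Z.card ≤ m + 2 * K → |Pt Z - Real.exp (-(γ * t * Z.card))| ≤ ε)
    {Y : Finset V} (hY : Y.card ≤ m) {j : ι} (hj : j ∈ hit e Y) :
    |wt γ e w t j * Pt (Y ∪ e j) - w j * (e j ∩ Y).card * Real.exp (-(γ * t * Y.card))| ≤
      w j * (Real.exp (γ * t * K) * ε + (Real.exp (γ * t * K) + K) *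
        (if 2 ≤ (e j ∩ Y).card then 1 else 0)) := by
  have hw := h.nonneg j
  have hwt0 := wt_nonneg h γ t j
  have hwt := wt_le h hγ t j
  have hW : 0 < Real.exp (γ * t * K) := Real.exp_pos _
  have h1 := inter_pos hj
  by_cases h2 : 2 ≤ (e j ∩ Y).card
  · rw [if_pos h2]
    have e1 : |wt γ e w t j * Pt (Y ∪ e j)| ≤ w j * Real.exp (γ * t * K) := by
      rw [abs_of_nonneg (mul_nonneg hwt0 (hP0 _))]
      calc wt γ e w t j * Pt (Y ∪ e j) ≤ wt γ e w t j * 1 :=
            mul_le_mul_of_nonneg_left (hP1 _) hwt0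
        _ ≤ _ := by rw [mul_one]; exact hwt
    have e2 : |w j * (e j ∩ Y).card * Real.exp (-(γ * t * Y.card))| ≤ w j * K := by
      rw [abs_of_nonneg (by positivity)]
      have e3 : Real.exp (-(γ * t * Y.card)) ≤ 1 := by
        rw [Real.exp_le_one_iff]
        have : 0 ≤ γ * t * (Y.card : ℝ) := by positivity
        linarith
      have e4 : ((e j ∩ Y).card : ℝ) ≤ K := by
        exact_mod_cast (card_le_card inter_subset_left).trans (h.card_le j)
      calc w j * (e j ∩ Y).card * Real.exp (-(γ * t * Y.card)) ≤ w j * (e j ∩ Y).card * 1 := by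
            gcongr
        _ ≤ w j * K := by rw [mul_one]; gcongr
    calc _ ≤ |wt γ e w t j * Pt (Y ∪ e j)| + |w j * (e j ∩ Y).card *
          Real.exp (-(γ * t * Y.card))| := abs_sub _ _
      _ ≤ w j * Real.exp (γ * t * K) + w j * K := add_le_add e1 e2
      _ ≤ _ := by
        have : 0 ≤ w j * (Real.exp (γ * t * K) * ε) := by positivity
        nlinarith
  · rw [if_neg h2]
    have h3 : (e j ∩ Y).card = 1 := by omega
    have h4 : (Y ∪ e j).card + 1 = Y.card + (e j).card := by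
      rw [card_union_add_card_inter Y (e j) |>.symm, inter_comm, h3]
    have h5 : ((Y ∪ e j).card : ℝ) = Y.card + (((e j).card : ℝ) - 1) := by
      have : ((Y ∪ e j).card : ℝ) + 1 = Y.card + (e j).card := by exact_mod_cast h4
      linarith
    have h6 := hPt (Y ∪ e j) (by have := h.card_le j; omega)
    rw [h5] at h6
    have h7 := wt_mul_exp (e := e) (w := w) γ t j (Y.card : ℝ)
    rw [h3]
    have h8 : wt γ e w t j * Pt (Y ∪ e j) - w j * ((1 : ℕ) : ℝ) * Real.exp (-(γ * t * Y.card)) =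
        wt γ e w t j * (Pt (Y ∪ e j) -
          Real.exp (-(γ * t * (Y.card + (((e j).card : ℝ) - 1))))) := by
      rw [mul_sub, h7]; push_cast; ring
    rw [h8, abs_mul, abs_of_nonneg hwt0]
    calc wt γ e w t j * |Pt (Y ∪ e j) - Real.exp (-(γ * t * (Y.card + (((e j).card : ℝ) - 1))))|
        ≤ (w j * Real.exp (γ * t * K)) * ε := mul_le_mul hwt h6 (abs_nonneg _) (by positivity)
      _ = _ := by ring

/-- second-order terms -/
lemma term_two (h : Sys K b e w) {γ : ℝ} (hγ : 0 ≤ γ) {t m : ℕ} {ε : ℝ} (hε : 0 ≤ ε)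
    {Pt : Finset V → ℝ} (hP0 : ∀ Z, 0 ≤ Pt Z) (hP1 : ∀ Z, Pt Z ≤ 1)
    (hPt : ∀ Z, Z.card ≤ m + 2 * K → |Pt Z - Real.exp (-(γ * t * Z.card))| ≤ ε)
    {Y : Finset V} (hY : Y.card ≤ m) {j j' : ι} (hj : j ∈ hit e Y) (hj' : j' ∈ hit e Y) :
    |wt γ e w t j * wt γ e w t j' * Pt (Y ∪ e j ∪ e j') -
      (w j * (e j ∩ Y).card) * (w j' * (e j' ∩ Y).card) * Real.exp (-(γ * t * Y.card))| ≤
      w j * w j' * (Real.exp (γ * t * K) ^ 2 * ε + (Real.exp (γ * t * K) ^ 2 + (K : ℝ) ^ 2) *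
        ((if 2 ≤ (e j ∩ Y).card then 1 else 0) + (if 2 ≤ (e j' ∩ Y).card then 1 else 0) +
        (if ¬ Disjoint (e j \ Y) (e j' \ Y) then 1 else 0))) := by
  have hw := h.nonneg j
  have hw' := h.nonneg j'
  have hwt0 := wt_nonneg h γ t j
  have hwt := wt_le h hγ t j
  have hwt0' := wt_nonneg h γ t j'
  have hwt' := wt_le h hγ t j'
  set W := Real.exp (γ * t * K) with hWdef
  have hW : 0 < W := Real.exp_pos _
  have h1 := inter_pos hj
  have h1' := inter_pos hj'
  have hwtwt : wt γ e w t j * wt γ e w t j' ≤ w j * w j' * W ^ 2 := by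
    calc _ ≤ (w j * W) * (w j' * W) := mul_le_mul hwt hwt' hwt0' (by positivity)
      _ = _ := by ring
  by_cases hbad : 2 ≤ (e j ∩ Y).card ∨ 2 ≤ (e j' ∩ Y).card ∨ ¬ Disjoint (e j \ Y) (e j' \ Y)
  · have hone : (1 : ℝ) ≤ ((if 2 ≤ (e j ∩ Y).card then 1 else 0) +
        (if 2 ≤ (e j' ∩ Y).card then 1 else 0) +
        (if ¬ Disjoint (e j \ Y) (e j' \ Y) then 1 else 0)) := by
      rcases hbad with hb | hb | hb
      · rw [if_pos hb]
        split_ifs <;> norm_num
      · rw [if_pos hb]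
        split_ifs <;> norm_num
      · rw [if_pos hb]
        split_ifs <;> norm_num
    have e1 : |wt γ e w t j * wt γ e w t j' * Pt (Y ∪ e j ∪ e j')| ≤ w j * w j' * W ^ 2 := by
      rw [abs_of_nonneg (mul_nonneg (mul_nonneg hwt0 hwt0') (hP0 _))]
      calc _ ≤ wt γ e w t j * wt γ e w t j' * 1 :=
            mul_le_mul_of_nonneg_left (hP1 _) (mul_nonneg hwt0 hwt0')
        _ ≤ _ := by rw [mul_one]; exact hwtwt
    have e2 : |(w j * (e j ∩ Y).card) * (w j' * (e j' ∩ Y).card) *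
        Real.exp (-(γ * t * Y.card))| ≤ w j * w j' * (K : ℝ) ^ 2 := by
      rw [abs_of_nonneg (by positivity)]
      have e3 : Real.exp (-(γ * t * Y.card)) ≤ 1 := by
        rw [Real.exp_le_one_iff]
        have : 0 ≤ γ * t * (Y.card : ℝ) := by positivity
        linarith
      have e4 : ((e j ∩ Y).card : ℝ) ≤ K := by
        exact_mod_cast (card_le_card inter_subset_left).trans (h.card_le j)
      have e5 : ((e j' ∩ Y).card : ℝ) ≤ K := by
        exact_mod_cast (card_le_card inter_subset_left).trans (h.card_le j')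
      calc (w j * (e j ∩ Y).card) * (w j' * (e j' ∩ Y).card) * Real.exp (-(γ * t * Y.card))
          ≤ (w j * (e j ∩ Y).card) * (w j' * (e j' ∩ Y).card) * 1 := by gcongr
        _ ≤ (w j * K) * (w j' * K) * 1 := by gcongr
        _ = _ := by ring
    calc _ ≤ |wt γ e w t j * wt γ e w t j' * Pt (Y ∪ e j ∪ e j')| +
          |(w j * (e j ∩ Y).card) * (w j' * (e j' ∩ Y).card) *
            Real.exp (-(γ * t * Y.card))| := abs_sub _ _
      _ ≤ w j * w j' * W ^ 2 + w j * w j' * (K : ℝ) ^ 2 := add_le_add e1 e2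
      _ = w j * w j' * ((W ^ 2 + (K : ℝ) ^ 2) * 1) := by ring
      _ ≤ w j * w j' * (W ^ 2 * ε + (W ^ 2 + (K : ℝ) ^ 2) * _) := by
        apply mul_le_mul_of_nonneg_left _ (by positivity)
        have e6 : (W ^ 2 + (K : ℝ) ^ 2) * 1 ≤ (W ^ 2 + (K : ℝ) ^ 2) *
          ((if 2 ≤ (e j ∩ Y).card then 1 else 0) +
          (if 2 ≤ (e j' ∩ Y).card then 1 else 0) +
          (if ¬ Disjoint (e j \ Y) (e j' \ Y) then 1 else 0)) :=
          mul_le_mul_of_nonneg_left hone (by positivity)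
        have e7 : 0 ≤ W ^ 2 * ε := by positivity
        linarith
  · push Not at hbad
    obtain ⟨hb1, hb2, hb3⟩ := hbad
    rw [if_neg (by omega), if_neg (by omega), if_neg (by rw [not_not]; exact hb3)]
    have h3 : (e j ∩ Y).card = 1 := by omega
    have h3' : (e j' ∩ Y).card = 1 := by omega
    have h4 : (Y ∪ e j ∪ e j').card + 2 = Y.card + (e j).card + (e j').card := by
      have g1 : Y ∪ e j ∪ e j' = Y ∪ ((e j \ Y) ∪ (e j' \ Y)) := by
        ext x; simp only [mem_union, mem_sdiff]; tauto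
      have g2 : Disjoint Y ((e j \ Y) ∪ (e j' \ Y)) := by
        rw [disjoint_left]
        intro x hx hx'
        simp only [mem_union, mem_sdiff] at hx'
        tauto
      have g3 := card_sdiff_add_card_inter (e j) Y
      have g4 := card_sdiff_add_card_inter (e j') Y
      rw [g1, card_union_of_disjoint g2, card_union_of_disjoint hb3]
      omega
    have h5 : ((Y ∪ e j ∪ e j').card : ℝ) =
        Y.card + (((e j).card : ℝ) - 1) + (((e j').card : ℝ) - 1) := by
      have : ((Y ∪ e j ∪ e j').card : ℝ) + 2 = Y.card + (e j).card + (e j').card := by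
        exact_mod_cast h4
      linarith
    have h6 := hPt (Y ∪ e j ∪ e j') (by have := h.card_le j; have := h.card_le j'; omega)
    rw [h5] at h6
    have h7 := wt_mul_exp (e := e) (w := w) γ t j (Y.card : ℝ)
    have h7' := wt_mul_exp (e := e) (w := w) γ t j' (Y.card + (((e j).card : ℝ) - 1))
    rw [h3, h3']
    have h8 : wt γ e w t j * wt γ e w t j' * Pt (Y ∪ e j ∪ e j') -
        (w j * ((1 : ℕ) : ℝ)) * (w j' * ((1 : ℕ) : ℝ)) * Real.exp (-(γ * t * Y.card)) =
        wt γ e w t j * wt γ e w t j' * (Pt (Y ∪ e j ∪ e j') -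
          Real.exp (-(γ * t * (Y.card + (((e j).card : ℝ) - 1) + (((e j').card : ℝ) - 1))))) := by
      rw [mul_sub, mul_assoc (wt γ e w t j) (wt γ e w t j') (Real.exp _), h7']
      have : wt γ e w t j * (w j' * Real.exp (-(γ * t * (Y.card + (((e j).card : ℝ) - 1))))) =
        w j' * (w j * Real.exp (-(γ * t * Y.card))) := by rw [← h7]; ring
      rw [this]; push_cast; ring
    rw [h8, abs_mul, abs_of_nonneg (mul_nonneg hwt0 hwt0')]
    calc _ ≤ (w j * w j' * W ^ 2) * ε := mul_le_mul hwtwt h6 (abs_nonneg _) (by positivity)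
      _ = _ := by ring

end sys

end Pool.Agent.Q296.Nibble
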