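import Pool.Agent.Q296.Nibble2

/-!
# Weighted nibble: conclusion
-/

set_option linter.unusedSectionVars false
set_option linter.unusedVariables false

namespace Pool.Agent.Q296.Nibble

open Finset

section sys

variable {V ι : Type} [Fintype V] [DecidableEq V] [Fintype ι] [DecidableEq ι]
variable {K : ℕ} {b : ℝ} {e : ι → Finset V} {w : ι → ℝ}

/-- available weight at `Y` -/
noncomputable def S (γ : ℝ) (e : ι → Finset V) (w : ι → ℝ) (t : ℕ) (Y U : Finset V) : ℝ :=
  ∑ j ∈ hit e Y, wt γ e w t j * ind (e j) U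

lemma E_sq (p : ℕ → ι → ℝ) (γ : ℝ) (t : ℕ) (Y : Finset V) :
    E p e t (fun U => ind Y U * (S γ e w t Y U - Y.card) ^ 2) =
      ∑ j ∈ hit e Y, ∑ j' ∈ hit e Y, wt γ e w t j * wt γ e w t j' * P p e t (Y ∪ e j ∪ e j')
      + ((-2 * Y.card) * ∑ j ∈ hit e Y, wt γ e w t j * P p e t (Y ∪ e j)
      + (Y.card : ℝ) ^ 2 * P p e t Y) := by
  have h1 : (fun U => ind Y U * (S γ e w t Y U - Y.card) ^ 2) = fun U =>
      ∑ j ∈ hit e Y, ∑ j' ∈ hit e Y, (wt γ e w t j * wt γ e w t j') * ind (Y ∪ e j ∪ e j') U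
      + ((-2 * Y.card) * ∑ j ∈ hit e Y, wt γ e w t j * ind (Y ∪ e j) U
      + (Y.card : ℝ) ^ 2 * ind Y U) := by
    funext U
    simp only [ind_union]
    have h2 : ∑ j ∈ hit e Y, ∑ j' ∈ hit e Y, (wt γ e w t j * wt γ e w t j') *
        (ind Y U * ind (e j) U * ind (e j') U) = ind Y U * S γ e w t Y U ^ 2 := by
      unfold S
      rw [sq, sum_mul_sum, mul_sum]
      apply sum_congr rfl
      intro j _
      rw [mul_sum]
      apply sum_congr rfl
      intro j' _
      ring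
    have h3 : ∑ j ∈ hit e Y, wt γ e w t j * (ind Y U * ind (e j) U) =
        ind Y U * S γ e w t Y U := by
      unfold S
      rw [mul_sum]
      apply sum_congr rfl
      intro j _
      ring
    rw [h2, h3]
    ring
  rw [h1, E_add, E_add, E_smul, E_smul]
  unfold P
  congr 1
  · rw [E_sum]
    apply sum_congr rfl
    intro j _
    rw [E_sum]
    apply sum_congr rfl
    intro j' _
    exact E_smul _ _ _ _ _
  · congr 2
    rw [E_sum]
    apply sum_congr rfl
    intro j _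
    exact E_smul _ _ _ _ _

lemma second_moment (h : Sys K b e w) (hb : 0 ≤ b) {γ : ℝ} (hγ : 0 ≤ γ) {t m : ℕ} {ε : ℝ}
    (hε : 0 ≤ ε) {p : ℕ → ι → ℝ}
    (hP0 : ∀ Z, 0 ≤ P p e t Z) (hP1 : ∀ Z, P p e t Z ≤ 1)
    (hPt : ∀ Z : Finset V, Z.card ≤ m + 2 * K →
      |P p e t Z - Real.exp (-(γ * t * Z.card))| ≤ ε)
    {Y : Finset V} (hY : Y.card ≤ m) :
    E p e t (fun U => ind Y U * (S γ e w t Y U - Y.card) ^ 2) ≤
      (m ^ 2 * Real.exp (γ * t * K) ^ 2 + 2 * m ^ 2 * Real.exp (γ * t * K) + m ^ 2) * ε +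
      ((Real.exp (γ * t * K) ^ 2 + (K : ℝ) ^ 2) * (2 * m ^ 3 + m ^ 2 * K) +
        2 * m ^ 3 * (Real.exp (γ * t * K) + K)) * b := by
  rw [E_sq]
  set W := Real.exp (γ * t * K) with hW
  set R := Real.exp (-(γ * t * Y.card)) with hR
  have hW0 : 0 < W := Real.exp_pos _
  have hYm : (Y.card : ℝ) ≤ m := by exact_mod_cast hY
  have hY0 : (0 : ℝ) ≤ Y.card := Nat.cast_nonneg _
  have hm0 : (0 : ℝ) ≤ m := Nat.cast_nonneg _
  have hK0 : (0 : ℝ) ≤ K := Nat.cast_nonneg _
  have hhit := sum_hit_le h Y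
  have htwo := sum_two_le h Y
  -- first-order sum
  have hA : |∑ j ∈ hit e Y, wt γ e w t j * P p e t (Y ∪ e j) - Y.card * R| ≤
      m * (W * ε) + (m ^ 2 * b) * (W + K) := by
    have h1 : (Y.card : ℝ) * R = ∑ j ∈ hit e Y, w j * (e j ∩ Y).card * R := by
      rw [← sum_mul, sum_hit_inter h Y]
    rw [h1, ← sum_sub_distrib]
    calc _ ≤ ∑ j ∈ hit e Y, |wt γ e w t j * P p e t (Y ∪ e j) - w j * (e j ∩ Y).card * R| :=
          abs_sum_le_sum_abs _ _
      _ ≤ ∑ j ∈ hit e Y, w j * (W * ε + (W + K) * (if 2 ≤ (e j ∩ Y).card then 1 else 0)) :=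
          sum_le_sum fun j hj => term_one h hγ hε hP0 hP1 hPt hY hj
      _ = (∑ j ∈ hit e Y, w j) * (W * ε) +
          (∑ j ∈ hit e Y, w j * (if 2 ≤ (e j ∩ Y).card then 1 else 0)) * (W + K) := by
          rw [sum_mul, sum_mul, ← sum_add_distrib]
          apply sum_congr rfl
          intro j _
          ring
      _ ≤ m * (W * ε) + (m ^ 2 * b) * (W + K) := by
          apply add_le_add
          · apply mul_le_mul_of_nonneg_right (hhit.trans hYm) (by positivity)
          · apply mul_le_mul_of_nonneg_right (htwo.trans _) (by positivity)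
            gcongr
  have hB : |∑ j ∈ hit e Y, ∑ j' ∈ hit e Y, wt γ e w t j * wt γ e w t j' *
      P p e t (Y ∪ e j ∪ e j') - (Y.card : ℝ) ^ 2 * R| ≤
      m ^ 2 * (W ^ 2 * ε) + (W ^ 2 + (K : ℝ) ^ 2) * (2 * m ^ 3 * b + m ^ 2 * K * b) := by
    have h1 : (Y.card : ℝ) ^ 2 * R = ∑ j ∈ hit e Y, ∑ j' ∈ hit e Y,
        (w j * (e j ∩ Y).card) * (w j' * (e j' ∩ Y).card) * R := by
      rw [sq]
      conv_lhs => rw [← sum_hit_inter h Y, sum_mul_sum, sum_mul]
      apply sum_congr rfl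
      intro j _
      rw [sum_mul]
    rw [h1, ← sum_sub_distrib]
    have h2 : ∀ j ∈ hit e Y, |∑ j' ∈ hit e Y, wt γ e w t j * wt γ e w t j' *
        P p e t (Y ∪ e j ∪ e j') - ∑ j' ∈ hit e Y,
        (w j * (e j ∩ Y).card) * (w j' * (e j' ∩ Y).card) * R| ≤
        w j * (m * (W ^ 2 * ε) + (W ^ 2 + (K : ℝ) ^ 2) * (m ^ 2 * b + K * m * b)) +
        w j * (if 2 ≤ (e j ∩ Y).card then 1 else 0) * ((W ^ 2 + (K : ℝ) ^ 2) * m) := by
      intro j hj
      rw [← sum_sub_distrib]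
      calc _ ≤ ∑ j' ∈ hit e Y, |wt γ e w t j * wt γ e w t j' * P p e t (Y ∪ e j ∪ e j') -
            (w j * (e j ∩ Y).card) * (w j' * (e j' ∩ Y).card) * R| := abs_sum_le_sum_abs _ _
        _ ≤ ∑ j' ∈ hit e Y, w j * w j' * (W ^ 2 * ε + (W ^ 2 + (K : ℝ) ^ 2) *
            ((if 2 ≤ (e j ∩ Y).card then 1 else 0) + (if 2 ≤ (e j' ∩ Y).card then 1 else 0) +
            (if ¬ Disjoint (e j \ Y) (e j' \ Y) then 1 else 0))) :=
            sum_le_sum fun j' hj' => term_two h hγ hε hP0 hP1 hPt hY hj hj'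
        _ = w j * ((∑ j' ∈ hit e Y, w j') * (W ^ 2 * ε) + (W ^ 2 + (K : ℝ) ^ 2) *
            (∑ j' ∈ hit e Y, w j' * (if 2 ≤ (e j' ∩ Y).card then 1 else 0) +
            ∑ j' ∈ hit e Y, w j' * (if ¬ Disjoint (e j \ Y) (e j' \ Y) then 1 else 0))) +
            w j * (if 2 ≤ (e j ∩ Y).card then 1 else 0) * ((W ^ 2 + (K : ℝ) ^ 2) *
              ∑ j' ∈ hit e Y, w j') := by
            have h3 : ∀ j' ∈ hit e Y, w j * w j' * (W ^ 2 * ε + (W ^ 2 + (K : ℝ) ^ 2) *
                ((if 2 ≤ (e j ∩ Y).card then 1 else 0) +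
                (if 2 ≤ (e j' ∩ Y).card then 1 else 0) +
                (if ¬ Disjoint (e j \ Y) (e j' \ Y) then 1 else 0))) =
                (w j * (W ^ 2 * ε) + w j * (if 2 ≤ (e j ∩ Y).card then 1 else 0) *
                  (W ^ 2 + (K : ℝ) ^ 2)) * w j' +
                (w j * (W ^ 2 + (K : ℝ) ^ 2)) *
                  (w j' * (if 2 ≤ (e j' ∩ Y).card then 1 else 0)) +
                (w j * (W ^ 2 + (K : ℝ) ^ 2)) *
                  (w j' * (if ¬ Disjoint (e j \ Y) (e j' \ Y) then 1 else 0)) := by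
              intro j' _
              ring
            rw [sum_congr rfl h3, sum_add_distrib, sum_add_distrib, ← mul_sum, ← mul_sum,
              ← mul_sum]
            ring
        _ ≤ _ := by
            have hwj := h.nonneg j
            have hmeet := sum_meet_le h hb Y j
            have hmeet' : ∑ j' ∈ hit e Y, w j' *
                (if ¬ Disjoint (e j \ Y) (e j' \ Y) then 1 else 0) ≤ K * m * b := by
              refine hmeet.trans ?_
              gcongr
            have htwo' : ∑ j' ∈ hit e Y, w j' * (if 2 ≤ (e j' ∩ Y).card then 1 else 0) ≤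
                (m : ℝ) ^ 2 * b := by
              refine htwo.trans ?_
              gcongr
            have hhit' := hhit.trans hYm
            have hi0 : (0 : ℝ) ≤ (if 2 ≤ (e j ∩ Y).card then 1 else 0) := by
              split_ifs <;> norm_num
            apply add_le_add
            · apply mul_le_mul_of_nonneg_left _ hwj
              apply add_le_add
              · exact mul_le_mul_of_nonneg_right hhit' (by positivity)
              · exact mul_le_mul_of_nonneg_left (add_le_add htwo' hmeet') (by positivity)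
            · apply mul_le_mul_of_nonneg_left _ (mul_nonneg hwj hi0)
              exact mul_le_mul_of_nonneg_left hhit' (by positivity)
    calc _ ≤ ∑ j ∈ hit e Y, |∑ j' ∈ hit e Y, wt γ e w t j * wt γ e w t j' *
        P p e t (Y ∪ e j ∪ e j') - ∑ j' ∈ hit e Y,
        (w j * (e j ∩ Y).card) * (w j' * (e j' ∩ Y).card) * R| := abs_sum_le_sum_abs _ _
      _ ≤ _ := sum_le_sum h2
      _ = (∑ j ∈ hit e Y, w j) * (m * (W ^ 2 * ε) + (W ^ 2 + (K : ℝ) ^ 2) *
          (m ^ 2 * b + K * m * b)) + (∑ j ∈ hit e Y, w j *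
          (if 2 ≤ (e j ∩ Y).card then 1 else 0)) * ((W ^ 2 + (K : ℝ) ^ 2) * m) := by
          rw [sum_mul, sum_mul, ← sum_add_distrib]
      _ ≤ m * (m * (W ^ 2 * ε) + (W ^ 2 + (K : ℝ) ^ 2) * (m ^ 2 * b + K * m * b)) +
          (m ^ 2 * b) * ((W ^ 2 + (K : ℝ) ^ 2) * m) := by
          apply add_le_add
          · exact mul_le_mul_of_nonneg_right (hhit.trans hYm) (by positivity)
          · apply mul_le_mul_of_nonneg_right (htwo.trans _) (by positivity)
            gcongr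
      _ = _ := by ring
  have hC : |P p e t Y - R| ≤ ε := hPt Y (by omega)
  have hA1 := (abs_le.mp hA).1
  have hB2 := (abs_le.mp hB).2
  have hC2 := (abs_le.mp hC).2
  set A1 := ∑ j ∈ hit e Y, wt γ e w t j * P p e t (Y ∪ e j)
  set A2 := ∑ j ∈ hit e Y, ∑ j' ∈ hit e Y, wt γ e w t j * wt γ e w t j' *
      P p e t (Y ∪ e j ∪ e j')
  have k1 : (2 * (Y.card : ℝ)) * (Y.card * R - A1) ≤
      (2 * m) * (m * (W * ε) + (m ^ 2 * b) * (W + K)) := by
    have : (Y.card : ℝ) * R - A1 ≤ m * (W * ε) + (m ^ 2 * b) * (W + K) := by linarith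
    calc _ ≤ (2 * (Y.card : ℝ)) * (m * (W * ε) + (m ^ 2 * b) * (W + K)) :=
          mul_le_mul_of_nonneg_left this (by positivity)
      _ ≤ _ := by gcongr
  have k2 : (Y.card : ℝ) ^ 2 * (P p e t Y - R) ≤ m ^ 2 * ε := by
    calc _ ≤ (Y.card : ℝ) ^ 2 * ε := mul_le_mul_of_nonneg_left hC2 (by positivity)
      _ ≤ _ := by gcongr
  nlinarith

lemma abs_one_sub_sub_exp {z : ℝ} (h0 : 0 ≤ z) (h1 : z ≤ 1) : |1 - z - Real.exp (-z)| ≤ z ^ 2 := by
  have := Real.abs_exp_sub_one_sub_id_le (x := -z) (by rw [abs_neg, abs_of_nonneg h0]; exact h1)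
  rw [abs_sub_comm] at this
  have h2 : (1 : ℝ) - z - Real.exp (-z) = -(Real.exp (-z) - 1 - -z) := by ring
  rw [h2, abs_neg, ← abs_neg]
  rw [abs_sub_comm] at this
  rw [abs_neg]
  simpa using this

lemma abs_prod_sub_exp {κ : Type*} (s : Finset κ) (z : κ → ℝ) (h0 : ∀ i ∈ s, 0 ≤ z i)
    (h1 : ∀ i ∈ s, z i ≤ 1) :
    |∏ i ∈ s, (1 - z i) - Real.exp (-∑ i ∈ s, z i)| ≤ ∑ i ∈ s, z i ^ 2 := by
  classical
  induction s using Finset.induction_on with
  | empty => simp
  | insert a s ha ih =>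
    rw [prod_insert ha, sum_insert ha, sum_insert ha]
    have i0 := fun i hi => h0 i (mem_insert_of_mem hi)
    have i1 := fun i hi => h1 i (mem_insert_of_mem hi)
    have ha0 := h0 a (mem_insert_self _ _)
    have ha1 := h1 a (mem_insert_self _ _)
    have hih := ih i0 i1
    have hprod1 : |∏ i ∈ s, (1 - z i)| ≤ 1 := by
      rw [abs_of_nonneg (prod_nonneg fun i hi => by linarith [i1 i hi])]
      exact prod_le_one (fun i hi => by linarith [i1 i hi]) (fun i hi => by linarith [i0 i hi])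
    have hexp : Real.exp (-(z a + ∑ i ∈ s, z i)) =
        Real.exp (-z a) * Real.exp (-∑ i ∈ s, z i) := by
      rw [← Real.exp_add]; congr 1; ring
    rw [hexp]
    have hsplit : (1 - z a) * ∏ i ∈ s, (1 - z i) -
        Real.exp (-z a) * Real.exp (-∑ i ∈ s, z i) =
        (1 - z a - Real.exp (-z a)) * ∏ i ∈ s, (1 - z i) +
        Real.exp (-z a) * (∏ i ∈ s, (1 - z i) - Real.exp (-∑ i ∈ s, z i)) := by ring
    rw [hsplit]
    calc _ ≤ |(1 - z a - Real.exp (-z a)) * ∏ i ∈ s, (1 - z i)| +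
          |Real.exp (-z a) * (∏ i ∈ s, (1 - z i) - Real.exp (-∑ i ∈ s, z i))| := abs_add_le _ _
      _ = |1 - z a - Real.exp (-z a)| * |∏ i ∈ s, (1 - z i)| +
          Real.exp (-z a) * |∏ i ∈ s, (1 - z i) - Real.exp (-∑ i ∈ s, z i)| := by
          rw [abs_mul, abs_mul, abs_of_pos (Real.exp_pos _)]
      _ ≤ z a ^ 2 * 1 + 1 * ∑ i ∈ s, z i ^ 2 := by
          apply add_le_add
          · exact mul_le_mul (abs_one_sub_sub_exp ha0 ha1) hprod1 (abs_nonneg _) (by positivity)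
          · apply mul_le_mul _ hih (abs_nonneg _) (by norm_num)
            rw [Real.exp_le_one_iff]; linarith
      _ = _ := by ring

lemma abs_exp_sub_exp {x y : ℝ} (hx : 0 ≤ x) (hy : 0 ≤ y) :
    |Real.exp (-x) - Real.exp (-y)| ≤ |x - y| := by
  wlog hxy : x ≤ y with H
  · rw [abs_sub_comm, abs_sub_comm x]
    exact H hy hx (by linarith)
  have h1 : Real.exp (-y) ≤ Real.exp (-x) := Real.exp_le_exp.mpr (by linarith)
  rw [abs_of_nonneg (by linarith), abs_of_nonpos (by linarith)]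
  have h2 : Real.exp (-y) = Real.exp (-x) * Real.exp (-(y - x)) := by
    rw [← Real.exp_add]; congr 1; ring
  have h3 : 1 - (y - x) ≤ Real.exp (-(y - x)) := by
    have := Real.add_one_le_exp (-(y - x)); linarith
  have h4 : Real.exp (-x) ≤ 1 := by rw [Real.exp_le_one_iff]; linarith
  have h5 := Real.exp_pos (-x)
  rw [h2]
  nlinarith

lemma pr_nonneg (h : Sys K b e w) {γ : ℝ} (hγ : 0 ≤ γ) (t : ℕ) (j : ι) : 0 ≤ pr γ e w t j :=
  mul_nonneg hγ (wt_nonneg h γ t j)

/-- one step of the survival probabilities -/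
lemma step (h : Sys K b e w) (hb : 0 ≤ b) {γ : ℝ} (hγ : 0 < γ) {t m : ℕ} {ε ζ : ℝ}
    (hε : 0 ≤ ε) (hζ : 0 < ζ) (hp1 : ∀ s ≤ t, ∀ j, pr γ e w s j ≤ 1)
    (hPt : ∀ Z : Finset V, Z.card ≤ m + 2 * K →
      |P (pr γ e w) e t Z - Real.exp (-(γ * t * Z.card))| ≤ ε)
    {Y : Finset V} (hY : Y.card ≤ m) :
    |P (pr γ e w) e (t + 1) Y - Real.exp (-(γ * (t + 1 : ℕ) * Y.card))| ≤
      ε + γ ^ 2 * (b * Real.exp (γ * t * K)) * (m * Real.exp (γ * t * K)) + γ * ζ + γ / ζ * (
      (m ^ 2 * Real.exp (γ * t * K) ^ 2 + 2 * m ^ 2 * Real.exp (γ * t * K) + m ^ 2) * ε +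
      ((Real.exp (γ * t * K) ^ 2 + (K : ℝ) ^ 2) * (2 * m ^ 3 + m ^ 2 * K) +
        2 * m ^ 3 * (Real.exp (γ * t * K) + K)) * b) := by
  have hq0 : ∀ s < t, ∀ j, 0 ≤ pr γ e w s j := fun s _ j => pr_nonneg h hγ.le s j
  have hq1 : ∀ s < t, ∀ j, pr γ e w s j ≤ 1 := fun s hs j => hp1 s hs.le j
  have hP0 := P_nonneg (e := e) hq0 hq1
  have hP1 := P_le_one (e := e) hq0 hq1
  have hsec := second_moment h hb hγ.le hε hP0 hP1 hPt hY
  set W := Real.exp (γ * t * K) with hW
  have hW0 : 0 < W := Real.exp_pos _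
  have hYm : (Y.card : ℝ) ≤ m := by exact_mod_cast hY
  rw [P_succ]
  -- compare with `exp (-γ |Y|)` times the indicator
  have hcmp : |E (pr γ e w) e t (fun U => ind Y U * ∏ j ∈ avail e U ∩ hit e Y,
        (1 - pr γ e w t j)) - E (pr γ e w) e t (fun U => Real.exp (-(γ * Y.card)) * ind Y U)| ≤
      E (pr γ e w) e t (fun U => (γ ^ 2 * (b * W) * (m * W) + γ * ζ) +
        γ / ζ * (ind Y U * (S γ e w t Y U - Y.card) ^ 2)) := by
    apply abs_E_sub_le hq0 hq1
    intro U
    have hi0 := ind_nonneg Y U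
    have hi1 := ind_le Y U
    have hSeq : ∑ j ∈ avail e U ∩ hit e Y, pr γ e w t j = γ * S γ e w t Y U := by
      unfold S pr
      rw [← mul_sum]
      congr 1
      rw [inter_comm, ← filter_mem_eq_inter, sum_filter]
      apply sum_congr rfl
      intro j _
      unfold ind
      by_cases hj : e j ⊆ U
      · rw [if_pos (mem_avail.mpr hj), if_pos hj, mul_one]
      · rw [if_neg (fun h => hj (mem_avail.mp h)), if_neg hj, mul_zero]
    have hS0 : 0 ≤ S γ e w t Y U :=
      sum_nonneg fun j _ => mul_nonneg (wt_nonneg h γ t j) (ind_nonneg _ _)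
    have hSm : S γ e w t Y U ≤ m * W := by
      calc S γ e w t Y U ≤ ∑ j ∈ hit e Y, w j * W := by
            apply sum_le_sum
            intro j _
            calc wt γ e w t j * ind (e j) U ≤ wt γ e w t j * 1 :=
                  mul_le_mul_of_nonneg_left (ind_le _ _) (wt_nonneg h γ t j)
              _ ≤ w j * W := by rw [mul_one]; exact wt_le h hγ.le t j
        _ = (∑ j ∈ hit e Y, w j) * W := by rw [sum_mul]
        _ ≤ m * W := mul_le_mul_of_nonneg_right ((sum_hit_le h Y).trans hYm) hW0.le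
    have h1 := abs_prod_sub_exp (avail e U ∩ hit e Y) (pr γ e w t)
      (fun j _ => pr_nonneg h hγ.le t j) (fun j _ => hp1 t le_rfl j)
    have h2 : ∑ j ∈ avail e U ∩ hit e Y, pr γ e w t j ^ 2 ≤ γ ^ 2 * (b * W) * (m * W) := by
      calc _ ≤ ∑ j ∈ avail e U ∩ hit e Y, (γ * (b * W)) * pr γ e w t j := by
            apply sum_le_sum
            intro j _
            rw [sq]
            apply mul_le_mul_of_nonneg_right _ (pr_nonneg h hγ.le t j)
            exact mul_le_mul_of_nonneg_left (wt_le' h hγ.le le_rfl j) hγ.le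
        _ = (γ * (b * W)) * (γ * S γ e w t Y U) := by rw [← mul_sum, hSeq]
        _ ≤ (γ * (b * W)) * (γ * (m * W)) := by gcongr
        _ = _ := by ring
    rw [hSeq] at h1
    have h3 := abs_exp_sub_exp (x := γ * S γ e w t Y U) (y := γ * Y.card) (by positivity)
      (by positivity)
    have h4 : |γ * S γ e w t Y U - γ * Y.card| ≤
        γ * ζ + γ / ζ * (S γ e w t Y U - Y.card) ^ 2 := by
      rw [← mul_sub, abs_mul, abs_of_pos hγ]
      set D := S γ e w t Y U - (Y.card : ℝ)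
      have h5 : |D| ≤ ζ + D ^ 2 / ζ := by
        rw [← sq_abs]
        by_cases hD : |D| ≤ ζ
        · have : 0 ≤ |D| ^ 2 / ζ := by positivity
          linarith
        · push Not at hD
          have : |D| ≤ |D| ^ 2 / ζ := by
            rw [le_div_iff₀ hζ]
            nlinarith [abs_nonneg D]
          linarith
      calc γ * |D| ≤ γ * (ζ + D ^ 2 / ζ) := mul_le_mul_of_nonneg_left h5 hγ.le
        _ = _ := by ring
    have h6 : ind Y U * ∏ j ∈ avail e U ∩ hit e Y, (1 - pr γ e w t j) -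
        Real.exp (-(γ * Y.card)) * ind Y U = ind Y U *
        ((∏ j ∈ avail e U ∩ hit e Y, (1 - pr γ e w t j) - Real.exp (-(γ * S γ e w t Y U))) +
        (Real.exp (-(γ * S γ e w t Y U)) - Real.exp (-(γ * Y.card)))) := by ring
    rw [h6, abs_mul, abs_of_nonneg hi0]
    have h7 : |(∏ j ∈ avail e U ∩ hit e Y, (1 - pr γ e w t j) -
        Real.exp (-(γ * S γ e w t Y U))) +
        (Real.exp (-(γ * S γ e w t Y U)) - Real.exp (-(γ * Y.card)))| ≤
        γ ^ 2 * (b * W) * (m * W) + (γ * ζ + γ / ζ * (S γ e w t Y U - Y.card) ^ 2) :=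
      (abs_add_le _ _).trans (add_le_add (h1.trans h2) (h3.trans h4))
    have h8 : 0 ≤ γ ^ 2 * (b * W) * (m * W) + γ * ζ := by positivity
    calc _ ≤ ind Y U * (γ ^ 2 * (b * W) * (m * W) +
          (γ * ζ + γ / ζ * (S γ e w t Y U - Y.card) ^ 2)) := mul_le_mul_of_nonneg_left h7 hi0
      _ = ind Y U * (γ ^ 2 * (b * W) * (m * W) + γ * ζ) +
          γ / ζ * (ind Y U * (S γ e w t Y U - Y.card) ^ 2) := by ring
      _ ≤ _ := by
          have : ind Y U * (γ ^ 2 * (b * W) * (m * W) + γ * ζ) ≤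
            1 * (γ ^ 2 * (b * W) * (m * W) + γ * ζ) := mul_le_mul_of_nonneg_right hi1 h8
          linarith
  rw [E_smul, E_add, E_const, E_smul] at hcmp
  have hfin : Real.exp (-(γ * (t + 1 : ℕ) * Y.card)) =
      Real.exp (-(γ * Y.card)) * Real.exp (-(γ * t * Y.card)) := by
    rw [← Real.exp_add]; congr 1; push_cast; ring
  rw [hfin]
  have hPY := hPt Y (by omega)
  have he1 : Real.exp (-(γ * Y.card)) ≤ 1 := by
    rw [Real.exp_le_one_iff]
    have : 0 ≤ γ * (Y.card : ℝ) := by positivity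
    linarith
  have h9 : |Real.exp (-(γ * Y.card)) * E (pr γ e w) e t (ind Y) -
      Real.exp (-(γ * Y.card)) * Real.exp (-(γ * t * Y.card))| ≤ ε := by
    rw [← mul_sub, abs_mul, abs_of_pos (Real.exp_pos _)]
    calc _ ≤ 1 * ε := mul_le_mul he1 hPY (abs_nonneg _) (by norm_num)
      _ = ε := one_mul _
  calc _ ≤ _ := abs_sub_le _ (Real.exp (-(γ * Y.card)) * E (pr γ e w) e t (ind Y)) _
    _ ≤ ((γ ^ 2 * (b * W) * (m * W) + γ * ζ) + γ / ζ * E (pr γ e w) e t
        (fun U => ind Y U * (S γ e w t Y U - Y.card) ^ 2)) + ε := add_le_add hcmp h9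
    _ ≤ _ := by
        have : γ / ζ * E (pr γ e w) e t (fun U => ind Y U * (S γ e w t Y U - Y.card) ^ 2) ≤
          γ / ζ * _ := mul_le_mul_of_nonneg_left hsec (by positivity)
        linarith

end sys

end Pool.Agent.Q296.Nibble
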