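import Pool.Agent.Q296.Nibble3

/-!
# Weighted nibble: the matching theorem
-/

set_option linter.unusedSectionVars false
set_option linter.unusedVariables false

namespace Pool.Agent.Q296.Nibble

open Finset

lemma survival (K : ℕ) {γ : ℝ} (hγ : 0 < γ) (t : ℕ) : ∀ (m : ℕ) (ε : ℝ), 0 < ε →
    ∃ b0 : ℝ, 0 < b0 ∧ ∀ (V ι : Type) [Fintype V] [DecidableEq V] [Fintype ι] [DecidableEq ι]
      (e : ι → Finset V) (w : ι → ℝ) (b : ℝ), 0 ≤ b → b ≤ b0 → Sys K b e w →
      ∀ Y : Finset V, Y.card ≤ m →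
        |P (pr γ e w) e t Y - Real.exp (-(γ * t * Y.card))| ≤ ε := by
  induction t with
  | zero =>
    intro m ε hε
    refine ⟨1, one_pos, ?_⟩
    intro V ι _ _ _ _ e w b _ _ _ Y _
    have : P (pr γ e w) e 0 Y = 1 := by
      unfold P E ind
      rw [if_pos (subset_univ _)]
    rw [this]
    simp [hε.le]
  | succ t ih =>
    intro m ε hε
    set W := Real.exp (γ * t * K) with hW
    have hW0 : 0 < W := Real.exp_pos _
    set C1 : ℝ := m ^ 2 * W ^ 2 + 2 * m ^ 2 * W + m ^ 2 with hC1
    set C2 : ℝ := (W ^ 2 + (K : ℝ) ^ 2) * (2 * m ^ 3 + m ^ 2 * K) + 2 * m ^ 3 * (W + K) with hC2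
    have hC10 : 0 ≤ C1 := by positivity
    have hC20 : 0 ≤ C2 := by positivity
    set ε' : ℝ := min (ε / 4) (ε ^ 2 / (32 * γ ^ 2 * (C1 + 1))) with hε'
    have hε'0 : 0 < ε' := lt_min (by positivity) (by positivity)
    obtain ⟨b1, hb1, hb1'⟩ := ih (m + 2 * K) ε' hε'0
    set b0 : ℝ := min (min b1 (1 / (γ * W))) (min (ε / (8 * (γ ^ 2 * m * W ^ 2 + 1)))
      (ε ^ 2 / (32 * γ ^ 2 * (C2 + 1)))) with hb0
    have hb00 : 0 < b0 := lt_min (lt_min hb1 (by positivity)) (lt_min (by positivity) (by positivity))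
    refine ⟨b0, hb00, ?_⟩
    intro V ι _ _ _ _ e w b hb hbb0 hsys Y hY
    have hbb1 : b ≤ b1 := hbb0.trans ((min_le_left _ _).trans (min_le_left _ _))
    have hbb2 : b ≤ 1 / (γ * W) := hbb0.trans ((min_le_left _ _).trans (min_le_right _ _))
    have hbb3 : b ≤ ε / (8 * (γ ^ 2 * m * W ^ 2 + 1)) :=
      hbb0.trans ((min_le_right _ _).trans (min_le_left _ _))
    have hbb4 : b ≤ ε ^ 2 / (32 * γ ^ 2 * (C2 + 1)) :=
      hbb0.trans ((min_le_right _ _).trans (min_le_right _ _))
    have hpr : ∀ s ≤ t, ∀ j, pr γ e w s j ≤ 1 := by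
      intro s hs j
      unfold pr
      calc γ * wt γ e w s j ≤ γ * (b * W) :=
            mul_le_mul_of_nonneg_left (wt_le' hsys hγ.le hs j) hγ.le
        _ = b * (γ * W) := by ring
        _ ≤ (1 / (γ * W)) * (γ * W) := by gcongr
        _ = 1 := by field_simp
    set ζ : ℝ := ε / (4 * γ) with hζ
    have hζ0 : 0 < ζ := by positivity
    have hstep := step hsys hb hγ hε'0.le hζ0 hpr
      (fun Z hZ => hb1' V ι e w b hb hbb1 hsys Z hZ) hY
    rw [← hW, ← hC1, ← hC2] at hstep
    refine hstep.trans ?_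
    have e1 : ε' ≤ ε / 4 := min_le_left _ _
    have e2 : γ ^ 2 * (b * W) * (m * W) ≤ ε / 8 := by
      have : b * (8 * (γ ^ 2 * m * W ^ 2 + 1)) ≤ ε := by
        rwa [le_div_iff₀ (by positivity)] at hbb3
      nlinarith
    have e3 : γ * ζ = ε / 4 := by rw [hζ]; field_simp
    have e4 : γ / ζ = 4 * γ ^ 2 / ε := by rw [hζ]; field_simp
    have e5 : 4 * γ ^ 2 / ε * (C1 * ε') ≤ ε / 8 := by
      have h1 : ε' ≤ ε ^ 2 / (32 * γ ^ 2 * (C1 + 1)) := min_le_right _ _
      calc 4 * γ ^ 2 / ε * (C1 * ε') ≤ 4 * γ ^ 2 / ε * ((C1 + 1) *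
            (ε ^ 2 / (32 * γ ^ 2 * (C1 + 1)))) := by gcongr; linarith
        _ = ε / 8 := by field_simp; norm_num
    have e6 : 4 * γ ^ 2 / ε * (C2 * b) ≤ ε / 8 := by
      calc 4 * γ ^ 2 / ε * (C2 * b) ≤ 4 * γ ^ 2 / ε * ((C2 + 1) *
            (ε ^ 2 / (32 * γ ^ 2 * (C2 + 1)))) := by gcongr; linarith
        _ = ε / 8 := by field_simp; norm_num
    rw [e3, e4, mul_add]
    linarith

lemma survival_upto (K : ℕ) {γ : ℝ} (hγ : 0 < γ) (T m : ℕ) (ε : ℝ) (hε : 0 < ε) :
    ∃ b0 : ℝ, 0 < b0 ∧ ∀ (V ι : Type) [Fintype V] [DecidableEq V] [Fintype ι] [DecidableEq ι]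
      (e : ι → Finset V) (w : ι → ℝ) (b : ℝ), 0 ≤ b → b ≤ b0 → Sys K b e w →
      ∀ t ≤ T, ∀ Y : Finset V, Y.card ≤ m →
        |P (pr γ e w) e t Y - Real.exp (-(γ * t * Y.card))| ≤ ε := by
  induction T with
  | zero =>
    obtain ⟨b0, h1, h2⟩ := survival K hγ 0 m ε hε
    refine ⟨b0, h1, ?_⟩
    intro V ι _ _ _ _ e w b hb hbb hs t ht Y hY
    obtain rfl : t = 0 := by omega
    exact h2 V ι e w b hb hbb hs Y hY
  | succ T ih =>
    obtain ⟨b1, h1, h1'⟩ := ih
    obtain ⟨b2, h2, h2'⟩ := survival K hγ (T + 1) m ε hε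
    refine ⟨min b1 b2, lt_min h1 h2, ?_⟩
    intro V ι _ _ _ _ e w b hb hbb hs t ht Y hY
    rcases Nat.lt_or_ge t (T + 1) with h | h
    · exact h1' V ι e w b hb (hbb.trans (min_le_left _ _)) hs t (by omega) Y hY
    · obtain rfl : t = T + 1 := by omega
      exact h2' V ι e w b hb (hbb.trans (min_le_right _ _)) hs Y hY

lemma sum_exp_ge {γ : ℝ} (T : ℕ) :
    1 - Real.exp (-(γ * T)) ≤ ∑ t ∈ range T, γ * Real.exp (-(γ * t)) := by
  induction T with
  | zero => simp
  | succ T ih =>
    rw [sum_range_succ]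
    have h1 : Real.exp (-(γ * (T + 1 : ℕ))) = Real.exp (-(γ * T)) * Real.exp (-γ) := by
      rw [← Real.exp_add]; congr 1; push_cast; ring
    rw [h1]
    have h2 := Real.add_one_le_exp (-γ)
    have h3 := Real.exp_pos (-(γ * T))
    nlinarith

/-- **Weighted nibble.** In a weighted set system with all loads equal to one, sets of size at
most `K`, and sufficiently small weights and codegrees, there is a family of pairwise disjoint
sets of value at least `(1 - η)` times the fractional value. -/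
theorem nibble (K : ℕ) {η : ℝ} (hη : 0 < η) : ∃ b0 : ℝ, 0 < b0 ∧
    ∀ (V ι : Type) [Fintype V] [DecidableEq V] [Fintype ι] [DecidableEq ι]
      (e : ι → Finset V) (w : ι → ℝ) (b : ℝ), 0 ≤ b → b ≤ b0 → Sys K b e w →
      ∀ val : ι → ℝ, (∀ j, 0 ≤ val j) → ∃ M : Finset ι,
        (∀ j ∈ M, ∀ j' ∈ M, j ≠ j' → Disjoint (e j) (e j')) ∧
        (1 - η) * ∑ j, w j * val j ≤ ∑ j ∈ M, val j := by
  wlog hη1 : η ≤ 1 with H
  · push Not at hη1
    refine ⟨1, one_pos, ?_⟩
    intro V ι _ _ _ _ e w b hb hbb hs val hval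
    refine ⟨∅, by simp, ?_⟩
    rw [sum_empty]
    apply mul_nonpos_of_nonpos_of_nonneg (by linarith)
    exact sum_nonneg fun j _ => mul_nonneg (hs.nonneg j) (hval j)
  set γ : ℝ := η / (3 * (K + 1)) with hγdef
  have hγ : 0 < γ := by positivity
  have hγK : γ * K ≤ η / 3 := by
    rw [hγdef, div_mul_eq_mul_div, div_le_div_iff₀ (by positivity) (by norm_num)]
    nlinarith
  obtain ⟨T, hT⟩ := exists_nat_ge (3 / (η * γ))
  have hexpT : Real.exp (-(γ * T)) ≤ η / 3 := by
    have h1 : 3 / η ≤ γ * T := by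
      rw [div_le_iff₀ (by positivity)] at hT
      rw [div_le_iff₀ hη]
      nlinarith
    have h2 : γ * T ≤ Real.exp (γ * T) := by
      have := Real.add_one_le_exp (γ * T); linarith
    rw [Real.exp_neg, inv_le_comm₀ (Real.exp_pos _) (by positivity)]
    calc (η / 3)⁻¹ = 3 / η := by rw [inv_div]
      _ ≤ _ := h1.trans h2
  set W := Real.exp (γ * T * K) with hW
  have hW0 : 0 < W := Real.exp_pos _
  set ε : ℝ := η / (3 * (γ * T * W + 1)) with hε
  have hε0 : 0 < ε := by positivity
  have hεle : γ * T * W * ε ≤ η / 3 := by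
    rw [hε]
    have : γ * T * W * (η / (3 * (γ * T * W + 1))) =
      (η / 3) * ((γ * T * W) / (γ * T * W + 1)) := by field_simp
    rw [this]
    have h2 : (γ * T * W) / (γ * T * W + 1) ≤ 1 := by
      rw [div_le_one (by positivity)]; linarith
    have h3 : 0 ≤ η / 3 := by positivity
    nlinarith
  obtain ⟨b1, hb1, hb1'⟩ := survival_upto K hγ T K ε hε0
  refine ⟨min b1 (1 / (γ * W)), lt_min hb1 (by positivity), ?_⟩
  intro V ι _ _ _ _ e w b hb hbb hs val hval
  have hbb1 : b ≤ b1 := hbb.trans (min_le_left _ _)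
  have hbb2 : b ≤ 1 / (γ * W) := hbb.trans (min_le_right _ _)
  have hp0 : ∀ t, ∀ j, 0 ≤ pr γ e w t j := fun t j => pr_nonneg hs hγ.le t j
  have hp1 : ∀ t ≤ T, ∀ j, pr γ e w t j ≤ 1 := by
    intro s hs' j
    unfold pr
    calc γ * wt γ e w s j ≤ γ * (b * W) :=
          mul_le_mul_of_nonneg_left (wt_le' hs hγ.le hs' j) hγ.le
      _ = b * (γ * W) := by ring
      _ ≤ (1 / (γ * W)) * (γ * W) := by gcongr
      _ = 1 := by field_simp
  obtain ⟨M, _, hM2, hM3⟩ := exists_matching (p := pr γ e w) (e := e) hs.nonempty (val := val) T 0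
    (fun t _ j => hp0 t j) (fun t ht j => hp1 t (by omega) j) univ
  refine ⟨M, hM2, le_trans ?_ hM3⟩
  have hG : G (pr γ e w) e val T 0 univ = ∑ t ∈ range T, E (pr γ e w) e t
      (gain (pr γ e w t) e val) := by
    have := E_G (p := pr γ e w) (e := e) val T 0
    simp only [E, zero_add] at this
    exact this
  rw [hG]
  have hgain : ∀ t ∈ range T, ∑ j, val j * w j * (γ * Real.exp (-(γ * t)) * Real.exp (-(γ * K)) -
      γ * W * ε) ≤ E (pr γ e w) e t (gain (pr γ e w t) e val) := by
    intro t ht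
    have ht' := mem_range.mp ht
    calc ∑ j, val j * w j * (γ * Real.exp (-(γ * t)) * Real.exp (-(γ * K)) - γ * W * ε)
        ≤ ∑ j, val j * pr γ e w t j * P (pr γ e w) e (t + 1) (e j) := by
          apply sum_le_sum
          intro j _
          rw [mul_assoc (val j), mul_assoc (val j)]
          apply mul_le_mul_of_nonneg_left _ (hval j)
          have h1 := hb1' V ι e w b hb hbb1 hs (t + 1) (by omega) (e j) (hs.card_le j)
          have h2 := (abs_le.mp h1).1
          have hprdef : pr γ e w t j = γ * wt γ e w t j := rfl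
          generalize P (pr γ e w) e (t + 1) (e j) = PP at h1 h2 ⊢
          have hwt0 := wt_nonneg hs γ t j
          have hwtW : wt γ e w t j ≤ w j * W := by
            refine (wt_le hs hγ.le t j).trans ?_
            apply mul_le_mul_of_nonneg_left _ (hs.nonneg j)
            apply Real.exp_le_exp.mpr
            have : (t : ℝ) ≤ T := by exact_mod_cast ht'.le
            gcongr
          have h3 : wt γ e w t j * Real.exp (-(γ * (t + 1 : ℕ) * (e j).card)) =
              w j * (Real.exp (-(γ * t)) * Real.exp (-(γ * (e j).card))) := by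
            unfold wt
            rw [mul_assoc, ← Real.exp_add, ← Real.exp_add]
            congr 2
            push_cast
            ring
          have h4 : Real.exp (-(γ * K)) ≤ Real.exp (-(γ * (e j).card)) := by
            apply Real.exp_le_exp.mpr
            have : ((e j).card : ℝ) ≤ K := by exact_mod_cast hs.card_le j
            have := mul_le_mul_of_nonneg_left this hγ.le
            linarith
          have h5 : pr γ e w t j * PP ≥
              γ * (wt γ e w t j * Real.exp (-(γ * (t + 1 : ℕ) * (e j).card))) -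
                γ * wt γ e w t j * ε := by
            rw [hprdef]
            have : 0 ≤ γ * wt γ e w t j := by positivity
            nlinarith
          have h6 : γ * wt γ e w t j * ε ≤ γ * (w j * W) * ε := by gcongr
          have h7 : w j * (Real.exp (-(γ * t)) * Real.exp (-(γ * K))) ≤
              w j * (Real.exp (-(γ * t)) * Real.exp (-(γ * (e j).card))) := by
            apply mul_le_mul_of_nonneg_left _ (hs.nonneg j)
            exact mul_le_mul_of_nonneg_left h4 (Real.exp_pos _).le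
          rw [h3] at h5
          nlinarith
      _ = E (pr γ e w) e t (fun U => ∑ j, val j * pr γ e w t j *
            B (pr γ e w t) e (ind (e j)) U) := by
          rw [E_sum]
          apply sum_congr rfl
          intro j _
          rw [E_smul]
          rfl
      _ ≤ _ := E_mono (fun s _ j => hp0 s j) (fun s hs' j => hp1 s (by omega) j)
          (fun U => gain_ge (hp0 t) (hp1 t ht'.le) e hs.nonempty hval U)
  refine le_trans ?_ (sum_le_sum hgain)
  rw [sum_comm]
  have hmain : 1 - η ≤ ∑ t ∈ range T, (γ * Real.exp (-(γ * t)) * Real.exp (-(γ * K)) -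
      γ * W * ε) := by
    rw [sum_sub_distrib, ← sum_mul, sum_const, card_range, nsmul_eq_mul]
    have h1 := sum_exp_ge (γ := γ) T
    have h2 : 1 - η / 3 ≤ Real.exp (-(γ * K)) := by
      have := Real.add_one_le_exp (-(γ * K)); linarith
    have h3 : 1 - η / 3 ≤ ∑ t ∈ range T, γ * Real.exp (-(γ * t)) := by linarith
    have h4 : (1 - η / 3) * (1 - η / 3) ≤ (∑ t ∈ range T, γ * Real.exp (-(γ * t))) *
        Real.exp (-(γ * K)) := mul_le_mul h3 h2 (by linarith) (by linarith)
    nlinarith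
  calc (1 - η) * ∑ j, w j * val j = ∑ j, val j * w j * (1 - η) := by
        rw [mul_sum]
        apply sum_congr rfl
        intro j _
        ring
    _ ≤ ∑ j, val j * w j * ∑ t ∈ range T, (γ * Real.exp (-(γ * t)) * Real.exp (-(γ * K)) -
      γ * W * ε) := by
        apply sum_le_sum
        intro j _
        exact mul_le_mul_of_nonneg_left hmain (mul_nonneg (hval j) (hs.nonneg j))
    _ = _ := by
        apply sum_congr rfl
        intro j _
        rw [mul_sum]

end Pool.Agent.Q296.Nibble
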