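import Mathlib

/-!
# Asymmetric Rado systems: definitions
-/

namespace Pool.Agent.Q296.Rado

/-- The integer `l × k` matrix `M` has full rank `l` (over the rationals). -/
def FullRank {l k : ℕ} (M : Matrix (Fin l) (Fin k) ℤ) : Prop :=
  (M.map (Int.cast : ℤ → ℚ)).rank = l

/-- `x` is a `k`-distinct solution of `M x = c` in the positive integers. -/
def IsSol {l k : ℕ} (M : Matrix (Fin l) (Fin k) ℤ) (c : Fin l → ℤ) (x : Fin k → ℕ) : Prop :=
  (∀ j, 1 ≤ x j) ∧ Function.Injective x ∧ M.mulVec (fun j => (x j : ℤ)) = c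

/-- The system `M x = c` is irredundant: it has a `k`-distinct solution in the positive
integers. -/
def Irredundant {l k : ℕ} (M : Matrix (Fin l) (Fin k) ℤ) (c : Fin l → ℤ) : Prop :=
  ∃ x, IsSol M c x

/-- The set of positive integers is `(A_1, ..., A_r)`-Rado, where `A_i` is the system
`M i x = c i`: for every `r`-colouring there are a colour `i` and a distinct solution to `A_i`
all of whose entries receive colour `i`. -/
def IsRado {r : ℕ} {l k : Fin r → ℕ} (M : ∀ i, Matrix (Fin (l i)) (Fin (k i)) ℤ)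
    (c : ∀ i, Fin (l i) → ℤ) : Prop :=
  ∀ col : ℕ → Fin r, ∃ i, ∃ x, IsSol (M i) (c i) x ∧ ∀ j, col (x j) = i

/-- The number of distinct solutions to `M x = c` in `[n]` all of whose entries have
colour `i`. -/
noncomputable def numSol {r : ℕ} {l k : ℕ} (M : Matrix (Fin l) (Fin k) ℤ) (c : Fin l → ℤ)
    (n : ℕ) (col : ℕ → Fin r) (i : Fin r) : ℕ :=
  {x : Fin k → ℕ | IsSol M c x ∧ (∀ j, x j ≤ n) ∧ ∀ j, col (x j) = i}.ncard

end Pool.Agent.Q296.Rado
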