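import Mathlib
import Pool.Agent.Q296.UpperDensityDef

/-!
# Upper density thresholds for `mB + lB`

Construction of sets of large upper density without `m B + l B + t`.
-/

namespace Pool.Agent.Q296.SumThreshold

open Filter Finset

section construction

variable (m l J : ℕ)

/-- boundaries -/
def v (e : ℕ) : ℕ := l ^ e * m ^ (2 * J + 1 - e)

/-- top of the scale -/
def top : ℕ := v m l J 0 + v m l J 1

/-- lower ends -/
def lo (j : ℕ) : ℕ := v m l J (2 * j + 1)

/-- upper ends -/
def hi (j : ℕ) : ℕ := if j = 0 then top m l J else v m l J (2 * j)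

/-- scale ratio -/
def Q : ℕ := (m + l) * top m l J

/-- the union of blocks -/
def S : Set ℕ := {s | ∃ i j, j ≤ J ∧ lo m l J j * Q m l J ^ i ≤ s ∧ s < hi m l J j * Q m l J ^ i}

variable {m l J}

lemma v_step {e : ℕ} (he : e ≤ 2 * J) : m * v m l J (e + 1) = l * v m l J e := by
  unfold v
  have h1 : 2 * J + 1 - e = (2 * J + 1 - (e + 1)) + 1 := by omega
  rw [h1, pow_succ, pow_succ]; ring

lemma v_pos (hl : 1 ≤ l) (hm : l < m) (e : ℕ) : 0 < v m l J e := by
  unfold v
  have : 0 < m := by omega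
  positivity

lemma v_lt (hl : 1 ≤ l) (hm : l < m) {e : ℕ} (he : e ≤ 2 * J) : v m l J (e + 1) < v m l J e := by
  have h := v_step (m := m) (l := l) he
  have h2 := v_pos (J := J) hl hm e
  by_contra hcon
  push Not at hcon
  have : m * v m l J e ≤ m * v m l J (e + 1) := Nat.mul_le_mul_left _ hcon
  rw [h] at this
  have := Nat.le_of_mul_le_mul_right this h2
  omega

lemma v_anti (hl : 1 ≤ l) (hm : l < m) {a b : ℕ} (hab : a ≤ b) (hb : b ≤ 2 * J + 1) :
    v m l J b ≤ v m l J a := by
  induction b, hab using Nat.le_induction with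
  | base => exact le_rfl
  | succ n hn ih =>
    have := v_lt (J := J) hl hm (e := n) (by omega)
    have := ih (by omega)
    omega

lemma v_anti_lt (hl : 1 ≤ l) (hm : l < m) {a b : ℕ} (hab : a < b) (hb : b ≤ 2 * J + 1) :
    v m l J b < v m l J a := by
  have h1 := v_anti (J := J) hl hm (a := a + 1) (b := b) (by omega) hb
  have h2 := v_lt (J := J) hl hm (e := a) (by omega)
  omega

lemma l_mul_top : l * top m l J = (m + l) * v m l J 1 := by
  unfold top
  have := v_step (m := m) (l := l) (J := J) (e := 0) (by omega)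
  simp only [zero_add] at this
  nlinarith

lemma top_pos (hl : 1 ≤ l) (hm : l < m) : 0 < top m l J := by
  unfold top
  have := v_pos (J := J) hl hm 0
  omega

lemma hi_le_top (hl : 1 ≤ l) (hm : l < m) {j : ℕ} (hj : j ≤ J) : hi m l J j ≤ top m l J := by
  unfold hi
  split_ifs with h
  · exact le_rfl
  · have h1 := v_anti (J := J) hl hm (a := 0) (b := 2 * j) (by omega) (by omega)
    unfold top
    omega

lemma lo_pos (hl : 1 ≤ l) (hm : l < m) (j : ℕ) : 0 < lo m l J j := v_pos hl hm _

lemma Q_pos (hl : 1 ≤ l) (hm : l < m) : 0 < Q m l J := by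
  unfold Q
  have := top_pos (J := J) hl hm
  have : 0 < m + l := by omega
  positivity

lemma top_le_Q (hl : 1 ≤ l) (hm : l < m) : top m l J ≤ Q m l J := by
  unfold Q
  have : 1 ≤ m + l := by omega
  nlinarith [top_pos (J := J) hl hm]

lemma one_lt_Q (hl : 1 ≤ l) (hm : l < m) : 1 < Q m l J := by
  unfold Q
  have : 2 ≤ m + l := by omega
  nlinarith [top_pos (J := J) hl hm]

/-- The three multiples of one number are never all in `S`. -/
lemma noS (hl : 1 ≤ l) (hm : l < m) (x : ℕ) (h1 : l * x ∈ S m l J) (h2 : m * x ∈ S m l J)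
    (h3 : (m + l) * x ∈ S m l J) : False := by
  obtain ⟨i, j, hj, hlo, hhi⟩ := h1
  have hQ1 := one_lt_Q (J := J) hl hm
  have hQi : 0 < Q m l J ^ i := pow_pos (Q_pos hl hm) i
  have htop := top_pos (J := J) hl hm
  rcases Nat.eq_zero_or_pos j with rfl | hjpos
  · -- top block
    have hhi' : l * x < top m l J * Q m l J ^ i := by simpa [hi] using hhi
    have hlo' : v m l J 1 * Q m l J ^ i ≤ l * x := by simpa [lo] using hlo
    have ha : top m l J * Q m l J ^ i ≤ (m + l) * x := by
      have : l * (top m l J * Q m l J ^ i) ≤ l * ((m + l) * x) := by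
        calc l * (top m l J * Q m l J ^ i) = (m + l) * v m l J 1 * Q m l J ^ i := by
              rw [← l_mul_top]; ring
          _ = (m + l) * (v m l J 1 * Q m l J ^ i) := by ring
          _ ≤ (m + l) * (l * x) := Nat.mul_le_mul_left _ hlo'
          _ = l * ((m + l) * x) := by ring
      exact Nat.le_of_mul_le_mul_left this (by omega)
    have hb : (m + l) * x < Q m l J ^ (i + 1) := by
      calc (m + l) * x ≤ (m + l) * (l * x) := Nat.mul_le_mul_left _ (by nlinarith)
        _ < (m + l) * (top m l J * Q m l J ^ i) := Nat.mul_lt_mul_of_pos_left hhi' (by omega)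
        _ = Q m l J ^ (i + 1) := by unfold Q; ring
    obtain ⟨i', j', hj', hlo3, hhi3⟩ := h3
    have hii : i' ≤ i := by
      by_contra hcon
      push Not at hcon
      have h4 : Q m l J ^ (i + 1) ≤ Q m l J ^ i' := Nat.pow_le_pow_right (by omega) hcon
      have h5 : Q m l J ^ i' ≤ lo m l J j' * Q m l J ^ i' :=
        Nat.le_mul_of_pos_left _ (lo_pos (J := J) hl hm j')
      omega
    have h6 : Q m l J ^ i' ≤ Q m l J ^ i := Nat.pow_le_pow_right (by omega) hii
    have h7 := hi_le_top (J := J) hl hm hj'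
    have h8 : hi m l J j' * Q m l J ^ i' ≤ top m l J * Q m l J ^ i := Nat.mul_le_mul h7 h6
    omega
  · -- lower blocks
    have hhi' : l * x < v m l J (2 * j) * Q m l J ^ i := by
      simpa [hi, Nat.pos_iff_ne_zero.mp hjpos] using hhi
    have hlo' : v m l J (2 * j + 1) * Q m l J ^ i ≤ l * x := by simpa [lo] using hlo
    have hs1 := v_step (m := m) (l := l) (J := J) (e := 2 * j) (by omega)
    have hs2 := v_step (m := m) (l := l) (J := J) (e := 2 * j - 1) (by omega)
    rw [show 2 * j - 1 + 1 = 2 * j by omega] at hs2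
    have ha : v m l J (2 * j) * Q m l J ^ i ≤ m * x := by
      have : l * (v m l J (2 * j) * Q m l J ^ i) ≤ l * (m * x) := by
        calc l * (v m l J (2 * j) * Q m l J ^ i) = m * (v m l J (2 * j + 1) * Q m l J ^ i) := by
              rw [← mul_assoc, ← hs1]; ring
          _ ≤ m * (l * x) := Nat.mul_le_mul_left _ hlo'
          _ = l * (m * x) := by ring
      exact Nat.le_of_mul_le_mul_left this (by omega)
    have hb : m * x < v m l J (2 * j - 1) * Q m l J ^ i := by
      have : l * (m * x) < l * (v m l J (2 * j - 1) * Q m l J ^ i) := by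
        calc l * (m * x) = m * (l * x) := by ring
          _ < m * (v m l J (2 * j) * Q m l J ^ i) := Nat.mul_lt_mul_of_pos_left hhi' (by omega)
          _ = l * (v m l J (2 * j - 1) * Q m l J ^ i) := by
              rw [← mul_assoc, hs2]; ring
      exact Nat.lt_of_mul_lt_mul_left this
    obtain ⟨i', j', hj', hlo3, hhi3⟩ := h2
    have hvtop : v m l J (2 * j - 1) ≤ top m l J := by
      have h1 := v_anti (J := J) hl hm (a := 0) (b := 2 * j - 1) (by omega) (by omega)
      unfold top
      omega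
    have hii : i' ≤ i := by
      by_contra hcon
      push Not at hcon
      have h4 : Q m l J ^ (i + 1) ≤ Q m l J ^ i' := Nat.pow_le_pow_right (by omega) hcon
      have h5 : Q m l J ^ i' ≤ lo m l J j' * Q m l J ^ i' :=
        Nat.le_mul_of_pos_left _ (lo_pos (J := J) hl hm j')
      have h6 : v m l J (2 * j - 1) * Q m l J ^ i ≤ Q m l J ^ (i + 1) := by
        rw [pow_succ, mul_comm]
        exact Nat.mul_le_mul_left _ (le_trans hvtop (top_le_Q hl hm))
      omega
    have h7 := hi_le_top (J := J) hl hm hj'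
    rcases Nat.lt_or_ge i' i with hlt | hge
    · have h8 : Q m l J ^ (i' + 1) ≤ Q m l J ^ i := Nat.pow_le_pow_right (by omega) hlt
      have h9 : hi m l J j' * Q m l J ^ i' ≤ Q m l J ^ (i' + 1) := by
        rw [pow_succ, mul_comm]
        exact Nat.mul_le_mul_left _ (le_trans h7 (top_le_Q hl hm))
      have h10 := v_pos (J := J) hl hm (2 * j)
      have h11 : Q m l J ^ i ≤ v m l J (2 * j) * Q m l J ^ i := Nat.le_mul_of_pos_left _ h10
      omega
    · obtain rfl : i' = i := le_antisymm hii hge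
      have hjj : j ≤ j' := by
        by_contra hcon
        push Not at hcon
        have h12 : v m l J (2 * j - 1) ≤ v m l J (2 * j' + 1) :=
          v_anti hl hm (by omega) (by omega)
        have h13 : v m l J (2 * j' + 1) * Q m l J ^ i' < v m l J (2 * j - 1) * Q m l J ^ i' :=
          lt_of_le_of_lt hlo3 hb
        have := Nat.lt_of_mul_lt_mul_right h13
        omega
      have h14 : hi m l J j' = v m l J (2 * j') := by
        unfold hi
        rw [if_neg (by omega)]
      rw [h14] at hhi3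
      have h15 : v m l J (2 * j') ≤ v m l J (2 * j) := v_anti hl hm (by omega) (by omega)
      have h16 : v m l J (2 * j') * Q m l J ^ i' ≤ v m l J (2 * j) * Q m l J ^ i' :=
        Nat.mul_le_mul_right _ h15
      omega

end construction

/-- The set: `S` shrunk by `√a`, together with all non-multiples of `M`. -/
def A (m l J M : ℕ) : Set ℕ :=
  {a | 1 ≤ a ∧ (M ∣ a → ∀ b, a ≤ b + Nat.sqrt a → b ≤ a + Nat.sqrt a → b ∈ S m l J)}

lemma no_pattern {m l J M : ℕ} (hl : 1 ≤ l) (hm : l < m) (B : Set ℕ) (hB : B.Infinite) (t : ℕ)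
    (hdiv : ∀ b₁ ∈ B, ∀ b₂ ∈ B, M ∣ m * b₁ + l * b₂ + t)
    (hA : ∀ b₁ ∈ B, ∀ b₂ ∈ B, m * b₁ + l * b₂ + t ∈ A m l J M) : False := by
  obtain ⟨b₁, hb₁⟩ := hB.nonempty
  obtain ⟨b, hb, hbig⟩ := hB.exists_gt ((m * b₁ + l * b₁ + t) ^ 2)
  have hsq : ∀ c a : ℕ, c ≤ m * b₁ + l * b₁ + t → b ≤ a → c ≤ Nat.sqrt a := by
    intro c a hc ha
    rw [Nat.le_sqrt']
    calc c ^ 2 ≤ (m * b₁ + l * b₁ + t) ^ 2 := Nat.pow_le_pow_left hc 2
      _ ≤ a := by omega
  have hlb : b ≤ l * b := Nat.le_mul_of_pos_left _ hl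
  have hmb : b ≤ m * b := Nat.le_mul_of_pos_left _ (by omega)
  have h1 : l * b ∈ S m l J := by
    have hs := hsq (m * b₁ + t) (m * b₁ + l * b + t) (by omega) (by omega)
    exact (hA b₁ hb₁ b hb).2 (hdiv b₁ hb₁ b hb) (l * b) (by omega) (by omega)
  have h2 : m * b ∈ S m l J := by
    have hs := hsq (l * b₁ + t) (m * b + l * b₁ + t) (by omega) (by omega)
    exact (hA b hb b₁ hb₁).2 (hdiv b hb b₁ hb₁) (m * b) (by omega) (by omega)
  have h3 : (m + l) * b ∈ S m l J := by
    have hs := hsq t (m * b + l * b + t) (by omega) (by omega)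
    refine (hA b hb b hb).2 (hdiv b hb b hb) ((m + l) * b) ?_ ?_
    · rw [add_mul]; omega
    · rw [add_mul]; omega
  exact noS hl hm b h1 h2 h3

/-! ### Counting -/

lemma card_mult_Ico (M : ℕ) (hM : 1 ≤ M) (a b : ℤ) (hab : a ≤ b) :
    (((Finset.Ico a b).filter (fun x : ℤ => (M : ℤ) ∣ x)).card : ℝ) ≤ ((b : ℝ) - a) / M + 1 := by
  have h := Int.Ico_filter_dvd_card a b (r := (M : ℤ)) (by exact_mod_cast hM)
  have hM' : (0 : ℚ) < (M : ℚ) := by exact_mod_cast hM
  have h2 : ((((Finset.Ico a b).filter (fun x : ℤ => (M : ℤ) ∣ x)).card : ℤ) : ℚ)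
      ≤ ((b : ℚ) - a) / M + 1 := by
    rw [h]
    push_cast
    have h3 := Int.ceil_lt_add_one ((b : ℚ) / (M : ℚ))
    have h4 := Int.le_ceil ((a : ℚ) / (M : ℚ))
    apply max_le
    · rw [sub_div]
      linarith
    · have : (0 : ℚ) ≤ (b : ℚ) - a := by exact_mod_cast sub_nonneg.mpr hab
      positivity
  exact_mod_cast h2

/-- The complement blocks at scale `i`: `j = 0` the top end, `1 ≤ j ≤ J` the gaps,
`j = J + 1` the bottom. -/
def cLo (m l J : ℕ) (q W : ℤ) (j : ℕ) : ℤ :=
  if j = 0 then top m l J * q - W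
  else if j ≤ J then v m l J (2 * j) * q - W else 0

def cHi (m l J : ℕ) (q W : ℤ) (j : ℕ) : ℤ :=
  if j = 0 then top m l J * q + W
  else if j ≤ J then v m l J (2 * j - 1) * q + W else v m l J (2 * J + 1) * q + W

lemma cover {m l J : ℕ} (M i : ℕ) (W : ℕ)
    (hW : Nat.sqrt (top m l J * Q m l J ^ i) + 1 = W)
    (a : ℕ) (ha1 : 1 ≤ a) (ha2 : a ≤ top m l J * Q m l J ^ i) (haA : a ∉ A m l J M) :
    M ∣ a ∧ ∃ j ∈ Finset.range (J + 2), cLo m l J (Q m l J ^ i : ℕ) W j ≤ a ∧
      (a : ℤ) < cHi m l J (Q m l J ^ i : ℕ) W j := by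
  set q : ℕ := Q m l J ^ i with hq
  simp only [A, Set.mem_ofPred_eq, not_and, not_forall] at haA
  obtain ⟨hMa, b, hb1, hb2, hbS⟩ := haA ha1
  refine ⟨hMa, ?_⟩
  by_contra hcon
  push Not at hcon
  have hsa : Nat.sqrt a ≤ W - 1 := by
    have := Nat.sqrt_le_sqrt ha2
    omega
  have hW1 : 1 ≤ W := by omega
  -- facts for each j
  have h0 : a + W < top m l J * q := by
    have := hcon 0 (by simp)
    simp only [cLo, cHi, if_true] at this
    by_contra hc
    push Not at hc
    have h1 : ((top m l J * q : ℕ) : ℤ) ≤ ((a + W : ℕ) : ℤ) := by exact_mod_cast hc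
    have h2 : ((a : ℕ) : ℤ) ≤ ((top m l J * q : ℕ) : ℤ) := by exact_mod_cast ha2
    push_cast at h1 h2
    have := this (by linarith)
    have hWz : (1 : ℤ) ≤ W := by exact_mod_cast hW1
    linarith
  have hbot : v m l J (2 * J + 1) * q + W ≤ a := by
    have := hcon (J + 1) (by simp)
    simp only [cLo, cHi, if_neg (show ¬ (J + 1 = 0) by omega),
      if_neg (show ¬ (J + 1 ≤ J) by omega)] at this
    have := this (by positivity)
    exact_mod_cast this
  have hmid : ∀ j, 1 ≤ j → j ≤ J → a + W < v m l J (2 * j) * q ∨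
      v m l J (2 * j - 1) * q + W ≤ a := by
    intro j hj1 hjJ
    have := hcon j (by simp; omega)
    simp only [cLo, cHi, if_neg (show ¬ (j = 0) by omega), if_pos hjJ] at this
    by_cases hc : a + W < v m l J (2 * j) * q
    · exact Or.inl hc
    · right
      push Not at hc
      have h1 : ((v m l J (2 * j) * q : ℕ) : ℤ) ≤ ((a + W : ℕ) : ℤ) := by exact_mod_cast hc
      push_cast at h1
      have := this (by linarith)
      exact_mod_cast this
  -- minimal j with v (2j+1) q + W ≤ a
  have hex : ∃ j, v m l J (2 * j + 1) * q + W ≤ a := ⟨J, hbot⟩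
  classical
  set j := Nat.find hex with hjdef
  have hj := Nat.find_spec hex
  rw [← hjdef] at hj
  have hjJ : j ≤ J := Nat.find_min' hex hbot
  apply hbS
  refine ⟨i, j, hjJ, ?_, ?_⟩
  · show lo m l J j * q ≤ b
    unfold lo
    omega
  · show b < hi m l J j * q
    unfold hi
    split_ifs with hj0
    · omega
    · have hmin := Nat.find_min hex (m := j - 1) (by omega)
      rw [show 2 * (j - 1) + 1 = 2 * j - 1 by omega] at hmin
      rcases hmid j (by omega) hjJ with h | h
      · omega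
      · exact absurd h hmin

/-- total length of the gaps divided by the scale -/
noncomputable def D (m l J : ℕ) : ℝ :=
  (∑ j ∈ Finset.range J, ((v m l J (2 * j + 1) : ℝ) - v m l J (2 * j + 2))) +
    v m l J (2 * J + 1)

lemma D_eq (m l J : ℕ) :
    ((m : ℝ) + l) * D m l J = m * v m l J 1 + l * v m l J (2 * J + 1) := by
  have key : ∀ K, K ≤ J → ((m : ℝ) + l) *
      (∑ j ∈ Finset.range K, ((v m l J (2 * j + 1) : ℝ) - v m l J (2 * j + 2))) =
      m * v m l J 1 - m * v m l J (2 * K + 1) := by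
    intro K hK
    induction K with
    | zero => simp
    | succ K ih =>
      rw [Finset.sum_range_succ, mul_add, ih (by omega)]
      have h1 := v_step (m := m) (l := l) (J := J) (e := 2 * K + 1) (by omega)
      have h2 := v_step (m := m) (l := l) (J := J) (e := 2 * K + 2) (by omega)
      have h1' : (m : ℝ) * v m l J (2 * K + 2) = l * v m l J (2 * K + 1) := by
        exact_mod_cast h1
      have h2' : (m : ℝ) * v m l J (2 * (K + 1) + 1) = l * v m l J (2 * K + 2) := by
        have : 2 * (K + 1) + 1 = 2 * K + 2 + 1 := by ring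
        rw [this]
        exact_mod_cast h2
      linear_combination -h1' + h2'
  unfold D
  rw [mul_add, key J le_rfl]
  ring

open Classical in
lemma count_compl {m l J : ℕ} (hl : 1 ≤ l) (hm : l < m) (M i : ℕ) (hM : 1 ≤ M) :
    ((((Finset.Icc 1 (top m l J * Q m l J ^ i)).filter (fun a => a ∉ A m l J M)).card : ℕ) : ℝ)
      ≤ ((Q m l J ^ i : ℕ) * D m l J +
          (2 * J + 3) * ((Nat.sqrt (top m l J * Q m l J ^ i) : ℝ) + 1)) / M + (J + 2) := by
  set N : ℕ := top m l J * Q m l J ^ i with hN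
  set W : ℕ := Nat.sqrt N + 1 with hWdef
  set q : ℕ := Q m l J ^ i with hq
  have hWc : ((Nat.sqrt N : ℝ) + 1) = (W : ℝ) := by rw [hWdef]; push_cast; ring
  rw [hWc]
  have hle : ∀ j ∈ Finset.range (J + 2), cLo m l J q W j ≤ cHi m l J q W j := by
    intro j hj
    simp only [Finset.mem_range] at hj
    have hW0 : (0 : ℤ) ≤ W := by positivity
    unfold cLo cHi
    split_ifs with h1 h2
    · linarith
    · have h3 := v_anti (J := J) hl hm (a := 2 * j - 1) (b := 2 * j) (by omega) (by omega)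
      have h4 : (v m l J (2 * j) : ℤ) * q ≤ v m l J (2 * j - 1) * q := by
        exact_mod_cast Nat.mul_le_mul_right q h3
      linarith
    · positivity
  have hsub : ((Finset.Icc 1 N).filter (fun a => a ∉ A m l J M)).image (fun a : ℕ => (a : ℤ)) ⊆
      (Finset.range (J + 2)).biUnion (fun j =>
        (Finset.Ico (cLo m l J q W j) (cHi m l J q W j)).filter (fun x : ℤ => (M : ℤ) ∣ x)) := by
    intro x hx
    simp only [Finset.mem_image, Finset.mem_filter, Finset.mem_Icc] at hx
    obtain ⟨a, ⟨⟨ha1, ha2⟩, haA⟩, rfl⟩ := hx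
    obtain ⟨hMa, j, hj, h1, h2⟩ := cover (m := m) (l := l) (J := J) M i W rfl a ha1 ha2 haA
    simp only [Finset.mem_biUnion, Finset.mem_filter, Finset.mem_Ico]
    exact ⟨j, hj, ⟨h1, h2⟩, by exact_mod_cast hMa⟩
  have hcard : (((Finset.Icc 1 N).filter (fun a => a ∉ A m l J M)).card : ℝ) ≤
      ∑ j ∈ Finset.range (J + 2), (((cHi m l J q W j : ℤ) : ℝ) - (cLo m l J q W j : ℤ)) / M
        + ∑ j ∈ Finset.range (J + 2), (1 : ℝ) := by
    rw [← Finset.sum_add_distrib]
    have h1 : ((Finset.Icc 1 N).filter (fun a => a ∉ A m l J M)).card =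
        (((Finset.Icc 1 N).filter (fun a => a ∉ A m l J M)).image (fun a : ℕ => (a : ℤ))).card := by
      rw [Finset.card_image_of_injective _ Nat.cast_injective]
    rw [h1]
    have h2 := (Finset.card_le_card hsub).trans Finset.card_biUnion_le
    calc (((((Finset.Icc 1 N).filter (fun a => a ∉ A m l J M)).image
          (fun a : ℕ => (a : ℤ))).card : ℕ) : ℝ) ≤ ((∑ j ∈ Finset.range (J + 2),
          ((Finset.Ico (cLo m l J q W j) (cHi m l J q W j)).filter
            (fun x : ℤ => (M : ℤ) ∣ x)).card : ℕ) : ℝ) := by exact_mod_cast h2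
      _ = ∑ j ∈ Finset.range (J + 2), (((Finset.Ico (cLo m l J q W j)
          (cHi m l J q W j)).filter (fun x : ℤ => (M : ℤ) ∣ x)).card : ℝ) := by push_cast; rfl
      _ ≤ _ := Finset.sum_le_sum (fun j hj => card_mult_Ico M hM _ _ (hle j hj))
  refine hcard.trans ?_
  rw [← Finset.sum_div]
  simp only [Finset.sum_const, Finset.card_range, nsmul_eq_mul, mul_one]
  push_cast
  gcongr
  rw [Finset.sum_range_succ, Finset.sum_range_succ']
  have e1 : ∀ j ∈ Finset.range J, ((cHi m l J q W (j + 1) : ℤ) : ℝ) - (cLo m l J q W (j + 1) : ℤ)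
      = q * ((v m l J (2 * j + 1) : ℝ) - v m l J (2 * j + 2)) + 2 * W := by
    intro j hj
    simp only [Finset.mem_range] at hj
    simp only [cHi, cLo, if_neg (show ¬ (j + 1 = 0) by omega), if_pos (show j + 1 ≤ J by omega)]
    rw [show 2 * (j + 1) - 1 = 2 * j + 1 by omega, show 2 * (j + 1) = 2 * j + 2 by ring]
    push_cast
    ring
  rw [Finset.sum_congr rfl e1, Finset.sum_add_distrib, ← Finset.mul_sum]
  simp only [cHi, cLo, if_true, if_neg (show ¬ (J + 1 = 0) by omega),
    if_neg (show ¬ (J + 1 ≤ J) by omega), Finset.sum_const, Finset.card_range, nsmul_eq_mul]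
  unfold D
  push_cast
  apply le_of_eq
  ring

lemma tendsto_sqrt_div :
    Tendsto (fun N : ℕ => ((Nat.sqrt N : ℝ) + 1) / N) atTop (nhds 0) := by
  have h1 : Tendsto (fun N : ℕ => 1 / Real.sqrt N + 1 / (N : ℝ)) atTop (nhds (0 + 0)) := by
    apply Tendsto.add
    · have := (tendsto_inv_atTop_zero.comp
        (Real.tendsto_sqrt_atTop.comp tendsto_natCast_atTop_atTop) :
        Tendsto (fun N : ℕ => (Real.sqrt N)⁻¹) atTop (nhds 0))
      simp only [one_div]
      exact this
    · exact tendsto_one_div_atTop_nhds_zero_nat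
  rw [add_zero] at h1
  refine squeeze_zero (fun N => by positivity) (fun N => ?_) h1
  have h2 := Real.nat_sqrt_le_real_sqrt (a := N)
  rw [add_div]
  have h3 : ((Nat.sqrt N : ℝ)) / N ≤ Real.sqrt N / N := by gcongr
  rw [Real.sqrt_div_self'] at h3
  linarith

lemma le_upperDensity {m l J : ℕ} (hl : 1 ≤ l) (hm : l < m) (M : ℕ) (hM : 1 ≤ M) (c : ℝ)
    (hc : c < 1 - D m l J / (M * top m l J)) : c ≤ upperDensity (A m l J M) := by
  classical
  have htop : (0 : ℝ) < top m l J := by exact_mod_cast top_pos (J := J) hl hm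
  have hMr : (0 : ℝ) < M := by exact_mod_cast hM
  set Nf : ℕ → ℕ := fun i => top m l J * Q m l J ^ i with hNf
  have hNtop : Tendsto Nf atTop atTop := by
    apply tendsto_atTop_mono (f := fun i => Q m l J ^ i)
    · intro i
      exact Nat.le_mul_of_pos_left _ (top_pos hl hm)
    · exact tendsto_pow_atTop_atTop_of_one_lt (one_lt_Q hl hm)
  have hg : Tendsto (fun i => 1 - D m l J / (M * top m l J) -
      ((2 * J + 3) / M * (((Nat.sqrt (Nf i) : ℝ) + 1) / (Nf i : ℝ)) +
        (J + 2) * (1 / (Nf i : ℝ)))) atTop (nhds (1 - D m l J / (M * top m l J) -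
          ((2 * J + 3) / M * 0 + (J + 2) * 0))) := by
    apply Tendsto.sub tendsto_const_nhds
    apply Tendsto.add
    · exact Tendsto.const_mul _ (tendsto_sqrt_div.comp hNtop)
    · exact Tendsto.const_mul _ (tendsto_one_div_atTop_nhds_zero_nat.comp hNtop)
  have hg' : ∀ᶠ i in atTop, c < 1 - D m l J / (M * top m l J) -
      ((2 * J + 3) / M * (((Nat.sqrt (Nf i) : ℝ) + 1) / (Nf i : ℝ)) +
        (J + 2) * (1 / (Nf i : ℝ))) := by
    apply hg.eventually_const_lt
    simpa using hc
  have hfreq : ∃ᶠ N : ℕ in atTop, c ≤ ((A m l J M ∩ Set.Icc 1 N).ncard : ℝ) / N := by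
    have : ∃ᶠ i in atTop, c ≤ ((A m l J M ∩ Set.Icc 1 (Nf i)).ncard : ℝ) / (Nf i) := by
      apply Eventually.frequently
      filter_upwards [hg'] with i hi
      refine hi.le.trans ?_
      have hq : (0 : ℝ) < ((Q m l J ^ i : ℕ) : ℝ) := by exact_mod_cast pow_pos (Q_pos hl hm) i
      have hNr : (0 : ℝ) < (Nf i : ℝ) := by
        have h1 : 0 < Nf i := Nat.mul_pos (top_pos hl hm) (pow_pos (Q_pos hl hm) i)
        exact_mod_cast h1
      have hNe : ((Nf i : ℕ) : ℝ) = top m l J * ((Q m l J ^ i : ℕ) : ℝ) := by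
        simp only [hNf]; push_cast; ring
      have hcount := count_compl (J := J) hl hm M i hM
      have hsum : ((A m l J M ∩ Set.Icc 1 (Nf i)).ncard : ℝ) +
          (((Finset.Icc 1 (Nf i)).filter (fun a => a ∉ A m l J M)).card : ℝ) = Nf i := by
        have h1 : (A m l J M ∩ Set.Icc 1 (Nf i)).ncard =
            ((Finset.Icc 1 (Nf i)).filter (fun a => a ∈ A m l J M)).card := by
          rw [← Set.ncard_coe_finset]
          congr 1
          ext x
          simp only [Set.mem_inter_iff, Finset.coe_filter, Finset.mem_Icc, Set.mem_ofPred_eq,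
            Set.mem_Icc]
          tauto
        rw [h1]
        have h2 := Finset.card_filter_add_card_filter_not (s := Finset.Icc 1 (Nf i))
          (fun a => a ∈ A m l J M)
        rw [Nat.card_Icc] at h2
        have h3 : (Nf i + 1 - 1) = Nf i := by omega
        rw [h3] at h2
        exact_mod_cast h2
      rw [le_div_iff₀ hNr]
      have e1 : (1 - D m l J / (M * top m l J) -
          ((2 * J + 3) / M * (((Nat.sqrt (Nf i) : ℝ) + 1) / (Nf i : ℝ)) +
          (J + 2) * (1 / (Nf i : ℝ)))) * (Nf i : ℝ) =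
          (Nf i : ℝ) - (((Q m l J ^ i : ℕ) * D m l J +
          (2 * J + 3) * ((Nat.sqrt (Nf i) : ℝ) + 1)) / M + (J + 2)) := by
        have hsq : ((Nat.sqrt (Nf i) : ℝ) + 1) / (Nf i : ℝ) * (Nf i : ℝ) =
          ((Nat.sqrt (Nf i) : ℝ) + 1) := div_mul_cancel₀ _ hNr.ne'
        have hD : D m l J / (M * top m l J) * (Nf i : ℝ) = (Q m l J ^ i : ℕ) * D m l J / M := by
          rw [hNe]
          field_simp
        have hone : 1 / (Nf i : ℝ) * (Nf i : ℝ) = 1 := div_mul_cancel₀ _ hNr.ne'
        calc _ = (Nf i : ℝ) - D m l J / (M * top m l J) * (Nf i : ℝ) -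
              ((2 * J + 3) / M * (((Nat.sqrt (Nf i) : ℝ) + 1) / (Nf i : ℝ) * (Nf i : ℝ)) +
                (J + 2) * (1 / (Nf i : ℝ) * (Nf i : ℝ))) := by ring
          _ = _ := by rw [hsq, hD, hone]; ring
      rw [e1]
      linarith
    exact hNtop.frequently this
  unfold upperDensity
  refine le_limsup_of_frequently_le hfreq ?_
  refine ⟨1, ?_⟩
  simp only [eventually_map]
  refine Eventually.of_forall (fun N => ?_)
  rcases Nat.eq_zero_or_pos N with rfl | hN
  · simp
  · rw [div_le_one (by exact_mod_cast hN)]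
    have h1 : (A m l J M ∩ Set.Icc 1 N).ncard ≤ (Set.Icc 1 N).ncard :=
      Set.ncard_le_ncard Set.inter_subset_right (Set.finite_Icc 1 N)
    have h2 : (Set.Icc 1 N).ncard = N := by
      rw [← Finset.coe_Icc, Set.ncard_coe_finset, Nat.card_Icc]
      omega
    rw [h2] at h1
    exact_mod_cast h1

lemma exists_J {m l : ℕ} (hl : 1 ≤ l) (hm : l < m) :
    ∃ J : ℕ, (l : ℝ) ^ (2 * J) * (m + 2 * l) < l * (m : ℝ) ^ (2 * J) := by
  have hm0 : (0 : ℝ) < m := by exact_mod_cast (by omega : 0 < m)
  have hl0 : (0 : ℝ) < l := by exact_mod_cast hl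
  have hr : (l : ℝ) / m < 1 := by
    rw [div_lt_one hm0]; exact_mod_cast hm
  obtain ⟨n, hn⟩ := exists_pow_lt_of_lt_one (show (0 : ℝ) < l / (m + 2 * l) by positivity) hr
  refine ⟨n, ?_⟩
  have h1 : ((l : ℝ) / m) ^ (2 * n) ≤ (l / m) ^ n :=
    pow_le_pow_of_le_one (by positivity) hr.le (by omega)
  have h2 : ((l : ℝ) / m) ^ (2 * n) < l / (m + 2 * l) := lt_of_le_of_lt h1 hn
  rw [div_pow, div_lt_div_iff₀ (by positivity) (by positivity)] at h2
  exact h2

/-- Main construction. -/
theorem main (m l M : ℕ) (hl : 1 ≤ l) (hm : l < m) (hM : 1 ≤ M) :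
    ∃ A : Set ℕ, 0 ∉ A ∧ 1 - (l : ℝ) / (M * (m + 2 * l)) < upperDensity A ∧
      ∀ B : Set ℕ, B.Infinite → ∀ t : ℕ,
        (∀ b₁ ∈ B, ∀ b₂ ∈ B, M ∣ m * b₁ + l * b₂ + t) →
        ¬ (∀ b₁ ∈ B, ∀ b₂ ∈ B, m * b₁ + l * b₂ + t ∈ A) := by
  obtain ⟨J, hJ⟩ := exists_J hl hm
  refine ⟨A m l J M, fun h => by simpa using h.1, ?_, fun B hB t hdiv hA =>
    no_pattern hl hm B hB t hdiv hA⟩
  have hm0 : (0 : ℝ) < m := by exact_mod_cast (by omega : 0 < m)
  have hl0 : (0 : ℝ) < l := by exact_mod_cast hl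
  have hM0 : (0 : ℝ) < M := by exact_mod_cast hM
  have htop : (0 : ℝ) < top m l J := by exact_mod_cast top_pos (J := J) hl hm
  have hv1 : (0 : ℝ) < v m l J 1 := by exact_mod_cast v_pos (J := J) hl hm 1
  have hD := D_eq m l J
  have ht : (l : ℝ) * top m l J = (m + l) * v m l J 1 := by
    exact_mod_cast l_mul_top (m := m) (l := l) (J := J)
  have hv1e : (v m l J 1 : ℝ) = l * m ^ (2 * J) := by
    unfold v
    rw [show 2 * J + 1 - 1 = 2 * J by omega]
    push_cast; ring
  have hve : (v m l J (2 * J + 1) : ℝ) = l * l ^ (2 * J) := by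
    unfold v
    rw [show 2 * J + 1 - (2 * J + 1) = 0 by omega]
    push_cast; ring
  have key : D m l J / top m l J < l / (m + 2 * l) := by
    rw [div_lt_div_iff₀ htop (by positivity)]
    have h1 : ((m : ℝ) + l) * (D m l J * (m + 2 * l)) < ((m : ℝ) + l) * (l * top m l J) := by
      calc ((m : ℝ) + l) * (D m l J * (m + 2 * l))
          = (((m : ℝ) + l) * D m l J) * (m + 2 * l) := by ring
        _ = (m * v m l J 1 + l * v m l J (2 * J + 1)) * (m + 2 * l) := by rw [hD]
        _ < (m + l) * ((m + l) * v m l J 1) := by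
            have h2 : l * (v m l J (2 * J + 1) : ℝ) * (m + 2 * l) < l ^ 2 * v m l J 1 := by
              rw [hv1e, hve]
              have := mul_lt_mul_of_pos_left hJ (by positivity : (0 : ℝ) < l * l)
              nlinarith
            nlinarith
        _ = ((m : ℝ) + l) * (l * top m l J) := by rw [ht]
    exact lt_of_mul_lt_mul_left h1 (by positivity)
  have key2 : 1 - (l : ℝ) / (M * (m + 2 * l)) < 1 - D m l J / (M * top m l J) := by
    have h3 : D m l J / (M * top m l J) = (D m l J / top m l J) / M := by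
      field_simp
    have h4 : (l : ℝ) / (M * (m + 2 * l)) = (l / (m + 2 * l)) / M := by
      field_simp
    rw [h3, h4]
    have := div_lt_div_of_pos_right key hM0
    linarith
  obtain ⟨c, hc1, hc2⟩ := exists_between key2
  exact lt_of_lt_of_le hc1 (le_upperDensity hl hm M hM c hc2)

end Pool.Agent.Q296.SumThreshold
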