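import Pool.Agent.Q296.Net2

/-!
# The edge-coloured dense graphs that need many monochromatic connected pieces
-/

set_option linter.unusedSectionVars false
set_option linter.unusedVariables false

namespace Pool.Agent.Q296.TreeCov

open Finset Pool.Agent.Q296.Net
open Classical

section
variable {p : ℕ} [Fact p.Prime] {M : ℕ} (c : Fin M → ZMod p) (η : ℝ)

/-- probes: selections covering at least the fraction `1 - η` of the points -/
abbrev Fam : Type := {f : Pos p → Option (ZMod p) //
  (1 - η) * (M * p) ≤ ((univ.filter (fun x : Pt M p => Covers c f x)).card : ℝ)}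

/-- vertex labels -/
abbrev Lab : Type := Pt M p ⊕ (Fam c η × Fin (p ^ 2 + 1))

/-- adjacency of labels -/
def adjL : Lab c η → Lab c η → Prop
  | Sum.inl _, Sum.inl _ => True
  | Sum.inl x, Sum.inr y => Covers c y.1.1 x
  | Sum.inr y, Sum.inl x => Covers c y.1.1 x
  | Sum.inr _, Sum.inr _ => False

/-- the position chosen to cover `x` -/
noncomputable def sel (f : Pos p → Option (ZMod p)) (x : Pt M p) : Option (Pos p) :=
  if h : Covers c f x then some (Classical.choose h) else none

lemma sel_spec {f : Pos p → Option (ZMod p)} {x : Pt M p} {i : Pos p} (h : sel c f x = some i) :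
    f i = some (cell c i x) := by
  unfold sel at h
  split_ifs at h with h1
  have h2 := Classical.choose_spec h1
  rw [Option.some.injEq] at h
  rw [h] at h2
  exact h2

lemma sel_isSome {f : Pos p → Option (ZMod p)} {x : Pt M p} (h : Covers c f x) :
    ∃ i, sel c f x = some i := by
  unfold sel
  rw [dif_pos h]
  exact ⟨_, rfl⟩

/-- colour of a pair of labels -/
noncomputable def colL : Lab c η → Lab c η → Option (Pos p)
  | Sum.inl _, Sum.inl _ => none
  | Sum.inl x, Sum.inr y => sel c y.1.1 x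
  | Sum.inr y, Sum.inl x => sel c y.1.1 x
  | Sum.inr _, Sum.inr _ => none

/-- the cell of a label in position `i` -/
def cel (i : Pos p) : Lab c η → Option (ZMod p)
  | Sum.inl x => some (cell c i x)
  | Sum.inr y => y.1.1 i

lemma adjL_symm {a b : Lab c η} (h : adjL c η a b) : adjL c η b a := by
  rcases a with a | a <;> rcases b with b | b <;> exact h

lemma colL_symm (a b : Lab c η) : colL c η a b = colL c η b a := by
  rcases a with a | a <;> rcases b with b | b <;> simp [colL]

lemma cel_eq {a b : Lab c η} {i : Pos p} (hcol : colL c η a b = some i) :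
    cel c η i a = cel c η i b := by
  rcases a with a | a <;> rcases b with b | b
  · simp [colL] at hcol
  · simp only [colL] at hcol
    simp only [cel]
    rw [sel_spec c hcol]
  · simp only [colL] at hcol
    simp only [cel]
    rw [sel_spec c hcol]
  · simp [colL] at hcol

variable {n : ℕ} (lab : Fin n → Lab c η)

/-- the graph -/
def gr : SimpleGraph (Fin n) where
  Adj u v := u ≠ v ∧ adjL c η (lab u) (lab v)
  symm := ⟨fun u v h => ⟨h.1.symm, adjL_symm c η h.2⟩⟩
  loopless := ⟨fun u h => h.1 rfl⟩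

/-- the colouring -/
noncomputable def colr (φ : Option (Pos p) → Fin (2 * p + 1)) : Sym2 (Fin n) → Fin (2 * p + 1) :=
  Sym2.lift ⟨fun u v => φ (colL c η (lab u) (lab v)), fun u v => congrArg φ (colL_symm c η (lab u) (lab v))⟩

lemma colr_mk (φ : Option (Pos p) → Fin (2 * p + 1)) (u v : Fin n) :
    colr c η lab φ s(u, v) = φ (colL c η (lab u) (lab v)) := rfl

/-- a connected monochromatic piece containing a probe and another vertex has a common cell -/
lemma common_cell {φ : Option (Pos p) → Fin (2 * p + 1)} (hφ : Function.Injective φ)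
    (H : (gr c η lab).Subgraph) (hH : H.coe.Preconnected) {κ : Fin (2 * p + 1)}
    (hκ : ∀ e ∈ H.edgeSet, colr c η lab φ e = κ) {u0 u1 : Fin n} (h0 : u0 ∈ H.verts)
    (h1 : u1 ∈ H.verts) (h01 : u0 ≠ u1) {y : Fam c η × Fin (p ^ 2 + 1)}
    (hy : lab u0 = Sum.inr y) :
    ∃ a : Pos p × ZMod p, ∀ u ∈ H.verts, cel c η a.1 (lab u) = some a.2 := by
  obtain ⟨w⟩ := hH ⟨u0, h0⟩ ⟨u1, h1⟩
  cases w with
  | nil => exact absurd rfl h01
  | @cons _ u2 _ hadj w =>
    have ha : H.Adj u0 u2.1 := by simpa using hadj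
    have hg : (gr c η lab).Adj u0 u2.1 := ha.adj_sub
    have hg2 : adjL c η (lab u0) (lab u2.1) := hg.2
    rw [hy] at hg2
    rcases hx : lab u2.1 with x | x
    · rw [hx] at hg2
      have hcov : Covers c y.1.1 x := hg2
      obtain ⟨i, hi⟩ := sel_isSome c hcov
      have hcol : φ (some i) = κ := by
        rw [← hκ s(u0, u2.1) (by simpa using ha), colr_mk, hy, hx]
        simp only [colL]
        rw [hi]
      have hconst : ∀ (a b : H.verts), H.coe.Walk a b →
          cel c η i (lab a.1) = cel c η i (lab b.1) := by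
        intro a b w
        induction w with
        | nil => rfl
        | @cons a b _ hab w ih =>
          rw [← ih]
          have hab' : H.Adj a.1 b.1 := by simpa using hab
          apply cel_eq
          have := hκ s(a.1, b.1) (by simpa using hab')
          rw [colr_mk, ← hcol] at this
          exact hφ this
      refine ⟨(i, cell c i x), ?_⟩
      intro u hu
      obtain ⟨w'⟩ := hH ⟨u, hu⟩ ⟨u0, h0⟩
      have := hconst _ _ w'
      simp only at this
      rw [this, hy]
      simp only [cel]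
      exact sel_spec c hi
    · rw [hx] at hg2
      exact absurd hg2 (by simp [adjL])

lemma core {φ : Option (Pos p) → Fin (2 * p + 1)} (hφ : Function.Injective φ)
    (hlab : ∀ y : Fam c η × Fin (p ^ 2 + 1), ∃ u, lab u = Sum.inr y)
    (hnet : ∀ S : Finset (Pos p × ZMod p), S.card ≤ p ^ 2 →
      ∃ f : Fam c η, ∀ i v, f.1 i = some v → (i, v) ∉ S)
    (k : ℕ) (T : Fin k → (gr c η lab).Subgraph) (hpre : ∀ t, (T t).coe.Preconnected)
    (hmono : ∀ t, ∃ κ, ∀ e ∈ (T t).edgeSet, colr c η lab φ e = κ)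
    (hcov : ∀ u, ∃ t, u ∈ (T t).verts) : p ^ 2 < k := by
  by_contra hk
  push Not at hk
  set g : Fin k → Pos p × ZMod p := fun t =>
    if h : ∃ a : Pos p × ZMod p, ∀ u ∈ (T t).verts, cel c η a.1 (lab u) = some a.2
    then Classical.choose h else ((0, 0), 0) with hg
  set S : Finset (Pos p × ZMod p) := univ.image g with hS
  have hScard : S.card ≤ p ^ 2 := by
    refine le_trans card_image_le ?_
    simpa using hk
  obtain ⟨f, hf⟩ := hnet S hScard
  have hw : ∀ j : Fin (p ^ 2 + 1), ∃ u, lab u = Sum.inr (f, j) := fun j => hlab (f, j)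
  choose w hw using hw
  choose τ hτ using hcov
  have hcard : Fintype.card (Fin k) < Fintype.card (Fin (p ^ 2 + 1)) := by simp; omega
  obtain ⟨j, j', hjj, hj⟩ := Fintype.exists_ne_map_eq_of_card_lt (fun j => τ (w j)) hcard
  have hj : τ (w j) = τ (w j') := hj
  have hww : w j ≠ w j' := by
    intro h
    have := hw j
    rw [h, hw j'] at this
    simp at this
    exact hjj this.symm
  obtain ⟨κ, hκ⟩ := hmono (τ (w j))
  have hgood := common_cell c η lab hφ (T (τ (w j))) (hpre _) hκ (hτ (w j))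
    (by rw [hj]; exact hτ (w j')) hww (hw j)
  have hspec := Classical.choose_spec hgood (w j) (hτ (w j))
  have hgt : g (τ (w j)) = Classical.choose hgood := by
    rw [hg]
    simp only
    rw [dif_pos hgood]
  rw [← hgt, hw j] at hspec
  simp only [cel] at hspec
  apply hf _ _ hspec
  rw [hS]
  apply mem_image_of_mem _ (mem_univ _)

end

section
variable {p : ℕ} [Fact p.Prime] {M : ℕ} (c : Fin M → ZMod p) (η : ℝ) (N : ℕ)

/-- the label of a vertex -/
def labV : (Pt M p × Fin N) ⊕ (Fam c η × Fin (p ^ 2 + 1)) → Lab c η :=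
  Sum.map Prod.fst id

lemma card_pt : Fintype.card (Pt M p) = M * p := by
  rw [Fintype.card_prod, Fintype.card_fin, ZMod.card]

lemma degree_bounds {δ : ℝ} (hδ : 0 < δ) (hM : 1 ≤ M) {n : ℕ}
    (e : Fin n ≃ (Pt M p × Fin N) ⊕ (Fam c (δ / 2) × Fin (p ^ 2 + 1)))
    (hN : 2 * ((Fintype.card (Fam c (δ / 2) × Fin (p ^ 2 + 1)) : ℝ) + 1) / δ ≤ N) (u : Fin n) :
    (1 - δ) * n ≤ (((gr c (δ / 2) (fun v => labV c (δ / 2) N (e v))).neighborSet u).ncard : ℝ) := by
  set C := Fintype.card (Fam c (δ / 2) × Fin (p ^ 2 + 1)) with hC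
  have hp : 1 ≤ p := (Fact.out : p.Prime).one_lt.le
  have hn : (n : ℝ) = M * p * N + C := by
    have h1 : n = Fintype.card ((Pt M p × Fin N) ⊕ (Fam c (δ / 2) × Fin (p ^ 2 + 1))) := by
      rw [← Fintype.card_congr e, Fintype.card_fin]
    rw [Fintype.card_sum, Fintype.card_prod, card_pt, Fintype.card_fin] at h1
    rw [h1]
    push_cast
    rfl
  have hN' : 2 * ((C : ℝ) + 1) ≤ δ * N := by
    rw [div_le_iff₀ hδ] at hN
    linarith
  have hMp : (1 : ℝ) ≤ M * p := by
    have : 1 ≤ M * p := Nat.mul_pos hM hp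
    exact_mod_cast this
  have hN0 : (0 : ℝ) ≤ N := Nat.cast_nonneg _
  have hbig : 2 * ((C : ℝ) + 1) ≤ δ * (M * p * N) := by
    have : δ * N ≤ δ * (M * p * N) := by
      apply mul_le_mul_of_nonneg_left _ hδ.le
      nlinarith
    linarith
  have hC0 : (0 : ℝ) ≤ C := Nat.cast_nonneg _
  set ι : Pt M p × Fin N → Fin n := fun z => e.symm (Sum.inl z) with hι
  have hιinj : Function.Injective ι := by
    intro a b hab
    have := e.symm.injective hab
    simpa using this
  rcases hu : e u with z | y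
  · have hsub : (((univ : Finset (Pt M p × Fin N)).image ι).erase u : Set (Fin n)) ⊆
        (gr c (δ / 2) (fun v => labV c (δ / 2) N (e v))).neighborSet u := by
      intro v hv
      rw [mem_coe, mem_erase, mem_image] at hv
      obtain ⟨hvu, z', _, hz'⟩ := hv
      refine ⟨fun h => hvu h.symm, ?_⟩
      rw [← hz']
      simp [hι, labV, hu, adjL]
    have hcard := Set.ncard_le_ncard hsub (Set.toFinite _)
    rw [Set.ncard_coe_finset] at hcard
    have h2 : M * p * N ≤ (((univ : Finset (Pt M p × Fin N)).image ι).erase u).card + 1 := by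
      have h3 : ((univ : Finset (Pt M p × Fin N)).image ι).card ≤
          (((univ : Finset (Pt M p × Fin N)).image ι).erase u).card + 1 := by
        have := pred_card_le_card_erase (s := (univ : Finset (Pt M p × Fin N)).image ι) (a := u)
        omega
      rw [card_image_of_injective _ hιinj, card_univ, Fintype.card_prod, card_pt,
        Fintype.card_fin] at h3
      exact h3
    have h3 : ((M : ℝ) * p * N) ≤
      (((gr c (δ / 2) (fun v => labV c (δ / 2) N (e v))).neighborSet u).ncard : ℝ) + 1 := by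
      exact_mod_cast le_trans h2 (Nat.add_le_add_right hcard 1)
    rw [hn]
    nlinarith
  · have hsub : ((((univ.filter (fun x : Pt M p => Covers c y.1.1 x)) ×ˢ (univ : Finset (Fin N))).image ι :
        Finset (Fin n)) : Set (Fin n)) ⊆
        (gr c (δ / 2) (fun v => labV c (δ / 2) N (e v))).neighborSet u := by
      intro v hv
      rw [mem_coe, mem_image] at hv
      obtain ⟨⟨x, j⟩, hz, hz'⟩ := hv
      rw [mem_product, mem_filter] at hz
      have hcov : Covers c y.1.1 x := hz.1.2
      refine ⟨?_, ?_⟩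
      · intro h
        rw [h, ← hz'] at hu
        simp [hι] at hu
      · rw [← hz']
        simpa [hι, labV, hu, adjL] using hcov
    have hcard := Set.ncard_le_ncard hsub (Set.toFinite _)
    rw [Set.ncard_coe_finset, card_image_of_injective _ hιinj, card_product, card_univ,
      Fintype.card_fin] at hcard
    have hfam := y.1.2
    have h3 : (1 - δ / 2) * (M * p) * N ≤
      (((gr c (δ / 2) (fun v => labV c (δ / 2) N (e v))).neighborSet u).ncard : ℝ) := by
      refine le_trans (mul_le_mul_of_nonneg_right hfam hN0) ?_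
      exact_mod_cast hcard
    rw [hn]
    nlinarith

end

/-- **Main construction.** For every `δ > 0` and all large primes `p`, there are arbitrarily large
`(2p+1)`-edge-coloured graphs of minimum degree at least `(1-δ)n` whose vertices cannot be covered
by `p²` monochromatic connected subgraphs. -/
theorem exists_graph {δ : ℝ} (hδ : 0 < δ) : ∃ p0 : ℕ, ∀ p : ℕ, p.Prime → p0 ≤ p → ∀ n0 : ℕ,
    ∃ n ≥ n0, ∃ (G : SimpleGraph (Fin n)) (χ : Sym2 (Fin n) → Fin (2 * p + 1)),
      (∀ v, (1 - δ) * n ≤ ((G.neighborSet v).ncard : ℝ)) ∧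
      ∀ (k : ℕ) (T : Fin k → G.Subgraph), (∀ t, (T t).Preconnected) →
        (∀ t, ∃ κ, ∀ e ∈ (T t).edgeSet, χ e = κ) → (∀ v, ∃ t, v ∈ (T t).verts) →
        p ^ 2 < k := by
  obtain ⟨M, hM, p1, hnet⟩ := net_cover (δ := δ / 2) (by positivity)
  refine ⟨max p1 M, ?_⟩
  intro p hp hpp n0
  have : Fact p.Prime := ⟨hp⟩
  have hp1 : p1 ≤ p := le_trans (le_max_left _ _) hpp
  have hpM : M ≤ p := le_trans (le_max_right _ _) hpp
  set c : Fin M → ZMod p := fun l => ((l : ℕ) : ZMod p) with hc
  have hcinj : Function.Injective c := by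
    intro a b hab
    have h1 : ((a : ℕ) : ZMod p) = ((b : ℕ) : ZMod p) := hab
    rw [ZMod.natCast_eq_natCast_iff', Nat.mod_eq_of_lt (lt_of_lt_of_le a.2 hpM),
      Nat.mod_eq_of_lt (lt_of_lt_of_le b.2 hpM)] at h1
    exact Fin.ext h1
  obtain ⟨N0, hN0⟩ := exists_nat_ge
    (2 * ((Fintype.card (Fam c (δ / 2) × Fin (p ^ 2 + 1)) : ℝ) + 1) / δ)
  set N := max N0 n0 with hN
  have hNN : 2 * ((Fintype.card (Fam c (δ / 2) × Fin (p ^ 2 + 1)) : ℝ) + 1) / δ ≤ N := by
    refine le_trans hN0 ?_
    exact_mod_cast le_max_left _ _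
  obtain ⟨n, hn⟩ : ∃ n, n = Fintype.card ((Pt M p × Fin N) ⊕ (Fam c (δ / 2) × Fin (p ^ 2 + 1))) :=
    ⟨_, rfl⟩
  have e : Fin n ≃ (Pt M p × Fin N) ⊕ (Fam c (δ / 2) × Fin (p ^ 2 + 1)) := by
    rw [hn]
    exact (Fintype.equivFin _).symm
  have hn0 : n0 ≤ n := by
    rw [hn, Fintype.card_sum, Fintype.card_prod, card_pt, Fintype.card_fin]
    have h1 : 1 ≤ M * p := Nat.mul_pos hM hp.pos
    have h2 : N ≤ M * p * N := Nat.le_mul_of_pos_left _ h1
    have h3 : n0 ≤ N := le_max_right _ _
    omega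
  have hcardφ : Fintype.card (Option (Pos p)) = Fintype.card (Fin (2 * p + 1)) := by
    rw [Fintype.card_option, Fintype.card_prod, ZMod.card, Fintype.card_fin, Fintype.card_fin]
    ring
  have φ : Option (Pos p) ≃ Fin (2 * p + 1) := Fintype.equivOfCardEq hcardφ
  refine ⟨n, hn0, gr c (δ / 2) (fun v => labV c (δ / 2) N (e v)),
    colr c (δ / 2) (fun v => labV c (δ / 2) N (e v)) φ, ?_, ?_⟩
  · intro u
    exact degree_bounds c N hδ hM e hNN u
  · intro k T hpre hmono hcov
    apply core c (δ / 2) (fun v => labV c (δ / 2) N (e v)) φ.injective _ _ k T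
      (fun t => (hpre t).coe) hmono hcov
    · intro y
      refine ⟨e.symm (Sum.inr y), ?_⟩
      simp [labV]
    · intro S hS
      obtain ⟨f, hf1, hf2⟩ := hnet p hp1 c hcinj S hS
      exact ⟨⟨f, hf2⟩, hf1⟩

/-- the numerical part: for `log (1/δ)` large compared with `K`, the bound
`K r ⌈r / log (1/δ)⌉` is below `p² + 1` for `r = 2p+1` and `p` large -/
lemma numeric {K : ℝ} (hK : 0 < K) : ∃ δ : ℝ, 0 < δ ∧ δ < 1 / 2 ∧ ∃ P0 : ℕ, ∀ p : ℕ, P0 ≤ p →
    K * ((2 * p + 1 : ℕ) : ℝ) * (⌈((2 * p + 1 : ℕ) : ℝ) / Real.log (1 / δ)⌉ : ℝ) <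
      ((p ^ 2 + 1 : ℕ) : ℝ) := by
  set L : ℝ := 36 * K + 1 with hL
  have hL1 : 1 ≤ L := by linarith
  have hLpos : 0 < L := by linarith
  have hlog : Real.log (1 / Real.exp (-L)) = L := by
    rw [one_div, ← Real.exp_neg, neg_neg, Real.log_exp]
  refine ⟨Real.exp (-L), Real.exp_pos _, ?_, ?_⟩
  · have h1 : Real.exp (-L) ≤ Real.exp (-1) := Real.exp_le_exp.mpr (by linarith)
    have h2 : Real.exp (-1) < 1 / 2 := by
      rw [Real.exp_neg, one_div]
      apply inv_strictAnti₀ (by norm_num)
      linarith [Real.exp_one_gt_d9]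
    linarith
  · obtain ⟨P1, hP1⟩ := exists_nat_ge (12 * K)
    refine ⟨max P1 1, ?_⟩
    intro p hp
    have hp1 : (1 : ℝ) ≤ p := by exact_mod_cast le_trans (le_max_right _ _) hp
    have hpK : 12 * K ≤ p := by
      refine le_trans hP1 ?_
      exact_mod_cast le_trans (le_max_left _ _) hp
    rw [hlog]
    push_cast
    have hceil : (⌈(2 * (p : ℝ) + 1) / L⌉ : ℝ) ≤ (2 * p + 1) / L + 1 := (Int.ceil_lt_add_one _).le
    have hr : 2 * (p : ℝ) + 1 ≤ 3 * p := by linarith
    have hr0 : 0 < 2 * (p : ℝ) + 1 := by linarith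
    have hKr : 0 ≤ K * (2 * (p : ℝ) + 1) := by positivity
    have h1 : K * (2 * (p : ℝ) + 1) * (⌈(2 * (p : ℝ) + 1) / L⌉ : ℝ) ≤
        K * (2 * p + 1) * ((2 * p + 1) / L + 1) := mul_le_mul_of_nonneg_left hceil hKr
    have h2 : K * (2 * (p : ℝ) + 1) * ((2 * p + 1) / L) ≤ (p : ℝ) ^ 2 / 4 := by
      have : K * (2 * (p : ℝ) + 1) * ((2 * p + 1) / L) = K / L * (2 * p + 1) ^ 2 := by
        field_simp
      rw [this]
      have hKL : K / L ≤ 1 / 36 := by
        rw [div_le_div_iff₀ hLpos (by norm_num)]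
        linarith
      have hsq : (2 * (p : ℝ) + 1) ^ 2 ≤ (3 * p) ^ 2 := by
        apply pow_le_pow_left₀ hr0.le hr
      calc K / L * (2 * (p : ℝ) + 1) ^ 2 ≤ 1 / 36 * (3 * p) ^ 2 := by
            apply mul_le_mul hKL hsq (by positivity) (by norm_num)
        _ = (p : ℝ) ^ 2 / 4 := by ring
    have h3 : K * (2 * (p : ℝ) + 1) ≤ (p : ℝ) ^ 2 / 4 := by
      calc K * (2 * (p : ℝ) + 1) ≤ (p / 12) * (3 * p) := by
            apply mul_le_mul (by linarith) hr hr0.le (by positivity)
        _ = (p : ℝ) ^ 2 / 4 := by ring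
    have h4 : 0 < (p : ℝ) ^ 2 := by positivity
    nlinarith

end Pool.Agent.Q296.TreeCov
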